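import Pool.Agent.LibWSF.Quasi

/-!
# Progressions
-/

set_option autoImplicit false
set_option linter.unusedSectionVars false
set_option linter.unusedVariables false

namespace Pool.Agent.LibWSF

open Finset
open scoped Pointwise
open Pool.Agent.LibKneser

variable {G : Type*} [AddCommGroup G] [Fintype G] [DecidableEq G]

/-- the unique exit point -/
lemma exit_point {A : Finset G} {d : G} (h : (A + {0, d}).card = A.card + 1) :
    ∃ e ∈ A, e + d ∉ A ∧ ∀ a ∈ A, a + d ∉ A → a = e := by
  have e1 : A + {0, d} = A ∪ (A + {d}) := by
    have : ({0, d} : Finset G) = {0} ∪ {d} := rfl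
    rw [this, Finset.add_union]
    congr 1
    ext x; rw [mem_tr]; simp
  have h2 : ((A + {d}) \ A).card = 1 := by
    rw [e1, Finset.union_comm, ← Finset.sdiff_union_self_eq_union, Finset.card_union_of_disjoint
      Finset.sdiff_disjoint] at h
    omega
  obtain ⟨f, hf⟩ := Finset.card_eq_one.1 h2
  have hfm : f ∈ (A + {d}) \ A := by rw [hf]; exact Finset.mem_singleton_self _
  rw [Finset.mem_sdiff, mem_tr] at hfm
  refine ⟨f - d, hfm.1, by simpa using hfm.2, ?_⟩
  intro a ha had
  have : a + d ∈ (A + {d}) \ A := by
    rw [Finset.mem_sdiff, mem_tr]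
    exact ⟨by simpa using ha, had⟩
  rw [hf, Finset.mem_singleton] at this
  rw [← this]; abel

lemma walk {A : Finset G} {d e : G} (hu : ∀ a ∈ A, a + d ∉ A → a = e) {a : G} (ha : a ∈ A)
    (k : ℕ) (hk : ∀ j < k, a + j • d ≠ e) : a + k • d ∈ A := by
  induction k with
  | zero => simpa using ha
  | succ k ih =>
    have h1 := ih (fun j hj => hk j (by omega))
    by_contra h2
    apply hk k (by omega)
    apply hu _ h1
    rwa [add_assoc, ← succ_nsmul]

lemma exists_nsmul {d x : G} (hx : x ∈ AddSubgroup.zmultiples d) : ∃ k : ℕ, k < addOrderOf d ∧ k • d = x := by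
  classical
  have h := (mem_zmultiples_iff_mem_range_addOrderOf (x := d) (y := x)).1 hx
  rw [Finset.mem_image] at h
  obtain ⟨k, hk, rfl⟩ := h
  exact ⟨k, Finset.mem_range.1 hk, rfl⟩

/-- if `d` does not generate, the subgroup it generates is good -/
lemma ap_not_top {A : Finset G} {d : G} (hd : d ≠ 0) (h : (A + {0, d}).card = A.card + 1) :
    AddSubgroup.zmultiples d ≠ ⊥ ∧
    (A + fs (AddSubgroup.zmultiples d)).card + 1 ≤ A.card + (fs (AddSubgroup.zmultiples d)).card := by
  obtain ⟨e, heA, hed, hu⟩ := exit_point h
  set P := AddSubgroup.zmultiples d with hP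
  refine ⟨fun hb => hd (AddSubgroup.zmultiples_eq_bot.1 hb), ?_⟩
  have hsub : A + fs P ⊆ A ∪ cos P e := by
    intro x hx
    rw [Finset.mem_add] at hx
    obtain ⟨a, ha, t, ht, rfl⟩ := hx
    rw [mem_fs] at ht
    rw [Finset.mem_union, mem_cos]
    by_cases hc : a - e ∈ P
    · right
      have := P.add_mem hc ht
      rwa [show a - e + t = a + t - e by abel] at this
    · left
      obtain ⟨k, _, hk⟩ := exists_nsmul ht
      rw [← hk]
      apply walk hu ha
      intro j _ hj
      apply hc
      rw [← hj]
      have : -(j • d) ∈ P := P.neg_mem (P.nsmul_mem (AddSubgroup.mem_zmultiples d) j)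
      rwa [show a - (a + j • d) = -(j • d) by abel]
  have h1 := Finset.card_le_card hsub
  have h2 := Finset.card_union_add_card_inter A (cos P e)
  have h3 : 0 < (A ∩ cos P e).card := by
    rw [Finset.card_pos]
    exact ⟨e, Finset.mem_inter.2 ⟨heA, by rw [mem_cos, sub_self]; exact P.zero_mem⟩⟩
  rw [card_cos] at h2
  omega

lemma addOrderOf_top {d : G} (ht : AddSubgroup.zmultiples d = ⊤) : addOrderOf d = Fintype.card G := by
  rw [← Nat.card_zmultiples, ht]
  simp [Nat.card_eq_fintype_card]

/-- if `d` generates, the set is a progression -/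
lemma ap_top {A : Finset G} {d : G} (h : (A + {0, d}).card = A.card + 1)
    (ht : AddSubgroup.zmultiples d = ⊤) :
    ∃ e : G, A = (Finset.range A.card).image (fun i : ℕ => e - i • d) := by
  obtain ⟨e, heA, hed, hu⟩ := exit_point h
  refine ⟨e, ?_⟩
  set n := addOrderOf d with hn
  -- downward closure
  have hdown : ∀ i < n, e - i • d ∈ A → ∀ j ≤ i, e - j • d ∈ A := by
    intro i hi hiA j hj
    have := walk hu hiA (i - j) (by
      intro l hl hle
      have h1 : l • d = i • d := by
        have : e - i • d + l • d = e - i • d + i • d := by rw [hle]; abel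
        exact add_left_cancel this
      have h2 : l = i := by
        have hl' : l < n := by omega
        exact nsmul_injOn_Iio_addOrderOf hl' hi h1
      omega)
    rw [show e - j • d = e - i • d + (i - j) • d by
      have : i • d = j • d + (i - j) • d := by rw [← add_nsmul]; congr 1; omega
      rw [this]; abel]
    exact this
  classical
  set I := (Finset.range n).filter (fun i => e - i • d ∈ A) with hI
  have himg : A = I.image (fun i : ℕ => e - i • d) := by
    ext x
    rw [Finset.mem_image]
    constructor
    · intro hx
      have hmem : e - x ∈ AddSubgroup.zmultiples d := by rw [ht]; exact AddSubgroup.mem_top _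
      obtain ⟨k, hk, hkx⟩ := exists_nsmul hmem
      refine ⟨k, ?_, by rw [hkx]; abel⟩
      rw [hI, Finset.mem_filter, Finset.mem_range]
      refine ⟨hk, ?_⟩
      rw [hkx, show e - (e - x) = x by abel]; exact hx
    · rintro ⟨i, hi, rfl⟩
      exact (Finset.mem_filter.1 hi).2
  have hinj : Set.InjOn (fun i : ℕ => e - i • d) (Finset.range n : Set ℕ) := by
    intro a ha b hb hab
    have h1 : a • d = b • d := sub_right_injective hab
    exact nsmul_injOn_Iio_addOrderOf (by simpa using ha) (by simpa using hb) h1
  have hIc : I.card = A.card := by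
    conv_rhs => rw [himg]
    rw [Finset.card_image_of_injOn]
    exact hinj.mono (fun x hx => by
      have := (Finset.mem_filter.1 hx).1
      exact_mod_cast this)
  have hIr : I = Finset.range A.card := by
    -- a lower set of naturals
    have hlow : ∀ i ∈ I, ∀ j ≤ i, j ∈ I := by
      intro i hi j hj
      rw [hI, Finset.mem_filter, Finset.mem_range] at hi ⊢
      exact ⟨by omega, hdown i hi.1 hi.2 j hj⟩
    have hsub : I ⊆ Finset.range I.card := by
      intro i hi
      rw [Finset.mem_range]
      have : Finset.range (i + 1) ⊆ I := by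
        intro j hj
        rw [Finset.mem_range] at hj
        exact hlow i hi j (by omega)
      have := Finset.card_le_card this
      rw [Finset.card_range] at this
      omega
    rw [← hIc]
    exact Finset.eq_of_subset_of_card_le hsub (by rw [Finset.card_range])
  rw [← hIr]
  exact himg

/-- a progression containing `0` with only diagonal zero sum triples starts at `0` -/
lemma ap_zero {A : Finset G} (hD : OnlyDiag A) (h0 : (0 : G) ∈ A) {d : G} (hd : d ≠ 0)
    (h : (A + {0, d}).card = A.card + 1) (ht : AddSubgroup.zmultiples d = ⊤) :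
    ∃ d' : G, AddSubgroup.zmultiples d' = ⊤ ∧
      A = (Finset.range A.card).image (fun i : ℕ => i • d') := by
  obtain ⟨e, he⟩ := ap_top h ht
  have h0' := h0
  rw [he, Finset.mem_image] at h0'
  obtain ⟨i0, hi0, hi0e⟩ := h0'
  rw [Finset.mem_range] at hi0
  have hee : e = i0 • d := sub_eq_zero.1 hi0e
  have hmem : ∀ i < A.card, e - i • d ∈ A := by
    intro i hi
    have : e - i • d ∈ (Finset.range A.card).image (fun i : ℕ => e - i • d) :=
      Finset.mem_image.2 ⟨i, Finset.mem_range.2 hi, rfl⟩
    rwa [← he] at this
  rcases Nat.eq_zero_or_pos i0 with h1 | h1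
  · refine ⟨-d, ?_, ?_⟩
    · rw [AddSubgroup.zmultiples_neg]; exact ht
    · have he0 : e = 0 := by rw [hee, h1, zero_nsmul]
      rw [he0] at he
      refine he.trans ?_
      congr 1
      ext i
      rw [zero_sub, neg_nsmul]
  · rcases Nat.lt_or_ge (i0 + 1) A.card with h2 | h2
    · exfalso
      have ha := hmem (i0 + 1) h2
      have hb := hmem (i0 - 1) (by omega)
      have ea : e - (i0 + 1) • d = -d := by rw [hee, succ_nsmul]; abel
      have eb : e - (i0 - 1) • d = d := by
        rw [hee]
        have : i0 • d = (i0 - 1) • d + d := by rw [← succ_nsmul]; congr 1; omega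
        rw [this]; abel
      rw [ea] at ha
      rw [eb] at hb
      have := (hD 0 h0 d hb (-d) ha (by abel)).1
      exact hd this.symm
    · refine ⟨d, ht, ?_⟩
      have hi : i0 = A.card - 1 := by omega
      ext x
      rw [Finset.mem_image]
      constructor
      · intro hx
        rw [he, Finset.mem_image] at hx
        obtain ⟨i, hi2, rfl⟩ := hx
        rw [Finset.mem_range] at hi2
        refine ⟨A.card - 1 - i, Finset.mem_range.2 (by omega), ?_⟩
        rw [hee, hi]
        have : (A.card - 1) • d = (A.card - 1 - i) • d + i • d := by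
          rw [← add_nsmul]; congr 1; omega
        rw [this]; abel
      · rintro ⟨i, hi2, rfl⟩
        rw [Finset.mem_range] at hi2
        have := hmem (A.card - 1 - i) (by omega)
        rw [hee, hi] at this
        have e2 : (A.card - 1) • d = i • d + (A.card - 1 - i) • d := by
          rw [← add_nsmul]; congr 1; omega
        rw [e2] at this
        rwa [show i • d + (A.card - 1 - i) • d - (A.card - 1 - i) • d = i • d by abel] at this

end Pool.Agent.LibWSF
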