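import Pool.Agent.LibWSF.Structure

/-!
# Sets whose zero sum triples are diagonal
-/

set_option autoImplicit false
set_option linter.unusedSectionVars false
set_option linter.unusedVariables false

namespace Pool.Agent.LibWSF

open Finset
open scoped Pointwise
open Pool.Agent.LibKneser

/-- every zero sum triple of elements of `A` is constant -/
def OnlyDiag {G : Type*} [AddCommGroup G] (A : Finset G) : Prop :=
  ∀ x ∈ A, ∀ y ∈ A, ∀ z ∈ A, x + y + z = 0 → x = y ∧ y = z

variable {G : Type*} [AddCommGroup G] [Fintype G] [DecidableEq G]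

/-- the elements of `A` killed by `3` -/
def tor (A : Finset G) : Finset G := A.filter (fun x => x + x + x = 0)

lemma mem_tor {A : Finset G} {x : G} : x ∈ tor A ↔ x ∈ A ∧ x + x + x = 0 := by
  simp [tor]

lemma upper {A : Finset G} (hD : OnlyDiag A) :
    (A + A).card + A.card ≤ Fintype.card G + (tor A).card := by
  -- -A ∩ (A + A) = -tor A
  have h1 : (A.image (fun x => -x)) ∩ (A + A) ⊆ (tor A).image (fun x => -x) := by
    intro x hx
    rw [Finset.mem_inter, Finset.mem_image, Finset.mem_add] at hx
    obtain ⟨⟨c, hc, rfl⟩, a, ha, b, hb, hab⟩ := hx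
    rw [Finset.mem_image]
    refine ⟨c, ?_, rfl⟩
    have h0 : a + b + c = 0 := by rw [hab]; abel
    obtain ⟨e1, e2⟩ := hD a ha b hb c hc h0
    rw [mem_tor]
    refine ⟨hc, ?_⟩
    rw [e1, e2] at h0
    exact h0
  have h2 := Finset.card_le_card h1
  rw [Finset.card_image_of_injective _ neg_injective] at h2
  have h3 := Finset.card_union_add_card_inter (A.image (fun x => -x)) (A + A)
  have h4 := Finset.card_le_univ ((A.image (fun x => -x)) ∪ (A + A))
  rw [Finset.card_image_of_injective _ neg_injective] at h3
  omega

/-- the part of `A` in the coset of `x` -/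
noncomputable def part (A : Finset G) (H : AddSubgroup G) (x : G) : Finset G := by
  classical exact A.filter (fun y => y - x ∈ H)

lemma mem_part {A : Finset G} {H : AddSubgroup G} {x y : G} :
    y ∈ part A H x ↔ y ∈ A ∧ y - x ∈ H := by
  classical simp [part]

lemma part_subset {A : Finset G} {H : AddSubgroup G} {x : G} : part A H x ⊆ A := by
  intro y hy; exact (mem_part.1 hy).1

/-- the coset of `x` -/
noncomputable def cos (H : AddSubgroup G) (x : G) : Finset G := fs H + {x}

lemma mem_cos {H : AddSubgroup G} {x y : G} : y ∈ cos H x ↔ y - x ∈ H := by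
  unfold cos; rw [mem_tr, mem_fs]

lemma card_cos (H : AddSubgroup G) (x : G) : (cos H x).card = (fs H).card := card_tr _ _

/-- one coset: holes of one coset bound the growth -/
lemma holes_one {A : Finset G} {H : AddSubgroup G} {x : G} (hx : x ∈ A) :
    A.card + (fs H).card ≤ (A + fs H).card + (part A H x).card := by
  have h1 : A ∪ cos H x ⊆ A + fs H := by
    intro y hy
    rw [Finset.mem_union] at hy
    rw [Finset.mem_add]
    rcases hy with hy | hy
    · exact ⟨y, hy, 0, zero_mem_fs H, add_zero y⟩
    · exact ⟨x, hx, y - x, mem_fs.2 (mem_cos.1 hy), by abel⟩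
  have h2 : A ∩ cos H x = part A H x := by
    ext y; rw [Finset.mem_inter, mem_cos, mem_part]
  have h3 := Finset.card_union_add_card_inter A (cos H x)
  have h4 := Finset.card_le_card h1
  rw [h2, card_cos] at h3
  omega

/-- holes of two different cosets -/
lemma holes_two {A : Finset G} {H : AddSubgroup G} {x y : G} (hx : x ∈ A) (hy : y ∈ A)
    (hxy : x - y ∉ H) :
    A.card + 2 * (fs H).card ≤ (A + fs H).card + (part A H x).card + (part A H y).card := by
  have h1 : A ∪ (cos H x ∪ cos H y) ⊆ A + fs H := by
    intro z hz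
    rw [Finset.mem_union, Finset.mem_union] at hz
    rw [Finset.mem_add]
    rcases hz with hz | hz | hz
    · exact ⟨z, hz, 0, zero_mem_fs H, add_zero z⟩
    · exact ⟨x, hx, z - x, mem_fs.2 (mem_cos.1 hz), by abel⟩
    · exact ⟨y, hy, z - y, mem_fs.2 (mem_cos.1 hz), by abel⟩
  have hdis : Disjoint (cos H x) (cos H y) := by
    rw [Finset.disjoint_left]
    intro z hz hz'
    apply hxy
    have := H.sub_mem (mem_cos.1 hz') (mem_cos.1 hz)
    rwa [show z - y - (z - x) = x - y by abel] at this
  have h2 : A ∩ (cos H x ∪ cos H y) ⊆ part A H x ∪ part A H y := by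
    intro z hz
    rw [Finset.mem_inter, Finset.mem_union, mem_cos, mem_cos] at hz
    rw [Finset.mem_union, mem_part, mem_part]
    tauto
  have h3 := Finset.card_union_add_card_inter A (cos H x ∪ cos H y)
  have h4 := Finset.card_le_card h1
  have h5 := Finset.card_union_of_disjoint hdis
  have h6 := Finset.card_le_card h2
  have h7 := Finset.card_union_le (part A H x) (part A H y)
  rw [card_cos, card_cos] at h5
  omega

/-- pigeonhole in a coset: if `c` is not a sum then the parts are small -/
lemma pigeon {A B : Finset G} {H : AddSubgroup G} {x y c : G} (hc : c - (x + y) ∈ H)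
    (h : ∀ a ∈ part A H x, ∀ b ∈ part B H y, a + b ≠ c) :
    (part A H x).card + (part B H y).card ≤ (fs H).card := by
  have h1 : Disjoint (part A H x) ((part B H y).image (fun b => c - b)) := by
    rw [Finset.disjoint_left]
    intro z hz hz'
    rw [Finset.mem_image] at hz'
    obtain ⟨b, hb, rfl⟩ := hz'
    exact h _ hz b hb (by abel)
  have h2 : part A H x ∪ ((part B H y).image (fun b => c - b)) ⊆ cos H x := by
    intro z hz
    rw [Finset.mem_union, Finset.mem_image] at hz
    rw [mem_cos]
    rcases hz with hz | ⟨b, hb, rfl⟩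
    · exact (mem_part.1 hz).2
    · have := H.sub_mem hc (mem_part.1 hb).2
      rwa [show c - (x + y) - (b - y) = c - b - x by abel] at this
  have h3 := Finset.card_le_card h2
  rw [Finset.card_union_of_disjoint h1, card_cos,
    Finset.card_image_of_injective _ sub_right_injective] at h3
  exact h3

/-- Lower bound for the sumset when there is exactly one torsion element. -/
lemma two_lower_one {A : Finset G} (hD : OnlyDiag A) (hE : (tor A).card = 1) :
    2 * A.card ≤ (A + A).card + 1 := by
  obtain ⟨x0, hx0⟩ := Finset.card_eq_one.1 hE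
  have hx0A : x0 ∈ A ∧ x0 + x0 + x0 = 0 := by
    rw [← mem_tor, hx0]; exact Finset.mem_singleton_self _
  have hne : A.Nonempty := ⟨x0, hx0A.1⟩
  obtain ⟨H, h1, h2⟩ := kneserG hne hne
  have hpart : part A H x0 ⊆ {x0} := by
    intro a ha
    rw [mem_part] at ha
    have hmem : -a ∈ A + A := by
      rw [← h1, Finset.mem_add]
      refine ⟨x0 + x0, Finset.add_mem_add hx0A.1 hx0A.1, -(a - x0), mem_fs.2 (H.neg_mem ha.2), ?_⟩
      calc x0 + x0 + -(a - x0) = (x0 + x0 + x0) - a := by abel
        _ = -a := by rw [hx0A.2]; abel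
    rw [Finset.mem_add] at hmem
    obtain ⟨b, hb, c, hc, hbc⟩ := hmem
    have h0 : b + c + a = 0 := by rw [hbc]; abel
    obtain ⟨e1, e2⟩ := hD b hb c hc a ha.1 h0
    rw [e1, e2] at h0
    have : a ∈ tor A := mem_tor.2 ⟨ha.1, h0⟩
    rwa [hx0] at this
  have h3 := holes_one (H := H) hx0A.1
  have h4 := Finset.card_le_card hpart
  rw [Finset.card_singleton] at h4
  have h5 : 0 < (fs H).card := Finset.card_pos.2 ⟨0, zero_mem_fs H⟩
  omega

/-- Lower bound for the sumset when there are exactly two torsion elements. -/
lemma two_lower_two {A : Finset G} (hD : OnlyDiag A) (hE : (tor A).card = 2) :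
    2 * A.card ≤ (A + A).card + 1 := by
  obtain ⟨x0, x1, hne01, hx01⟩ := Finset.card_eq_two.1 hE
  have hx0A : x0 ∈ A ∧ x0 + x0 + x0 = 0 := by
    rw [← mem_tor, hx01]; simp
  have hx1A : x1 ∈ A ∧ x1 + x1 + x1 = 0 := by
    rw [← mem_tor, hx01]; simp
  have hne : A.Nonempty := ⟨x0, hx0A.1⟩
  obtain ⟨H, h1, h2⟩ := kneserG hne hne
  have hpart : ∀ y : G, y ∈ A → y + y + y = 0 → part A H y ⊆ tor A := by
    intro y hy hy3 a ha
    rw [mem_part] at ha
    have hmem : -a ∈ A + A := by
      rw [← h1, Finset.mem_add]
      refine ⟨y + y, Finset.add_mem_add hy hy, -(a - y), mem_fs.2 (H.neg_mem ha.2), ?_⟩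
      calc y + y + -(a - y) = (y + y + y) - a := by abel
        _ = -a := by rw [hy3]; abel
    rw [Finset.mem_add] at hmem
    obtain ⟨b, hb, c, hc, hbc⟩ := hmem
    have h0 : b + c + a = 0 := by rw [hbc]; abel
    obtain ⟨e1, e2⟩ := hD b hb c hc a ha.1 h0
    rw [e1, e2] at h0
    exact mem_tor.2 ⟨ha.1, h0⟩
  have h5 : 0 < (fs H).card := Finset.card_pos.2 ⟨0, zero_mem_fs H⟩
  by_cases hH : x0 - x1 ∈ H
  · -- same coset: H has at least three elements
    have h3 := holes_one (H := H) hx0A.1
    have h4 := Finset.card_le_card (hpart x0 hx0A.1 hx0A.2)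
    have h6 : 3 ≤ (fs H).card := by
      have hsub : ({0, x0 - x1, x1 - x0} : Finset G) ⊆ fs H := by
        intro z hz
        simp only [Finset.mem_insert, Finset.mem_singleton] at hz
        rw [mem_fs]
        rcases hz with rfl | rfl | rfl
        · exact H.zero_mem
        · exact hH
        · have := H.neg_mem hH
          rwa [neg_sub] at this
      have hd : x0 - x1 ≠ 0 := sub_ne_zero.2 hne01
      have h3d : (x0 - x1) + (x0 - x1) + (x0 - x1) = 0 := by
        calc (x0 - x1) + (x0 - x1) + (x0 - x1) = (x0 + x0 + x0) - (x1 + x1 + x1) := by abel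
          _ = 0 := by rw [hx0A.2, hx1A.2]; abel
      have hcard : ({0, x0 - x1, x1 - x0} : Finset G).card = 3 := by
        rw [Finset.card_eq_three]
        refine ⟨0, x0 - x1, x1 - x0, Ne.symm hd, ?_, ?_, rfl⟩
        · intro h
          apply hd
          rw [← neg_sub, ← h, neg_zero]
        · intro h
          apply hd
          have h2 : (x0 - x1) + (x0 - x1) = 0 := by
            nth_rw 2 [h]; abel
          rw [h2, zero_add] at h3d
          exact h3d
      rw [← hcard]; exact Finset.card_le_card hsub
    omega
  · have h3 := holes_two (H := H) hx0A.1 hx1A.1 hH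
    have p0 : (part A H x0).card ≤ 1 := by
      have hs : part A H x0 ⊆ {x0} := by
        intro a ha
        have h7 := hpart x0 hx0A.1 hx0A.2 ha
        rw [hx01, Finset.mem_insert, Finset.mem_singleton] at h7
        rcases h7 with rfl | rfl
        · exact Finset.mem_singleton_self _
        · exfalso; apply hH
          have := H.neg_mem (mem_part.1 ha).2
          rwa [neg_sub] at this
      have := Finset.card_le_card hs
      rwa [Finset.card_singleton] at this
    have p1 : (part A H x1).card ≤ 1 := by
      have hs : part A H x1 ⊆ {x1} := by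
        intro a ha
        have h7 := hpart x1 hx1A.1 hx1A.2 ha
        rw [hx01, Finset.mem_insert, Finset.mem_singleton] at h7
        rcases h7 with rfl | rfl
        · exfalso; exact hH (mem_part.1 ha).2
        · exact Finset.mem_singleton_self _
      have := Finset.card_le_card hs
      rwa [Finset.card_singleton] at this
    omega

/-- `3|A| ≤ |G| + 2` -/
lemma three_one {A : Finset G} (hD : OnlyDiag A) (hE : (tor A).card = 1) :
    3 * A.card ≤ Fintype.card G + 2 := by
  have h1 := upper hD
  have h2 := two_lower_one hD hE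
  omega

/-- `3|A| ≤ |G| + 3` -/
lemma three_two {A : Finset G} (hD : OnlyDiag A) (hE : (tor A).card = 2) :
    3 * A.card ≤ Fintype.card G + 3 := by
  have h1 := upper hD
  have h2 := two_lower_two hD hE
  omega

end Pool.Agent.LibWSF
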