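import Pool.Agent.LibWSF.Struct2

/-!
# Sets whose total is not a sum of three elements
-/

set_option autoImplicit false
set_option linter.unusedSectionVars false
set_option linter.unusedVariables false

namespace Pool.Agent.LibWSF

open Finset
open scoped Pointwise
open Pool.Agent.LibKneser

section kn

variable {G : Type*} [AddCommGroup G] [Fintype G] [DecidableEq G]

lemma perG_periodic {C : Finset G} (hC : C.Nonempty) : C + fs (perG C hC) = C := by
  rw [fs_perG]; exact add_per hC

lemma mem_perG {C : Finset G} (hC : C.Nonempty) {g : G} :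
    g ∈ perG C hC ↔ ∀ c ∈ C, g + c ∈ C := by
  rw [← mem_per hC]; rfl

lemma fs_add_fs (H : AddSubgroup G) : fs H + fs H = fs H := by
  ext x
  rw [Finset.mem_add]
  constructor
  · rintro ⟨a, ha, b, hb, rfl⟩
    rw [mem_fs] at *
    exact H.add_mem ha hb
  · intro hx
    exact ⟨x, hx, 0, zero_mem_fs H, add_zero x⟩

/-- Kneser's theorem for three summands -/
theorem kneser3 {A : Finset G} (hA : A.Nonempty) : ∃ H : AddSubgroup G,
    A + A + A + fs H = A + A + A ∧
    3 * (A + fs H).card ≤ (A + A + A).card + 2 * (fs H).card := by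
  have hT : (A + A + A).Nonempty := (hA.add hA).add hA
  set H := perG (A + A + A) hT with hH
  have hper : A + A + A + fs H = A + A + A := perG_periodic hT
  refine ⟨H, hper, ?_⟩
  have hHne : (fs H).Nonempty := ⟨0, zero_mem_fs H⟩
  have h1 := kneser (hA.add hA) hA
  rw [← fs_perG _ hT, ← hH] at h1
  have hX : (A + fs H).Nonempty := hA.add hHne
  have e : A + fs H + (A + fs H) = A + A + fs H := by
    calc A + fs H + (A + fs H) = A + A + (fs H + fs H) := by abel
      _ = A + A + fs H := by rw [fs_add_fs]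
  have hD : (A + A + fs H).Nonempty := (hA.add hA).add hHne
  have h2 := kneser hX hX
  rw [e, ← fs_perG _ hD] at h2
  set K := perG (A + A + fs H) hD with hK
  have e3 : A + A + fs H + A = A + A + A := by
    calc A + A + fs H + A = A + A + A + fs H := by abel
      _ = A + A + A := hper
  have hKH : K = H := by
    apply le_antisymm
    · intro g hg
      rw [hK, mem_perG] at hg
      rw [hH, mem_perG]
      intro c hc
      rw [← e3, Finset.mem_add] at hc
      obtain ⟨d, hd, a, ha, rfl⟩ := hc
      rw [← e3, ← add_assoc]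
      exact Finset.add_mem_add (hg d hd) ha
    · intro g hg
      rw [hK, mem_perG]
      intro c hc
      rw [Finset.mem_add] at hc
      obtain ⟨d, hd, a, ha, rfl⟩ := hc
      rw [show g + (d + a) = d + (g + a) by abel]
      apply Finset.add_mem_add hd
      rw [mem_fs] at ha ⊢
      exact H.add_mem hg ha
  rw [hKH] at h2
  have e4 : A + fs H + fs H = A + fs H := by rw [add_assoc, fs_add_fs]
  rw [e4] at h2
  omega

end kn

/-- cyclic quotients of a cyclic group -/
lemma exists_hom {n : ℕ} [NeZero n] (H : AddSubgroup (ZMod n)) :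
    ∃ (q : ℕ) (_ : NeZero q) (φ : ZMod n →+ ZMod q), Function.Surjective φ ∧
      (∀ x, φ x = 0 ↔ x ∈ H) ∧ n = q * (fs H).card := by
  have hcy : IsAddCyclic (ZMod n ⧸ H) :=
    isAddCyclic_of_surjective (QuotientAddGroup.mk' H) (QuotientAddGroup.mk'_surjective H)
  have e := zmodAddCyclicAddEquiv hcy
  refine ⟨Nat.card (ZMod n ⧸ H), ⟨Nat.card_pos.ne'⟩,
    (e.symm : (ZMod n ⧸ H) →+ ZMod (Nat.card (ZMod n ⧸ H))).comp (QuotientAddGroup.mk' H), ?_, ?_, ?_⟩
  · rw [AddMonoidHom.coe_comp]
    exact e.symm.surjective.comp (QuotientAddGroup.mk'_surjective H)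
  · intro x
    rw [AddMonoidHom.comp_apply]
    constructor
    · intro h
      have h2 : (QuotientAddGroup.mk' H) x = 0 := by
        apply e.symm.injective
        rw [map_zero]; exact h
      exact (QuotientAddGroup.eq_zero_iff x).1 h2
    · intro h
      have h2 : (QuotientAddGroup.mk' H) x = 0 := (QuotientAddGroup.eq_zero_iff x).2 h
      rw [h2, map_zero]
  · have := card_quot H
    rw [ZMod.card] at this
    rw [Nat.card_eq_fintype_card]
    exact this

/-- a multiset with prescribed multiplicities -/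
lemma multiset_of_mult {M : Type*} [AddCommMonoid M] (B : Finset M) (e : M → ℕ) :
    ∃ R : Multiset M, R.card = ∑ x ∈ B, e x ∧ (∀ x ∈ R, x ∈ B) ∧ R.sum = ∑ x ∈ B, e x • x := by
  refine ⟨∑ x ∈ B, Multiset.replicate (e x) x, ?_, ?_, ?_⟩
  · rw [Multiset.card_sum]
    apply Finset.sum_congr rfl
    intro x _
    rw [Multiset.card_replicate]
  · intro x hx
    rw [Multiset.mem_sum] at hx
    obtain ⟨y, hy, hxy⟩ := hx
    rw [Multiset.mem_replicate] at hxy
    rw [hxy.2]; exact hy
  · have : (∑ x ∈ B, Multiset.replicate (e x) x).sum = ∑ x ∈ B, (Multiset.replicate (e x) x).sum := by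
      exact map_sum Multiset.sumAddMonoidHom _ _
    rw [this]
    apply Finset.sum_congr rfl
    intro x _
    rw [Multiset.sum_replicate]

/-- the structure when the total is not a sum of three elements -/
theorem caseI {n : ℕ} [NeZero n] {A : Finset (ZMod n)} (hA : A.Nonempty) (hu : n + 2 ≤ 3 * A.card)
    (hσ : ∀ a ∈ A, ∀ b ∈ A, ∀ c ∈ A, a + b + c ≠ ∑ x ∈ A, x) :
    ∃ (q b h r : ℕ) (_ : NeZero q) (B : Finset (ZMod q)) (t : ZMod q) (R : Multiset (ZMod q)),
      n = q * h ∧ q + 1 = 3 * b ∧ A.card + r = b * h ∧ B.card = b ∧ NoZ B ∧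
      (∀ y, y ≠ 0 → ∃ a ∈ B, ∃ b ∈ B, ∃ c ∈ B, a + b + c = y) ∧
      R.card = r ∧ (∀ x ∈ R, x ∈ B) ∧
      R.sum + 3 * t = h * ∑ x ∈ B, x + A.card * t := by
  obtain ⟨H, h1, h2⟩ := kneser3 hA
  obtain ⟨q, hq, φ, hφs, hφk, hn⟩ := exists_hom H
  set h := (fs H).card with hh
  have hhpos : 0 < h := Finset.card_pos.2 ⟨0, zero_mem_fs H⟩
  have hφe : ∀ x y, φ x = φ y ↔ x - y ∈ H := by
    intro x y
    rw [← hφk, map_sub, sub_eq_zero]
  have hfib : ∀ y : ZMod q, (Finset.univ.filter (fun x => φ x = y)).card = h := by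
    intro y
    obtain ⟨x, rfl⟩ := hφs y
    rw [hh, ← card_cos H x]
    congr 1
    ext z
    rw [Finset.mem_filter, mem_cos, hφe]
    simp
  have hcardpre : ∀ S : Finset (ZMod q),
      (Finset.univ.filter (fun x : ZMod n => φ x ∈ S)).card = S.card * h := by
    intro S
    rw [Finset.card_eq_sum_card_fiberwise (f := φ) (t := S) (by
      intro x hx
      rw [Finset.mem_coe, Finset.mem_filter] at hx
      exact hx.2)]
    rw [Finset.sum_const_nat (m := h)]
    intro y hy
    rw [← hfib y]
    congr 1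
    ext x
    rw [Finset.mem_filter, Finset.mem_filter, Finset.mem_filter]
    constructor
    · rintro ⟨⟨h1, h2⟩, h3⟩; exact ⟨h1, h3⟩
    · rintro ⟨h1, h3⟩; exact ⟨⟨h1, by rw [h3]; exact hy⟩, h3⟩
  -- number of cosets
  set B0 := A.image φ with hB0
  have hAH : A + fs H = Finset.univ.filter (fun x : ZMod n => φ x ∈ B0) := by
    ext x
    rw [Finset.mem_add, Finset.mem_filter]
    constructor
    · rintro ⟨a, ha, z, hz, rfl⟩
      refine ⟨Finset.mem_univ _, ?_⟩
      rw [hB0, Finset.mem_image]
      refine ⟨a, ha, ?_⟩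
      rw [hφe]
      rw [mem_fs] at hz
      have := H.neg_mem hz
      rwa [show a - (a + z) = -z by abel]
    · rintro ⟨_, hx⟩
      rw [hB0, Finset.mem_image] at hx
      obtain ⟨a, ha, hax⟩ := hx
      exact ⟨a, ha, x - a, mem_fs.2 ((hφe _ _).1 hax.symm), by abel⟩
  have h3A : A + A + A = Finset.univ.filter (fun x : ZMod n => φ x ∈ (A + A + A).image φ) := by
    ext x
    rw [Finset.mem_filter]
    constructor
    · intro hx
      exact ⟨Finset.mem_univ _, Finset.mem_image_of_mem _ hx⟩
    · rintro ⟨_, hx⟩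
      rw [Finset.mem_image] at hx
      obtain ⟨a, ha, hax⟩ := hx
      rw [← h1, Finset.mem_add]
      exact ⟨a, ha, x - a, mem_fs.2 ((hφe _ _).1 hax.symm), by abel⟩
  have hσ3 : ∑ x ∈ A, x ∉ A + A + A := by
    intro hmem
    rw [Finset.mem_add] at hmem
    obtain ⟨d, hd, c, hc, hdc⟩ := hmem
    rw [Finset.mem_add] at hd
    obtain ⟨a, ha, b, hb, rfl⟩ := hd
    exact hσ a ha b hb c hc hdc
  have hσφ : φ (∑ x ∈ A, x) ∉ (A + A + A).image φ := by
    intro hmem
    apply hσ3
    rw [h3A, Finset.mem_filter]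
    exact ⟨Finset.mem_univ _, hmem⟩
  have hlt : ((A + A + A).image φ).card < q := by
    have h4 := Finset.card_lt_univ_of_notMem hσφ
    rwa [ZMod.card] at h4
  have c1 : (A + fs H).card = B0.card * h := by rw [hAH, hcardpre]
  have c2 : (A + A + A).card = ((A + A + A).image φ).card * h := by
    conv_lhs => rw [h3A]
    rw [hcardpre]
  have hmA : A.card ≤ B0.card * h := by
    rw [← c1]; exact card_le_add_fs A H
  rw [c1, c2] at h2
  set b := B0.card with hb
  set s := ((A + A + A).image φ).card with hs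
  have k1 : 3 * b ≤ s + 2 := by
    have : (3 * b) * h ≤ (s + 2) * h := by nlinarith
    exact Nat.le_of_mul_le_mul_right this hhpos
  have k2 : q < 3 * b := by
    have : q * h < (3 * b) * h := by rw [← hn]; nlinarith
    exact Nat.lt_of_mul_lt_mul_right this
  have k3 : q + 1 = 3 * b := by omega
  have k4 : s + 1 = q := by omega
  -- the translate
  set σ := ∑ x ∈ A, x with hσdef
  set t : ZMod q := b • φ σ with ht
  have h3t : t + t + t = φ σ := by
    have : (3 * b : ℕ) • φ σ = φ σ := by
      rw [← k3, add_nsmul, one_nsmul, nsmul_eq_mul, ZMod.natCast_self, zero_mul, zero_add]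
    rw [← this, ht, mul_comm, mul_nsmul, show (3 : ℕ) = 1 + 1 + 1 from rfl, add_nsmul, add_nsmul,
      one_nsmul]
  set ψ : ZMod n → ZMod q := fun a => φ a - t with hψ
  set B := A.image ψ with hB
  have hBc : B.card = b := by
    have : B = B0.image (fun x => x - t) := by
      rw [hB, hB0, Finset.image_image]; rfl
    rw [this, Finset.card_image_of_injective _ (sub_left_injective), hb]
  have hnoz : NoZ B := by
    intro x hx y hy z hz hxyz
    rw [hB, Finset.mem_image] at hx hy hz
    obtain ⟨a, ha, rfl⟩ := hx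
    obtain ⟨a', ha', rfl⟩ := hy
    obtain ⟨a'', ha'', rfl⟩ := hz
    apply hσφ
    rw [Finset.mem_image]
    refine ⟨a + a' + a'', Finset.add_mem_add (Finset.add_mem_add ha ha') ha'', ?_⟩
    rw [map_add, map_add]
    have e1 : φ a + φ a' + φ a'' = (φ a - t + (φ a' - t) + (φ a'' - t)) + (t + t + t) := by abel
    rw [e1, ← h3t]
    have e2 : φ a - t + (φ a' - t) + (φ a'' - t) = 0 := hxyz
    rw [e2, zero_add]
  have hfull : ∀ y, y ≠ 0 → ∃ a ∈ B, ∃ b ∈ B, ∃ c ∈ B, a + b + c = y := by
    intro y hy
    -- the image of 3A is everything but φ σ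
    have hcompl : (A + A + A).image φ = Finset.univ.erase (φ σ) := by
      apply Finset.eq_of_subset_of_card_le
      · intro z hz
        rw [Finset.mem_erase]
        exact ⟨fun h => hσφ (h ▸ hz), Finset.mem_univ _⟩
      · rw [Finset.card_erase_of_mem (Finset.mem_univ _), Finset.card_univ, ZMod.card]
        omega
    have hmem : y + φ σ ∈ (A + A + A).image φ := by
      rw [hcompl, Finset.mem_erase]
      refine ⟨?_, Finset.mem_univ _⟩
      intro h
      apply hy
      have : y + φ σ = 0 + φ σ := by rw [h, zero_add]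
      exact add_right_cancel this
    rw [Finset.mem_image] at hmem
    obtain ⟨w, hw, hwy⟩ := hmem
    rw [Finset.mem_add] at hw
    obtain ⟨v, hv, a'', ha'', rfl⟩ := hw
    rw [Finset.mem_add] at hv
    obtain ⟨a, ha, a', ha', rfl⟩ := hv
    refine ⟨ψ a, Finset.mem_image_of_mem _ ha, ψ a', Finset.mem_image_of_mem _ ha', ψ a'',
      Finset.mem_image_of_mem _ ha'', ?_⟩
    rw [map_add, map_add] at hwy
    show φ a - t + (φ a' - t) + (φ a'' - t) = y
    have e1 : φ a - t + (φ a' - t) + (φ a'' - t) = (φ a + φ a' + φ a'') - (t + t + t) := by abel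
    rw [e1, hwy, h3t, add_sub_cancel_right]
  -- multiplicities
  set c : ZMod q → ℕ := fun x => (A.filter (fun a => ψ a = x)).card with hc
  have hcle : ∀ x, c x ≤ h := by
    intro x
    rw [hc, ← hfib (x + t)]
    apply Finset.card_le_card
    intro a ha
    rw [Finset.mem_filter] at ha ⊢
    refine ⟨Finset.mem_univ _, ?_⟩
    have : φ a - t = x := ha.2
    rw [← this, sub_add_cancel]
  have hcsum : ∑ x ∈ B, c x = A.card := by
    rw [Finset.card_eq_sum_card_fiberwise (f := ψ) (t := B) (by
      intro x hx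
      exact Finset.mem_image_of_mem _ hx)]
  have hcval : ∑ x ∈ B, c x • x = 3 * t - A.card * t := by
    have e1 : ∑ a ∈ A, ψ a = ∑ x ∈ B, c x • x := by
      rw [← Finset.sum_fiberwise_of_maps_to (g := ψ) (t := B) (by
        intro x hx
        exact Finset.mem_image_of_mem _ hx)]
      apply Finset.sum_congr rfl
      intro x _
      rw [hc]
      simp only
      rw [← Finset.sum_const]
      apply Finset.sum_congr rfl
      intro a ha
      exact (Finset.mem_filter.1 ha).2
    rw [← e1, hψ]
    simp only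
    rw [Finset.sum_sub_distrib, Finset.sum_const, nsmul_eq_mul, ← map_sum, ← hσdef, ← h3t]
    ring
  obtain ⟨R, hR1, hR2, hR3⟩ := multiset_of_mult B (fun x => h - c x)
  have hRc : R.card + A.card = b * h := by
    rw [hR1, ← hcsum, ← Finset.sum_add_distrib, ← hBc, ← smul_eq_mul, ← Finset.sum_const]
    apply Finset.sum_congr rfl
    intro x _
    exact Nat.sub_add_cancel (hcle x)
  have hRs : R.sum + ∑ x ∈ B, c x • x = h * ∑ x ∈ B, x := by
    rw [hR3, ← Finset.sum_add_distrib, Finset.mul_sum]
    apply Finset.sum_congr rfl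
    intro x _
    rw [← add_nsmul, Nat.sub_add_cancel (hcle x), nsmul_eq_mul]
  refine ⟨q, b, h, R.card, hq, B, t, R, hn, k3, by omega, hBc, hnoz, hfull, rfl, hR2, ?_⟩
  rw [hcval] at hRs
  rw [← hRs]; ring

end Pool.Agent.LibWSF
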