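import Pool.Agent.LibWSF.Intervals

/-!
# The complete classification
-/

set_option autoImplicit false
set_option linter.unusedSectionVars false
set_option linter.unusedVariables false

namespace Pool.Agent.LibWSF

open Finset
open scoped Pointwise

lemma gcd_dvd_w {m n w : ℕ} (hw : n = 3 * (m - 3) + w) : Nat.gcd (m - 3) n ∣ w := by
  have h2 := Nat.gcd_dvd_left (m - 3) n
  have h3 := Nat.gcd_dvd_right (m - 3) n
  have h5 : Nat.gcd (m - 3) n ∣ 3 * (m - 3) := Dvd.dvd.mul_left h2 3
  have h6 : Nat.gcd (m - 3) n ∣ n - 3 * (m - 3) := Nat.dvd_sub h3 h5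
  rwa [show n - 3 * (m - 3) = w by omega] at h6

lemma exists_half (m : ℕ) : ∃ N, 2 * N = m * (m - 1) := by
  refine ⟨∑ i ∈ Finset.range m, i, sum_range' m⟩

/-- small gcd: the interval works -/
lemma ex_small_gcd {m n w : ℕ} (hm : 4 ≤ m) (hw : n = 3 * (m - 3) + w) (hw6 : 6 ≤ w)
    (hg : Nat.gcd (m - 3) n + 5 ≤ w) : Ex m n := by
  obtain ⟨N, hN⟩ := exists_half m
  set D := Nat.gcd (m - 3) n with hD
  have hD0 : 0 < D := Nat.gcd_pos_of_pos_left _ (by omega)
  have h1 : N % D < D := Nat.mod_lt _ hD0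
  have h2 := Nat.div_add_mod N D
  by_cases h0 : N % D = 0
  · exact ex_full (x := 0) (by omega) (by omega) (by omega) hN (by
      rw [add_zero, ← hD]; exact Nat.dvd_of_mod_eq_zero h0)
  · exact ex_full (x := D - N % D) (by omega) (by omega) (by omega) hN (by
      rw [← hD]
      refine ⟨N / D + 1, ?_⟩
      rw [mul_add, mul_one]; omega)

/-- `n ≥ 3 m` -/
lemma ex_ge {m n : ℕ} (hm : 4 ≤ m) (hn : 3 * m ≤ n) : Ex m n := by
  obtain ⟨w, hw⟩ : ∃ w, n = 3 * (m - 3) + w := ⟨n - 3 * (m - 3), by omega⟩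
  have hw9 : 9 ≤ w := by omega
  have hDw := gcd_dvd_w hw
  by_cases hg : Nat.gcd (m - 3) n + 5 ≤ w
  · exact ex_small_gcd hm hw (by omega) hg
  · -- the gcd is w
    have hDeq : Nat.gcd (m - 3) n = w := by
      obtain ⟨c, hc⟩ := hDw
      set D := Nat.gcd (m - 3) n
      have hc0 : c ≠ 0 := by rintro rfl; omega
      by_contra hne
      have hc1 : c ≠ 1 := by rintro rfl; rw [mul_one] at hc; exact hne hc.symm
      have : D * 2 ≤ D * c := Nat.mul_le_mul_left D (by omega)
      -- w ≤ D + 4, 2 D ≤ w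
      have hD4 : D ≤ 4 := by omega
      have hw8 : w = 9 ∨ w < 9 := by omega
      have hw9' : w = 9 := by omega
      rw [hw9'] at hc
      have : D ≥ 5 := by omega
      omega
    have hwm : w ∣ m - 3 := by rw [← hDeq]; exact Nat.gcd_dvd_left _ _
    obtain ⟨e, he⟩ := hwm
    have hm' : m = w * e + 3 := by omega
    have he1 : 1 ≤ e := by
      rcases Nat.eq_zero_or_pos e with h | h
      · subst h; omega
      · exact h
    have hwe : w ≤ w * e := Nat.le_mul_of_pos_right w he1
    by_cases hpar : e % 2 = 0 ∨ w % 2 = 1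
    · -- punctured interval
      have hev : (e * (7 + w * e)) % 2 = 0 := by
        rcases hpar with h | h
        · rw [Nat.mul_mod, h]; simp
        · rcases Nat.mod_two_eq_zero_or_one e with h2 | h2
          · rw [Nat.mul_mod, h2]; simp
          · have h3 : (7 + w * e) % 2 = 0 := by
              rw [Nat.add_mod, Nat.mul_mod, h, h2]
            rw [Nat.mul_mod, h3]; simp
      obtain ⟨f, hf⟩ : ∃ f, e * (7 + w * e) = 2 * f := ⟨e * (7 + w * e) / 2, by omega⟩
      apply ex_punct (N := w * f) (by omega) hn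
      · rw [hm']
        have : 2 * (w * f) = w * (2 * f) := by ring
        rw [this, ← hf]; ring
      · rw [hDeq]; exact Dvd.intro f rfl
    · push Not at hpar
      have he2 : e % 2 = 1 := by omega
      have hw2 : w % 2 = 0 := by omega
      obtain ⟨N, hN⟩ := exists_half m
      obtain ⟨v, hv⟩ : ∃ v, w = 2 * v := ⟨w / 2, by omega⟩
      obtain ⟨g, hg'⟩ : ∃ g, e = 2 * g + 1 := ⟨e / 2, by omega⟩
      apply ex_full (x := v - 3) (N := N) (by omega) (by omega) (by omega) hN
      rw [hDeq]
      -- 2 (N + x) = w (5 e + w e^2 + 1)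
      refine ⟨5 * g + 3 + v * e * e, ?_⟩
      have h1 : m - 1 = w * e + 2 := by omega
      have h2 : 2 * (N + (v - 3)) = 2 * (w * (5 * g + 3 + v * e * e)) := by
        have h3 : 2 * (N + (v - 3)) = 2 * N + w - 6 := by omega
        rw [h3, hN, h1, hm']
        have h4 : (w * e + 3) * (w * e + 2) + w - 6 = w * (w * e * e + 5 * e + 1) := by
          have : (w * e + 3) * (w * e + 2) + w = w * (w * e * e + 5 * e + 1) + 6 := by ring
          omega
        rw [h4]
        have h5 : w * e * e + 5 * e + 1 = 2 * (5 * g + 3 + v * e * e) := by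
          rw [hv]; nth_rw 3 [hg']; ring
        rw [h5]; ring
      omega

/-- `n = 3 m - 1` -/
lemma ex_m1 {m n : ℕ} (hm : 4 ≤ m) (hn : n + 1 = 3 * m) : Ex m n := by
  obtain ⟨w, hw⟩ : ∃ w, n = 3 * (m - 3) + w := ⟨n - 3 * (m - 3), by omega⟩
  have hw8 : w = 8 := by omega
  subst hw8
  have hDw := gcd_dvd_w hw
  by_cases hg : Nat.gcd (m - 3) n + 5 ≤ 8
  · exact ex_small_gcd hm hw (by omega) hg
  · have h4 : 4 ∣ Nat.gcd (m - 3) n := by
      have hle := Nat.le_of_dvd (by norm_num) hDw
      set D := Nat.gcd (m - 3) n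
      interval_cases D <;> omega
    have h4m : 4 ∣ m - 3 := h4.trans (Nat.gcd_dvd_left _ _)
    by_cases h8 : m % 8 = 3
    · obtain ⟨e, he⟩ : ∃ e, m = 8 * e + 3 := ⟨m / 8, by omega⟩
      have hn8 : n = 8 * (3 * e + 1) := by omega
      by_cases he1 : e = 1
      · -- m = 11, n = 32
        subst he1
        have hm11 : m = 11 := by omega
        subst hm11
        have hn32 : n = 32 := by omega
        subst hn32
        exact ex_full (x := 1) (N := 55) (by norm_num) (by norm_num) (by norm_num) (by norm_num)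
          (by norm_num)
      · rw [hn8]
        exact ex_eight (r := e) (by omega) (by omega) (by omega) (by omega) (by omega)
    · have h87 : m % 8 = 7 := by omega
      have hn3 : n % 3 = 2 := by omega
      have hn8 : n % 8 = 4 := by omega
      rcases divisor_types hn3 (by omega) with ⟨p, hp, hp3, hp5, hpn⟩ | h | ⟨p, hp, hp3, hpn⟩
      · obtain ⟨h, hh⟩ := hpn
        have hh3 : h % 3 = 1 := by
          rw [hh, Nat.mul_mod, hp3] at hn3
          have : h % 3 < 3 := Nat.mod_lt _ (by norm_num)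
          interval_cases h' : h % 3 <;> omega
        have hmr : 3 * (m + (h - 1) / 3) = (p + 1) * h := by
          rw [Nat.add_mul, one_mul, ← hh]; omega
        rw [hh]
        apply ex_prime hp hp3 hp5 hmr (by omega) (by omega) (by omega)
        rintro ⟨hpm, _⟩
        have h1 : p ∣ n := by rw [hh]; exact Nat.dvd_mul_right _ _
        have h2 : p ∣ 8 := by
          have h5 : p ∣ 3 * (m - 3) := Dvd.dvd.mul_left hpm 3
          have h6 : p ∣ n - 3 * (m - 3) := Nat.dvd_sub h1 h5
          rwa [show n - 3 * (m - 3) = 8 by omega] at h6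
        have h3 : p ∣ 2 ^ 3 := by norm_num; exact h2
        have h4 := (Nat.prime_dvd_prime_iff_eq hp Nat.prime_two).1 (hp.dvd_of_dvd_pow h3)
        omega
      · omega
      · obtain ⟨h, hh⟩ := hpn
        have hp2 : p % 2 = 1 := by
          rcases hp.eq_two_or_odd with h | h
          · subst h; omega
          · exact h
        have hh3 : h % 3 = 1 := by
          have h2 : (2 * p) % 3 = 2 := by omega
          rw [hh, Nat.mul_mod, h2] at hn3
          have : h % 3 < 3 := Nat.mod_lt _ (by norm_num)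
          interval_cases h' : h % 3 <;> omega
        have hh2 : h % 2 = 0 := by
          by_contra hodd
          have h1 : (p * h) % 2 = 1 := by
            rw [Nat.mul_mod, hp2, show h % 2 = 1 by omega]
          have h2 : n = 2 * (p * h) := by rw [hh]; ring
          omega
        have hmr : 3 * (m + (h - 1) / 3) = (2 * p + 1) * h := by
          rw [Nat.add_mul, one_mul, ← hh]; omega
        rw [hh]
        apply ex_twop hp hp3 (by omega) hmr (by omega) (by omega) (by omega) (by omega)
        rintro ⟨hpm, _⟩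
        have h1 : p ∣ n := by rw [hh]; exact Dvd.intro_left 2 rfl |>.mul_right h
        have h2 : p ∣ 8 := by
          have h5 : p ∣ 3 * (m - 3) := Dvd.dvd.mul_left hpm 3
          have h6 : p ∣ n - 3 * (m - 3) := Nat.dvd_sub h1 h5
          rwa [show n - 3 * (m - 3) = 8 by omega] at h6
        have h3 : p ∣ 2 ^ 3 := by norm_num; exact h2
        have h4 := (Nat.prime_dvd_prime_iff_eq hp Nat.prime_two).1 (hp.dvd_of_dvd_pow h3)
        omega

/-- `n = 3 m - 2` -/
lemma ex_m2 {m n : ℕ} (hm : 4 ≤ m) (hn : n + 2 = 3 * m) (hbad : ¬ Bad2 m) : Ex m n := by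
  obtain ⟨w, hw⟩ : ∃ w, n = 3 * (m - 3) + w := ⟨n - 3 * (m - 3), by omega⟩
  have hw7 : w = 7 := by omega
  subst hw7
  have hDw := gcd_dvd_w hw
  by_cases hg : Nat.gcd (m - 3) n + 5 ≤ 7
  · exact ex_small_gcd hm hw (by omega) hg
  · have h7 : Nat.gcd (m - 3) n = 7 := by
      rcases (Nat.dvd_prime (by norm_num : Nat.Prime 7)).1 hDw with h | h
      · omega
      · exact h
    have h7m : 7 ∣ m - 3 := by rw [← h7]; exact Nat.gcd_dvd_left _ _
    by_cases hm2 : m % 2 = 0
    · obtain ⟨h, hh⟩ : ∃ h, n = 2 * h := ⟨n / 2, by omega⟩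
      rw [hh]
      exact ex_two hm2 (by omega) (by omega)
    · by_cases h49 : 49 ∣ 3 * m - 2
      · obtain ⟨v, hv⟩ := h49
        have hnv : n = 49 * v := by omega
        rw [hnv]
        exact ex_coset (by omega) h7m hm
      · have : ∃ p : ℕ, p.Prime ∧ p ∣ 3 * m - 2 ∧ p % 3 ≠ 1 := by
          by_contra hcon
          push Not at hcon
          exact hbad ⟨by omega, h7m, h49, hcon⟩
        obtain ⟨p, hp, hpn, hp3⟩ := this
        rw [show 3 * m - 2 = n by omega] at hpn
        obtain ⟨h, hh⟩ := hpn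
        have hn1 : n % 3 = 1 := by omega
        have hp2 : p % 2 = 1 := by
          rcases hp.eq_two_or_odd with h' | h'
          · subst h'; omega
          · exact h'
        have hp32 : p % 3 = 2 := by
          by_contra hne
          have h0 : p % 3 = 0 := by omega
          rw [hh, Nat.mul_mod, h0] at hn1
          omega
        have hp5 : 5 ≤ p := by
          have := hp.two_le
          omega
        have hh3 : h % 3 = 2 := by
          rw [hh, Nat.mul_mod, hp32] at hn1
          have : h % 3 < 3 := Nat.mod_lt _ (by norm_num)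
          interval_cases h' : h % 3 <;> omega
        have hmr : 3 * (m + (h - 2) / 3) = (p + 1) * h := by
          rw [Nat.add_mul, one_mul, ← hh]; omega
        rw [hh]
        apply ex_prime hp hp32 hp5 hmr (by omega) (by omega) (by omega)
        rintro ⟨hpm, _⟩
        have h1 : p ∣ n := by rw [hh]; exact Nat.dvd_mul_right _ _
        have h2 : p ∣ 7 := by
          have h5 : p ∣ 3 * (m - 3) := Dvd.dvd.mul_left hpm 3
          have h6 : p ∣ n - 3 * (m - 3) := Nat.dvd_sub h1 h5
          rwa [show n - 3 * (m - 3) = 7 by omega] at h6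
        have h3 := (Nat.prime_dvd_prime_iff_eq hp (by norm_num : Nat.Prime 7)).1 h2
        omega

lemma pow_three_of_primes : ∀ s : ℕ, s ≠ 0 → (∀ p : ℕ, p.Prime → p ∣ s → p = 3) →
    ∃ j, s = 3 ^ j := by
  intro s
  induction s using Nat.strong_induction_on with
  | _ s ih =>
  intro hs hp
  by_cases h1 : s = 1
  · exact ⟨0, by rw [h1]; norm_num⟩
  · have hpr := Nat.minFac_prime h1
    obtain ⟨t, ht⟩ := Nat.minFac_dvd s
    have ht0 : t ≠ 0 := by rintro rfl; rw [mul_zero] at ht; exact hs ht
    have htlt : t < s := by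
      rw [ht]
      have := hpr.two_le
      nlinarith [Nat.pos_of_ne_zero ht0]
    obtain ⟨j, hj⟩ := ih t htlt ht0 (fun p hpp hpt => hp p hpp (by
      rw [ht]; exact Dvd.dvd.mul_left hpt _))
    have h3 := hp _ hpr (Nat.minFac_dvd s)
    refine ⟨j + 1, ?_⟩
    rw [ht, h3, hj]; ring

/-- `n = 3 m - 3` -/
lemma ex_m3 {m n : ℕ} (hm : 4 ≤ m) (hn : n + 3 = 3 * m) (hbad : ¬ Bad3 m) : Ex m n := by
  obtain ⟨w, hw⟩ : ∃ w, n = 3 * (m - 3) + w := ⟨n - 3 * (m - 3), by omega⟩
  have hw6 : w = 6 := by omega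
  subst hw6
  have hDw := gcd_dvd_w hw
  by_cases hm4 : m % 4 = 3
  · obtain ⟨s, hs⟩ : ∃ s, m = 2 * s + 1 := ⟨m / 2, by omega⟩
    have hs2 : s % 2 = 1 := by omega
    have hns : n = 6 * s := by omega
    have hs0 : s ≠ 0 := by omega
    have hnot : ¬ ((∃ j, s = 3 ^ j) ∨ (s.Prime ∧ s % 3 = 1)) := fun h => hbad ⟨hm4, s, hs, h⟩
    push Not at hnot
    obtain ⟨hn3, hnp⟩ := hnot
    have : ∃ p : ℕ, p.Prime ∧ p ∣ s ∧ p ≠ 3 := by
      by_contra hcon
      push Not at hcon
      obtain ⟨j, hj⟩ := pow_three_of_primes s hs0 hcon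
      exact hn3 j hj
    obtain ⟨p, hp, hps, hp3⟩ := this
    have hp2 : p % 2 = 1 := by
      rcases hp.eq_two_or_odd with h' | h'
      · subst h'; omega
      · exact h'
    have hp30 : p % 3 ≠ 0 := by
      intro h
      have := (Nat.prime_dvd_prime_iff_eq Nat.prime_three hp).1 (Nat.dvd_of_mod_eq_zero h)
      exact hp3 this.symm
    have hpm : ¬ p ∣ m - 3 := by
      intro h
      have h1 : m - 3 = 2 * s - 2 := by omega
      have h2 : p ∣ 2 * s := Dvd.dvd.mul_left hps 2
      have h3 : p ∣ 2 * s - (m - 3) := Nat.dvd_sub h2 h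
      have h4 : 2 * s - (m - 3) = 2 := by omega
      rw [h4] at h3
      have := (Nat.prime_dvd_prime_iff_eq hp Nat.prime_two).1 h3
      omega
    obtain ⟨s', hs'⟩ := hps
    have hs'0 : s' ≠ 0 := by rintro rfl; rw [mul_zero] at hs'; exact hs0 hs'
    by_cases hp32 : p % 3 = 2
    · have h1 : n = p * (6 * s') := by rw [hns, hs']; ring
      rw [h1]
      have hp5 : 5 ≤ p := by
        have := hp.two_le
        omega
      apply ex_prime (r := 2 * s' - 1) hp hp32 hp5 _ (by omega) (by omega) (by omega)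
      · rintro ⟨h, _⟩; exact hpm h
      · have h2 : 3 * (m + (2 * s' - 1)) = 6 * s + 6 * s' := by omega
        rw [h2, hs']; ring
    · have hp31 : p % 3 = 1 := by omega
      have hs'1 : s' ≠ 1 := by
        rintro rfl
        rw [mul_one] at hs'
        exact hnp (by rw [hs']; exact hp) (by rw [hs']; exact hp31)
      have hs'2 : s' % 2 = 1 := by
        by_contra h
        have h0 : s' % 2 = 0 := by omega
        rw [hs', Nat.mul_mod, h0] at hs2
        omega
      have h1 : n = 2 * p * (3 * s') := by rw [hns, hs']; ring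
      rw [h1]
      apply ex_twop (r := s' - 1) hp hp31 (by omega) _ (by omega) (by omega) (by omega) (by omega)
      · rintro ⟨h, _⟩; exact hpm h
      · have h2 : 3 * (m + (s' - 1)) = 6 * s + 3 * s' := by omega
        rw [h2, hs']; ring
  · obtain ⟨N, hN⟩ := exists_half m
    apply ex_full (x := 0) (N := N) (by omega) (by omega) (by omega) hN
    rw [add_zero]
    have hle := Nat.le_of_dvd (by norm_num) hDw
    have hDm := Nat.gcd_dvd_left (m - 3) n
    set D := Nat.gcd (m - 3) n
    have h2 : 2 ∣ m - 3 → 2 ∣ N := by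
      intro h
      obtain ⟨k, hk⟩ : ∃ k, m = 4 * k + 1 := ⟨m / 4, by omega⟩
      have h1 : m - 1 = 4 * k := by omega
      rw [h1, hk] at hN
      refine ⟨(4 * k + 1) * k, ?_⟩
      have : 2 * N = 2 * (2 * ((4 * k + 1) * k)) := by rw [hN]; ring
      omega
    have h3 : 3 ∣ m - 3 → 3 ∣ N := by
      intro h
      obtain ⟨k, hk⟩ : ∃ k, m = 3 * k := ⟨m / 3, by omega⟩
      have h1 : 3 ∣ 2 * N := by rw [hN, hk, mul_assoc]; exact Nat.dvd_mul_right _ _
      exact (Nat.Coprime.dvd_of_dvd_mul_left (by norm_num) h1)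
    interval_cases D
    · omega
    · exact one_dvd _
    · exact h2 hDm
    · exact h3 hDm
    · omega
    · omega
    · exact Nat.Coprime.mul_dvd_of_dvd_of_dvd (by norm_num : Nat.Coprime 2 3)
        (h2 ((by norm_num : (2 : ℕ) ∣ 6).trans hDm)) (h3 ((by norm_num : (3 : ℕ) ∣ 6).trans hDm))

/-- sufficiency -/
theorem sufficiency {m n : ℕ} (hm : 4 ≤ m) (hn0 : 0 < n) (h : GoodN m n) : Ex m n := by
  rcases h with h | ⟨h, hb⟩ | ⟨h, hb⟩ | ⟨h, hc⟩
  · by_cases h3 : 3 * m ≤ n
    · exact ex_ge hm h3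
    · exact ex_m1 hm (by omega)
  · exact ex_m2 hm h hb
  · exact ex_m3 hm h hb
  · rcases hc with ⟨h2, k, hk, hmk⟩ | ⟨p, k, r, hp, hp3, hp5, hk, hmr, hex⟩ |
      ⟨h2, k, r, hk, hmr, hex⟩ | ⟨h2, p, k, r, hp, hp3, hk, hmr, hr, hex⟩
    · rw [hk]; exact ex_two h2 hmk (by omega)
    · have h1 : (p + 1) * k = n + k := by rw [hk]; ring
      have hk0 : 0 < k := by
        rcases Nat.eq_zero_or_pos k with h0 | h0
        · subst h0; omega
        · exact h0
      rw [hk]; exact ex_prime hp hp3 hp5 hmr (by omega) hk0 (by omega) hex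
    · rw [hk]; exact ex_eight h2 hmr (by omega) (by omega) hex
    · have h1 : (2 * p + 1) * k = n + k := by rw [hk]; ring
      have hk0 : 0 < k := by
        rcases Nat.eq_zero_or_pos k with h0 | h0
        · subst h0; omega
        · exact h0
      rw [hk]; exact ex_twop hp hp3 h2 hmr (by omega) hk0 (by omega) hr hex

/-- the complete classification -/
theorem classify {m n : ℕ} (hm : 4 ≤ m) (hn0 : 0 < n) : Ex m n ↔ GoodN m n :=
  ⟨fun h => necessity hm hn0 h, fun h => sufficiency hm hn0 h⟩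

end Pool.Agent.LibWSF
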