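import Pool.Agent.LibWSF.Weight2

/-!
# Interval constructions and the complete classification
-/

set_option autoImplicit false
set_option linter.unusedSectionVars false
set_option linter.unusedVariables false

namespace Pool.Agent.LibWSF

open Finset
open scoped Pointwise

/-- translates of sets with only diagonal zero sum triples -/
lemma ex_shift {n m : ℕ} {A' : Finset (ZMod n)} (hc : A'.card = m) (hD : OnlyDiag A') (x : ZMod n)
    (h : ∑ y ∈ A', y + m * x = 3 * x) : Ex m n := by
  classical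
  refine ⟨A'.image (fun y => y + x), ?_, ?_⟩
  · rw [Finset.card_image_of_injective _ (add_left_injective x), hc]
  · intro a ha b hb c hc' habc
    rw [Finset.sum_image (fun y _ z _ hyz => add_left_injective x hyz), Finset.sum_add_distrib,
      Finset.sum_const, nsmul_eq_mul, hc, h] at habc
    rw [Finset.mem_image] at ha hb hc'
    obtain ⟨y, hy, rfl⟩ := ha
    obtain ⟨z, hz, rfl⟩ := hb
    obtain ⟨w, hw, rfl⟩ := hc'
    have h0 : y + z + w = 0 := by linear_combination habc
    obtain ⟨h1, h2⟩ := hD y hy z hz w hw h0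
    rw [h1, h2]; exact ⟨rfl, rfl⟩

/-- intervals -/
lemma ex_interval {n m M x N : ℕ} (S : Finset ℕ) (hS : ∀ i ∈ S, i ≤ M) (hc : S.card = m)
    (hn : 3 * M + x ≤ n) (hMn : M < n) (hN : ∑ i ∈ S, i = N) (hm3 : 3 ≤ m)
    (hg : Nat.gcd (m - 3) n ∣ N + x) : Ex m n := by
  classical
  have hinj : Set.InjOn (fun k : ℕ => (k : ZMod n)) (S : Set ℕ) := by
    intro i hi j hj hij
    have h1 : (i : ZMod n) = (j : ZMod n) := hij
    have h2 := hS i hi
    have h3 := hS j hj
    rw [ZMod.natCast_eq_natCast_iff', Nat.mod_eq_of_lt (by omega), Nat.mod_eq_of_lt (by omega)] at h1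
    exact h1
  obtain ⟨t, s, hts⟩ := lin_cong (a := ((m - 3 : ℕ) : ℤ)) (n := (n : ℤ)) (N := -((N + x : ℕ) : ℤ)) (by
    rw [Int.gcd_natCast_natCast, dvd_neg]
    exact Int.natCast_dvd_natCast.2 hg)
  have hsum : ∑ y ∈ S.image (fun k : ℕ => (k : ZMod n)), y = (N : ZMod n) := by
    rw [Finset.sum_image hinj, ← Nat.cast_sum, hN]
  have heq : ((m - 3 : ℕ) : ZMod n) * ((t : ℤ) : ZMod n) + ((N + x : ℕ) : ZMod n) = 0 := by
    have h1 := congrArg (fun z : ℤ => (z : ZMod n)) hts
    simp only [Int.cast_sub, Int.cast_mul, Int.cast_neg, Int.cast_natCast] at h1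
    rw [ZMod.natCast_self, zero_mul] at h1
    linear_combination h1
  rw [Nat.cast_sub hm3, Nat.cast_add] at heq
  refine ⟨S.image (fun k : ℕ => (t : ZMod n) + (k : ZMod n)), ?_, ?_⟩
  · have : S.image (fun k : ℕ => (t : ZMod n) + (k : ZMod n)) =
        (S.image (fun k : ℕ => (k : ZMod n))).image (fun y => (t : ZMod n) + y) := by
      rw [Finset.image_image]; rfl
    rw [this, Finset.card_image_of_injective _ (add_right_injective _),
      Finset.card_image_of_injOn hinj, hc]
  · intro a ha b hb c hc' habc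
    have hsum2 : ∑ y ∈ S.image (fun k : ℕ => (t : ZMod n) + (k : ZMod n)), y =
        m * t + N := by
      rw [Finset.sum_image, Finset.sum_add_distrib, Finset.sum_const, nsmul_eq_mul, hc,
        ← Nat.cast_sum, hN]
      intro i hi j hj hij
      exact hinj hi hj (add_left_cancel hij)
    rw [hsum2] at habc
    rw [Finset.mem_image] at ha hb hc'
    obtain ⟨i, hi, rfl⟩ := ha
    obtain ⟨j, hj, rfl⟩ := hb
    obtain ⟨k, hk, rfl⟩ := hc'
    have h1 : ((i + j + k + x : ℕ) : ZMod n) = 0 := by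
      push_cast
      linear_combination habc + heq
    rw [ZMod.natCast_eq_zero_iff] at h1
    obtain ⟨d, hd⟩ := h1
    have hi' := hS i hi
    have hj' := hS j hj
    have hk' := hS k hk
    have hd2 : d < 2 := by
      by_contra hge
      have : n * 2 ≤ n * d := Nat.mul_le_mul_left n (by omega)
      omega
    have hij : i = j ∧ j = k := by
      interval_cases d <;> omega
    obtain ⟨rfl, rfl⟩ := hij
    exact ⟨rfl, rfl⟩

lemma sum_range' (m : ℕ) : 2 * ∑ i ∈ Finset.range m, i = m * (m - 1) := by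
  rw [mul_comm, Finset.sum_range_id_mul_two]

/-- full interval -/
lemma ex_full {n m : ℕ} (hm3 : 3 ≤ m) (hn : 3 * (m - 1) ≤ n) {x N : ℕ} (hx : 3 * (m - 1) + x ≤ n)
    (hN : 2 * N = m * (m - 1)) (hg : Nat.gcd (m - 3) n ∣ N + x) : Ex m n := by
  apply ex_interval (M := m - 1) (x := x) (N := N) (Finset.range m) _ (Finset.card_range m) hx
    (by omega) _ hm3 hg
  · intro i hi
    rw [Finset.mem_range] at hi
    omega
  · have := sum_range' m
    omega

/-- punctured interval -/
lemma ex_punct {n m : ℕ} (hm7 : 7 ≤ m) (hn : 3 * m ≤ n) {N : ℕ}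
    (hN : 2 * N + 12 = m * (m + 1)) (hg : Nat.gcd (m - 3) n ∣ N) : Ex m n := by
  have h6 : 6 ∈ Finset.range (m + 1) := by rw [Finset.mem_range]; omega
  apply ex_interval (M := m) (x := 0) (N := N) ((Finset.range (m + 1)).erase 6) _ _ (by omega)
    (by omega) _ (by omega) (by rw [add_zero]; exact hg)
  · intro i hi
    rw [Finset.mem_erase, Finset.mem_range] at hi
    omega
  · rw [Finset.card_erase_of_mem h6, Finset.card_range]; omega
  · have h1 := sum_range' (m + 1)
    have h2 := Finset.add_sum_erase (Finset.range (m + 1)) (fun i => i) h6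
    rw [Nat.add_sub_cancel, mul_comm (m + 1) m] at h1
    omega

/-- coset construction -/
lemma ex_coset {v m : ℕ} (hm : 3 * m = 49 * v + 2) (hm7 : 7 ∣ m - 3) (hm3 : 4 ≤ m) :
    Ex m (49 * v) := by
  classical
  have hv : v % 3 = 1 := by omega
  obtain ⟨c, hc⟩ : ∃ c, 7 * v + 2 = 3 * c := ⟨(7 * v + 2) / 3, by omega⟩
  have hc1 : 1 ≤ c := by omega
  have hmc : m = c + 2 * (7 * v) := by omega
  set n := 49 * v with hn
  set S0 := (Finset.range c).image (fun i => 7 * i) with hS0
  set S1 := (Finset.range (7 * v)).image (fun i => 7 * i + 1) with hS1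
  set S2 := (Finset.range (7 * v)).image (fun i => 7 * i + 2) with hS2
  have m0 : ∀ k, k ∈ S0 → k % 7 = 0 ∧ k / 7 < c := by
    intro k hk
    rw [hS0, Finset.mem_image] at hk
    obtain ⟨i, hi, rfl⟩ := hk
    rw [Finset.mem_range] at hi
    omega
  have m1 : ∀ k, k ∈ S1 → k % 7 = 1 ∧ k / 7 < 7 * v := by
    intro k hk
    rw [hS1, Finset.mem_image] at hk
    obtain ⟨i, hi, rfl⟩ := hk
    rw [Finset.mem_range] at hi
    omega
  have m2 : ∀ k, k ∈ S2 → k % 7 = 2 ∧ k / 7 < 7 * v := by
    intro k hk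
    rw [hS2, Finset.mem_image] at hk
    obtain ⟨i, hi, rfl⟩ := hk
    rw [Finset.mem_range] at hi
    omega
  have d12 : Disjoint S1 S2 := by
    rw [Finset.disjoint_left]
    intro k h1 h2
    have := m1 k h1
    have := m2 k h2
    omega
  have d0 : Disjoint S0 (S1 ∪ S2) := by
    rw [Finset.disjoint_left]
    intro k h1 h2
    have := m0 k h1
    rw [Finset.mem_union] at h2
    rcases h2 with h2 | h2
    · have := m1 k h2; omega
    · have := m2 k h2; omega
  set S := S0 ∪ (S1 ∪ S2) with hS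
  have hmem : ∀ k ∈ S, k < n ∧ (k % 7 = 0 ∧ k / 7 < c ∨ k % 7 = 1 ∨ k % 7 = 2) := by
    intro k hk
    rw [hS, Finset.mem_union, Finset.mem_union] at hk
    rcases hk with hk | hk | hk
    · have := m0 k hk; omega
    · have := m1 k hk; omega
    · have := m2 k hk; omega
  have hcS : S.card = m := by
    rw [hS, Finset.card_union_of_disjoint d0, Finset.card_union_of_disjoint d12, hS0, hS1, hS2,
      Finset.card_image_of_injective _ (fun a b (h : 7 * a = 7 * b) => by omega),
      Finset.card_image_of_injective _ (fun a b (h : 7 * a + 1 = 7 * b + 1) => by omega),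
      Finset.card_image_of_injective _ (fun a b (h : 7 * a + 2 = 7 * b + 2) => by omega),
      Finset.card_range, Finset.card_range]
    omega
  have hsum7 : 7 ∣ ∑ k ∈ S, k := by
    rw [hS, Finset.sum_union d0, Finset.sum_union d12, hS0, hS1, hS2,
      Finset.sum_image (fun a _ b _ (h : 7 * a = 7 * b) => by omega),
      Finset.sum_image (fun a _ b _ (h : 7 * a + 1 = 7 * b + 1) => by omega),
      Finset.sum_image (fun a _ b _ (h : 7 * a + 2 = 7 * b + 2) => by omega),
      Finset.sum_add_distrib, Finset.sum_add_distrib, ← Finset.mul_sum, ← Finset.mul_sum,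
      Finset.sum_const, Finset.sum_const, Finset.card_range, smul_eq_mul, smul_eq_mul]
    refine ⟨∑ i ∈ Finset.range c, i + (∑ i ∈ Finset.range (7 * v), i + v) +
      (∑ i ∈ Finset.range (7 * v), i + 2 * v), ?_⟩
    ring
  have hinj : Set.InjOn (fun k : ℕ => (k : ZMod n)) (S : Set ℕ) := by
    intro i hi j hj hij
    have h1 : (i : ZMod n) = (j : ZMod n) := hij
    have h2 := (hmem i hi).1
    have h3 := (hmem j hj).1
    rw [ZMod.natCast_eq_natCast_iff', Nat.mod_eq_of_lt h2, Nat.mod_eq_of_lt h3] at h1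
    exact h1
  have hgcd : Nat.gcd (m - 3) n ∣ ∑ k ∈ S, k := by
    have h1 : Nat.gcd (m - 3) n ∣ 7 := by
      have h2 := Nat.gcd_dvd_left (m - 3) n
      have h3 := Nat.gcd_dvd_right (m - 3) n
      have h4 : n = 3 * (m - 3) + 7 := by omega
      have h5 : Nat.gcd (m - 3) n ∣ 3 * (m - 3) := Dvd.dvd.mul_left h2 3
      have h6 : Nat.gcd (m - 3) n ∣ n - 3 * (m - 3) := Nat.dvd_sub h3 h5
      rwa [show n - 3 * (m - 3) = 7 by omega] at h6
    exact h1.trans hsum7
  obtain ⟨t, s, hts⟩ := lin_cong (a := ((m - 3 : ℕ) : ℤ)) (n := (n : ℤ))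
    (N := -((∑ k ∈ S, k : ℕ) : ℤ)) (by
    rw [Int.gcd_natCast_natCast, dvd_neg]
    exact Int.natCast_dvd_natCast.2 hgcd)
  have heq : ((m - 3 : ℕ) : ZMod n) * ((t : ℤ) : ZMod n) + ((∑ k ∈ S, k : ℕ) : ZMod n) = 0 := by
    have h1 := congrArg (fun z : ℤ => (z : ZMod n)) hts
    simp only [Int.cast_sub, Int.cast_mul, Int.cast_neg, Int.cast_natCast] at h1
    rw [ZMod.natCast_self, zero_mul] at h1
    linear_combination h1
  rw [Nat.cast_sub (by omega)] at heq
  apply ex_shift (A' := S.image (fun k : ℕ => (k : ZMod n)))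
    (by rw [Finset.card_image_of_injOn hinj, hcS]) _ ((t : ℤ) : ZMod n)
  · rw [Finset.sum_image hinj, ← Nat.cast_sum]
    linear_combination heq
  · intro a ha b hb c' hc' habc
    rw [Finset.mem_image] at ha hb hc'
    obtain ⟨i, hi, rfl⟩ := ha
    obtain ⟨j, hj, rfl⟩ := hb
    obtain ⟨k, hk, rfl⟩ := hc'
    have h1 : ((i + j + k : ℕ) : ZMod n) = 0 := by push_cast; exact habc
    rw [ZMod.natCast_eq_zero_iff] at h1
    obtain ⟨d, hd⟩ := h1
    have hi' := hmem i hi
    have hj' := hmem j hj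
    have hk' := hmem k hk
    have hd3 : d < 3 := by
      by_contra hge
      have : n * 3 ≤ n * d := Nat.mul_le_mul_left n (by omega)
      omega
    have hijk : i = j ∧ j = k := by
      interval_cases d <;> omega
    obtain ⟨rfl, rfl⟩ := hijk
    exact ⟨rfl, rfl⟩

end Pool.Agent.LibWSF
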