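import Pool.Agent.LibWSF.TwoP

/-!
# Necessary conditions
-/

set_option autoImplicit false
set_option linter.unusedSectionVars false
set_option linter.unusedVariables false

namespace Pool.Agent.LibWSF

open Finset
open scoped Pointwise
open Pool.Agent.LibKneser

/-- the total is a sum of three elements only diagonally -/
def TotalOK {G : Type*} [AddCommGroup G] (A : Finset G) : Prop :=
  ∀ a ∈ A, ∀ b ∈ A, ∀ c ∈ A, a + b + c = ∑ x ∈ A, x → a = b ∧ b = c

/-- the arithmetic condition for `n ≤ 3 m - 4` -/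
def Crit (m n : ℕ) : Prop :=
  (m % 2 = 0 ∧ ∃ h, n = 2 * h ∧ m ≤ h) ∨
  (∃ p h r : ℕ, p.Prime ∧ p % 3 = 2 ∧ 5 ≤ p ∧ n = p * h ∧ 3 * (m + r) = (p + 1) * h ∧
    ¬ (p ∣ m - 3 ∧ (r = 1 ∨ r = 3))) ∨
  (m % 2 = 1 ∧ ∃ h r : ℕ, n = 8 * h ∧ m + r = 3 * h ∧ ¬ (m % 8 = 3 ∧ (r = 0 ∨ r = 1))) ∨
  (m % 2 = 1 ∧ ∃ p h r : ℕ, p.Prime ∧ p % 3 = 1 ∧ n = 2 * p * h ∧ 3 * (m + r) = (2 * p + 1) * h ∧
    1 ≤ r ∧ ¬ (p ∣ m - 3 ∧ ((r = 1 ∧ p ≠ 7) ∨ (r = 2 ∧ p = 7))))

/-- exceptional `m` for `n = 3 m - 3` -/
def Bad3 (m : ℕ) : Prop :=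
  m % 4 = 3 ∧ ∃ s, m = 2 * s + 1 ∧ ((∃ j, s = 3 ^ j) ∨ (s.Prime ∧ s % 3 = 1))

/-- exceptional `m` for `n = 3 m - 2` -/
def Bad2 (m : ℕ) : Prop :=
  m % 2 = 1 ∧ 7 ∣ m - 3 ∧ ¬ 49 ∣ 3 * m - 2 ∧ ∀ p : ℕ, p.Prime → p ∣ 3 * m - 2 → p % 3 = 1

/-- the complete arithmetic condition -/
def GoodN (m n : ℕ) : Prop :=
  3 * m ≤ n + 1 ∨ (n + 2 = 3 * m ∧ ¬ Bad2 m) ∨ (n + 3 = 3 * m ∧ ¬ Bad3 m) ∨
    (n + 4 ≤ 3 * m ∧ Crit m n)

lemma mod3_of_primes : ∀ s : ℕ, s ≠ 0 → (∀ p : ℕ, p.Prime → p ∣ s → p % 3 = 1) → s % 3 = 1 := by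
  intro s
  induction s using Nat.strong_induction_on with
  | _ s ih =>
  intro hs hp
  by_cases h1 : s = 1
  · rw [h1]
  · have hpr := Nat.minFac_prime h1
    obtain ⟨t, ht⟩ := Nat.minFac_dvd s
    have ht0 : t ≠ 0 := by rintro rfl; rw [mul_zero] at ht; exact hs ht
    have htlt : t < s := by
      rw [ht]
      have := hpr.two_le
      nlinarith [Nat.pos_of_ne_zero ht0]
    have h2 := ih t htlt ht0 (fun p hpp hpt => hp p hpp (by rw [ht]; exact Dvd.dvd.mul_left hpt _))
    have h3 := hp _ hpr (Nat.minFac_dvd s)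
    rw [ht, Nat.mul_mod, h2, h3]

/-- divisors of a number congruent to two modulo three -/
lemma divisor_types {q : ℕ} (h3 : q % 3 = 2) (h2 : q ≠ 2) :
    (∃ p : ℕ, p.Prime ∧ p % 3 = 2 ∧ 5 ≤ p ∧ p ∣ q) ∨ 8 ∣ q ∨
    (∃ p : ℕ, p.Prime ∧ p % 3 = 1 ∧ 2 * p ∣ q) := by
  by_cases hA : ∃ p : ℕ, p.Prime ∧ p % 3 = 2 ∧ 5 ≤ p ∧ p ∣ q
  · exact Or.inl hA
  · right
    push Not at hA
    have hq0 : q ≠ 0 := by rintro rfl; omega
    obtain ⟨a, s, hs, hqs⟩ := Nat.exists_eq_two_pow_mul_odd hq0
    have hs0 : s ≠ 0 := by rintro rfl; simp at hs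
    have hsp : ∀ p : ℕ, p.Prime → p ∣ s → p % 3 = 1 := by
      intro p hp hps
      have hpq : p ∣ q := by rw [hqs]; exact Dvd.dvd.mul_left hps _
      have hp2 : p ≠ 2 := by
        rintro rfl
        rw [Nat.odd_iff] at hs
        omega
      have hp3 : p % 3 ≠ 0 := by
        intro h
        have : 3 ∣ q := (Nat.dvd_of_mod_eq_zero h).trans hpq
        omega
      by_contra hne
      have hp32 : p % 3 = 2 := by omega
      have hplt : ¬ 5 ≤ p := fun h => hA p hp hp32 h hpq
      have := hp.two_le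
      interval_cases p <;> omega
    have hs3 := mod3_of_primes s hs0 hsp
    have ha : (2 ^ a) % 3 = 2 := by
      rw [hqs, Nat.mul_mod, hs3] at h3
      omega
    rcases Nat.lt_or_ge a 3 with hlt | hge
    · interval_cases a
      · omega
      · right
        have hs1 : s ≠ 1 := by rintro rfl; apply h2; rw [hqs]; norm_num
        refine ⟨s.minFac, Nat.minFac_prime hs1, hsp _ (Nat.minFac_prime hs1) (Nat.minFac_dvd s), ?_⟩
        rw [hqs, pow_one]
        exact Nat.mul_dvd_mul_left 2 (Nat.minFac_dvd s)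
      · omega
    · left
      rw [hqs]
      exact Dvd.dvd.mul_right (pow_dvd_pow 2 hge) _

/-- modulus two never works for odd `m` -/
lemma q_two {m h r : ℕ} (hm : m % 2 = 1) (hmr : m + r = 1 * h) {B : Finset (ZMod 2)}
    (hz : NoZ B) {t : ZMod 2} {R : Multiset (ZMod 2)} (hBc : B.card = 1)
    (hR1 : R.card = r) (hR2 : ∀ x ∈ R, x ∈ B)
    (he : R.sum + 3 * t = h * ∑ x ∈ B, x + m * t) : False := by
  have hB : ∀ x ∈ B, x = 1 := by
    intro x hx
    rcases z2_cases x with h | h
    · exfalso
      subst h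
      exact hz 0 hx 0 hx 0 hx (by decide)
    · exact h
  have hRs : R.sum = r := by
    have : R = Multiset.replicate r 1 := by
      rw [Multiset.eq_replicate]
      exact ⟨hR1, fun x hx => hB x (hR2 x hx)⟩
    rw [this, Multiset.sum_replicate, nsmul_eq_mul, mul_one]
  have hBs : ∑ x ∈ B, x = 1 := by
    obtain ⟨x, rfl⟩ := Finset.card_eq_one.1 hBc
    rw [Finset.sum_singleton]
    exact hB x (Finset.mem_singleton_self x)
  rw [hRs, hBs, mul_one] at he
  have h1 : (h : ZMod 2) = m + r := by
    rw [one_mul] at hmr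
    rw [← hmr]; push_cast; rfl
  have a2 : ((m : ℕ) : ZMod 2) = 1 := by
    have : ((m : ℕ) : ZMod 2) = ((1 : ℕ) : ZMod 2) := by
      rw [ZMod.natCast_eq_natCast_iff']; omega
    rw [this]; norm_num
  rw [h1, a2] at he
  generalize (r : ZMod 2) = z at he
  revert he
  revert t z
  decide

/-- prime modulus -/
lemma q_prime {p : ℕ} [hp : Fact p.Prime] (hp3 : p % 3 = 2) (hp5 : 5 ≤ p) {m h r : ℕ}
    {B : Finset (ZMod p)} (hBc : 3 * B.card = p + 1)
    (hz : NoZ B) {t : ZMod p} {R : Multiset (ZMod p)}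
    (hR1 : R.card = r) (hR2 : ∀ x ∈ R, x ∈ B) (hm3 : 3 ≤ m) (hpm : p ∣ m - 3)
    (he : R.sum + 3 * t = h * ∑ x ∈ B, x + m * t) (hr : r = 1 ∨ r = 3) : False := by
  rw [typeI_prime hp3 hp5 hz hBc, natCast_of_dvd_sub hm3 hpm, mul_zero, zero_add] at he
  have hRs : R.sum = 0 := by
    have : R.sum + 3 * t = 0 + 3 * t := by rw [he, zero_add]
    exact add_right_cancel this
  rcases hr with rfl | rfl
  · obtain ⟨x, rfl⟩ := Multiset.card_eq_one.1 hR1
    rw [Multiset.sum_singleton] at hRs
    subst hRs
    have h0 := hR2 0 (by simp)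
    exact hz 0 h0 0 h0 0 h0 (by simp)
  · obtain ⟨x, y, z, rfl⟩ := Multiset.card_eq_three.1 hR1
    apply hz x (hR2 x (by simp)) y (hR2 y (by simp)) z (hR2 z (by simp))
    rw [← hRs]
    simp [add_assoc]

/-- modulus eight -/
lemma q_eight {m h r : ℕ} (hmr : m + r = 3 * h) {B : Finset (ZMod 8)} (hBc : B.card = 3)
    (hz : NoZ B) (hf : Full B) {t : ZMod 8} {R : Multiset (ZMod 8)}
    (hR1 : R.card = r) (hR2 : ∀ x ∈ R, x ∈ B) (hm8 : m % 8 = 3)
    (he : R.sum + 3 * t = h * ∑ x ∈ B, x + m * t) (hr : r = 0 ∨ r = 1) : False := by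
  have hm : (m : ZMod 8) = 3 := by
    have : ((m : ℕ) : ZMod 8) = ((3 : ℕ) : ZMod 8) := by
      rw [ZMod.natCast_eq_natCast_iff']; omega
    rw [this]; norm_num
  have hex : ∃ x ∈ B, x + x + x + x = 0 := by
    obtain ⟨a, ha, b, hb, c, hc, habc⟩ := hf 2 (by decide)
    by_contra hcon
    push Not at hcon
    have h1 := hcon a ha
    have h2 := hcon b hb
    have h3 := hcon c hc
    clear hcon ha hb hc he hm hR2 hR1 hz hf hBc
    revert a b c
    decide
  obtain ⟨s1, s2⟩ := typeI_eight B hBc hz hex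
  rw [hm] at he
  have he' : R.sum = h * ∑ x ∈ B, x := add_right_cancel he
  rcases hr with rfl | rfl
  · have hR0 : R = 0 := Multiset.card_eq_zero.1 hR1
    have hh : (h : ZMod 8) = 1 := by
      have : ((h : ℕ) : ZMod 8) = ((1 : ℕ) : ZMod 8) := by
        rw [ZMod.natCast_eq_natCast_iff']; omega
      rw [this]; norm_num
    rw [hR0, Multiset.sum_zero, hh, one_mul] at he'
    exact s1 he'.symm
  · obtain ⟨x, rfl⟩ := Multiset.card_eq_one.1 hR1
    have hh : (h : ZMod 8) = 4 := by
      have : ((h : ℕ) : ZMod 8) = ((4 : ℕ) : ZMod 8) := by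
        rw [ZMod.natCast_eq_natCast_iff']; omega
      rw [this]; norm_num
    rw [Multiset.sum_singleton, hh, s2] at he'
    subst he'
    have h0 := hR2 0 (by simp)
    exact hz 0 h0 0 h0 0 h0 (by decide)

/-- the arithmetic condition from case I -/
theorem crit_of_caseI {m n : ℕ} (hm : 4 ≤ m) (hn0 : 0 < n) (hn : n + 4 ≤ 3 * m)
    {q b h r : ℕ} (hq : NeZero q) {B : Finset (ZMod q)} {t : ZMod q} {R : Multiset (ZMod q)}
    (e1 : n = q * h) (e2 : q + 1 = 3 * b) (e3 : m + r = b * h) (e4 : B.card = b) (e5 : NoZ B)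
    (e6 : Full B) (e7 : R.card = r) (e8 : ∀ x ∈ R, x ∈ B)
    (e9 : R.sum + 3 * t = h * ∑ x ∈ B, x + m * t) : Crit m n := by
  have e10 : 3 * (m + r) = (q + 1) * h := by rw [e3, e2]; ring
  have e10' : 3 * (m + r) = n + h := by rw [e10, e1]; ring
  have hq2 : 2 ≤ q := by omega
  by_cases hee : m % 2 = 0 ∧ n % 2 = 0
  · left
    refine ⟨hee.1, n / 2, by omega, ?_⟩
    have : 2 * h ≤ n := by rw [e1]; nlinarith
    omega
  · right
    have hqne : q ≠ 2 := by
      rintro rfl
      have hb : b = 1 := by omega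
      subst hb
      have : m % 2 = 1 := by omega
      exact q_two this e3 e5 e4 e7 e8 e9
    have hq3 : q % 3 = 2 := by omega
    rcases divisor_types hq3 hqne with ⟨p, hp, hp3, hp5, hpq⟩ | h8 | ⟨p, hp, hp3, hpq⟩
    · left
      obtain ⟨c, rfl⟩ := hpq
      have hc3 : c % 3 = 1 := by
        rw [Nat.mul_mod, hp3] at hq3
        have : c % 3 < 3 := Nat.mod_lt _ (by norm_num)
        interval_cases h : c % 3 <;> omega
      by_cases hc1 : c = 1
      · subst hc1
        have hfact : Fact p.Prime := ⟨hp⟩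
        refine ⟨p, h, r, hp, hp3, hp5, by rw [e1]; ring, by rw [e10]; ring, ?_⟩
        rintro ⟨hpm, hr⟩
        revert B t R
        rw [mul_one] at e2 ⊢
        intro B t R e4 e5 e6 e7 e8 e9
        exact q_prime hp3 hp5 (by rw [e4]; omega) e5 e7 e8 (by omega) hpm e9 hr
      · obtain ⟨d, rfl⟩ : ∃ d, c = 3 * d + 1 := ⟨c / 3, by omega⟩
        have hd : 1 ≤ d := by omega
        have hdh : h ≤ d * h := by nlinarith
        refine ⟨p, (3 * d + 1) * h, r + d * h, hp, hp3, hp5, by rw [e1]; ring, ?_, ?_⟩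
        · have : 3 * (m + (r + d * h)) = 3 * (m + r) + 3 * (d * h) := by ring
          rw [this, e10]; ring
        · rintro ⟨_, hr⟩
          omega
    · -- 8 ∣ q
      have hm1 : m % 2 = 1 := by
        have : n % 2 = 0 := by
          rw [e1]; obtain ⟨c, rfl⟩ := h8
          rw [show 8 * c * h = 2 * (4 * c * h) by ring]; omega
        omega
      right; left
      refine ⟨hm1, ?_⟩
      obtain ⟨c, rfl⟩ := h8
      have hc3 : c % 3 = 1 := by omega
      by_cases hc1 : c = 1
      · subst hc1
        have hb : b = 3 := by omega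
        subst hb
        refine ⟨h, r, by rw [e1], e3, ?_⟩
        rintro ⟨hm8, hr⟩
        exact q_eight e3 e4 e5 e6 e7 e8 hm8 e9 hr
      · obtain ⟨d, rfl⟩ : ∃ d, c = 3 * d + 1 := ⟨c / 3, by omega⟩
        have hd : 1 ≤ d := by omega
        have hdh : h ≤ d * h := by nlinarith
        refine ⟨(3 * d + 1) * h, r + d * h, by rw [e1]; ring, ?_, ?_⟩
        · have h1 : 3 * (m + (r + d * h)) = 3 * (m + r) + 3 * (d * h) := by ring
          have h2 : 3 * (m + (r + d * h)) = 3 * (3 * ((3 * d + 1) * h)) := by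
            rw [h1, e10]; ring
          omega
        · rintro ⟨_, hr⟩
          omega
    · -- 2 p ∣ q
      have hm1 : m % 2 = 1 := by
        have : n % 2 = 0 := by
          rw [e1]; obtain ⟨c, rfl⟩ := hpq
          rw [show 2 * p * c * h = 2 * (p * c * h) by ring]; omega
        omega
      right; right
      refine ⟨hm1, ?_⟩
      obtain ⟨c, rfl⟩ := hpq
      have hc3 : c % 3 = 1 := by
        have h2 : (2 * p) % 3 = 2 := by omega
        rw [Nat.mul_mod, h2] at hq3
        have : c % 3 < 3 := Nat.mod_lt _ (by norm_num)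
        interval_cases h : c % 3 <;> omega
      have hp2 : p % 2 = 1 := by
        rcases hp.eq_two_or_odd with h | h
        · subst h; omega
        · exact h
      by_cases hc1 : c = 1
      · subst hc1
        have hfact : Fact p.Prime := ⟨hp⟩
        have e10'' : 3 * (m + r) = (2 * p + 1) * h := by rw [e10]; ring
        have hpar : (2 * p + 1) * h % 2 = h % 2 := by
          rw [show (2 * p + 1) * h = h + 2 * (p * h) by ring]; omega
        refine ⟨p, h, r, hp, hp3, by rw [e1]; ring, e10'', ?_, ?_⟩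
        · by_contra hr0
          have hr0 : r = 0 := by omega
          subst hr0
          have hR0 : R = 0 := Multiset.card_eq_zero.1 e7
          rw [hR0, Multiset.sum_zero, zero_add] at e9
          clear e8 e7 hR0
          revert B t
          rw [mul_one] at e2 ⊢
          intro B t e4 e5 e6 e9
          exact twoP_zero hp3 hp2 (by rw [e4]; omega) e5 e6 hm1 (by omega) e9
        · rintro ⟨hpm, hr⟩
          revert B t R
          rw [mul_one] at e2 ⊢
          intro B t R e4 e5 e6 e7 e8 e9
          rcases hr with ⟨hr, hp7⟩ | ⟨hr, hp7⟩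
          · subst hr
            obtain ⟨x, rfl⟩ := Multiset.card_eq_one.1 e7
            rw [Multiset.sum_singleton] at e9
            exact hp7 (twoP_one hp3 hp2 (by rw [e4]; omega) e5 e6 hm1 (by omega) (by omega) hpm e10''
              (e8 x (by simp)) e9)
          · subst hr hp7
            obtain ⟨x, y, rfl⟩ := Multiset.card_eq_two.1 e7
            have hxy : ({x, y} : Multiset (ZMod (2 * 7))).sum = x + y := by simp
            rw [hxy] at e9
            exact twoP_two (by rw [e4]; omega) e5 e6 hm1 (by omega) (by omega) hpm e10''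
              (e8 x (by simp)) (e8 y (by simp)) e9
      · obtain ⟨d, rfl⟩ : ∃ d, c = 3 * d + 1 := ⟨c / 3, by omega⟩
        have hd : 1 ≤ d := by omega
        have hdh : h ≤ d * h := by nlinarith
        refine ⟨p, (3 * d + 1) * h, r + d * h, hp, hp3, by rw [e1]; ring, ?_, ?_, ?_⟩
        · have : 3 * (m + (r + d * h)) = 3 * (m + r) + 3 * (d * h) := by ring
          rw [this, e10]; ring
        · omega
        · rintro ⟨_, hr⟩
          omega

/-- at most three solutions of `3 y = 0` in a cyclic group -/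
lemma three_sol {n : ℕ} [NeZero n] {S : Finset (ZMod n)} (hS : ∀ x ∈ S, x + x + x = 0) :
    S.card ≤ 3 := by
  have h := IsAddCyclic.card_nsmul_eq_zero_le (α := ZMod n) (n := 3) (by norm_num)
  refine le_trans (Finset.card_le_card ?_) h
  intro x hx
  rw [Finset.mem_filter]
  refine ⟨Finset.mem_univ _, ?_⟩
  rw [← hS x hx, show (3 : ℕ) = 1 + 1 + 1 from rfl, add_nsmul, add_nsmul, one_nsmul]

/-- the number of torsion elements is one or two -/
lemma tor_cases {n : ℕ} [NeZero n] {A : Finset (ZMod n)} (hD : OnlyDiag A) (h0 : (0 : ZMod n) ∈ A) :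
    tor A = {0} ∨ ∃ g : ZMod n, g ≠ 0 ∧ tor A = {0, g} := by
  have h0T : (0 : ZMod n) ∈ tor A := mem_tor.2 ⟨h0, by simp⟩
  by_cases h1 : tor A = {0}
  · exact Or.inl h1
  · right
    have hex : ∃ g ∈ tor A, g ≠ 0 := by
      by_contra hcon
      push Not at hcon
      apply h1
      ext x
      rw [Finset.mem_singleton]
      exact ⟨fun hx => hcon x hx, fun hx => by rw [hx]; exact h0T⟩
    obtain ⟨g, hg, hg0⟩ := hex
    refine ⟨g, hg0, ?_⟩
    have hg3 := (mem_tor.1 hg).2
    have hgA := (mem_tor.1 hg).1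
    have hneg : -g ∉ A := by
      intro h
      have := (hD 0 h0 g hgA (-g) h (by abel)).1
      exact hg0 this.symm
    have hgg : -g ≠ g := fun h => hneg (by rw [h]; exact hgA)
    ext x
    rw [Finset.mem_insert, Finset.mem_singleton]
    constructor
    · intro hx
      by_contra hcon
      push Not at hcon
      obtain ⟨hx0, hxg⟩ := hcon
      have hxn : x ≠ -g := fun h => hneg (by rw [← h]; exact (mem_tor.1 hx).1)
      have hc : ({0, g, -g, x} : Finset (ZMod n)).card = 4 := by
        rw [Finset.card_insert_of_notMem, Finset.card_insert_of_notMem, Finset.card_pair (Ne.symm hxn)]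
        · simp only [Finset.mem_insert, Finset.mem_singleton, not_or]
          exact ⟨Ne.symm hgg, Ne.symm hxg⟩
        · simp only [Finset.mem_insert, Finset.mem_singleton, not_or]
          exact ⟨Ne.symm hg0, fun h => hg0 (by rw [← neg_neg g, ← h, neg_zero]), Ne.symm hx0⟩
      have h4 := three_sol (S := {0, g, -g, x}) (by
        intro y hy
        simp only [Finset.mem_insert, Finset.mem_singleton] at hy
        rcases hy with rfl | rfl | rfl | rfl
        · simp
        · exact hg3
        · rw [show -g + -g + -g = -(g + g + g) by abel, hg3, neg_zero]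
        · exact (mem_tor.1 hx).2)
      omega
    · rintro (rfl | rfl)
      · exact h0T
      · exact hg

/-- the structure when the total is three times an element -/
lemma caseII {n : ℕ} [NeZero n] {A : Finset (ZMod n)} (hOK : TotalOK A)
    (h : ∃ a ∈ A, ∃ b ∈ A, ∃ c ∈ A, a + b + c = ∑ x ∈ A, x) :
    ∃ (x : ZMod n) (A' : Finset (ZMod n)), A'.card = A.card ∧ OnlyDiag A' ∧ 0 ∈ A' ∧
      ∑ y ∈ A', y + A.card * x = 3 * x := by
  obtain ⟨a, ha, b, hb, c, hc, habc⟩ := h
  obtain ⟨h1, h2⟩ := hOK a ha b hb c hc habc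
  subst h1 h2
  refine ⟨a, A.image (fun y => y - a), Finset.card_image_of_injective _ sub_left_injective, ?_, ?_, ?_⟩
  · intro x hx y hy z hz hxyz
    rw [Finset.mem_image] at hx hy hz
    obtain ⟨x', hx', rfl⟩ := hx
    obtain ⟨y', hy', rfl⟩ := hy
    obtain ⟨z', hz', rfl⟩ := hz
    have h3 : x' + y' + z' = ∑ x ∈ A, x := by
      rw [← habc]
      have : x' + y' + z' = (x' - a + (y' - a) + (z' - a)) + (a + a + a) := by abel
      rw [this, hxyz, zero_add]
    obtain ⟨h4, h5⟩ := hOK x' hx' y' hy' z' hz' h3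
    rw [h4, h5]; exact ⟨rfl, rfl⟩
  · rw [Finset.mem_image]
    exact ⟨a, ha, sub_self a⟩
  · rw [Finset.sum_image (fun x _ y _ h => sub_left_injective h), Finset.sum_sub_distrib,
      Finset.sum_const, nsmul_eq_mul, ← habc]
    ring

lemma exists_surj {n p : ℕ} [NeZero n] (h : p ∣ n) :
    ∃ φ : ZMod n →+* ZMod p, Function.Surjective φ :=
  ⟨ZMod.castHom h (ZMod p), ZMod.castHom_surjective h⟩

/-- necessity -/
theorem necessity {m n : ℕ} (hm : 4 ≤ m) (hn0 : 0 < n)
    (h : ∃ A : Finset (ZMod n), A.card = m ∧ TotalOK A) : GoodN m n := by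
  obtain ⟨A, hAc, hOK⟩ := h
  have hNZ : NeZero n := ⟨hn0.ne'⟩
  unfold GoodN
  by_cases hbig : 3 * m ≤ n + 1
  · exact Or.inl hbig
  · right
    have hne : A.Nonempty := by rw [← Finset.card_pos]; omega
    by_cases hex : ∃ a ∈ A, ∃ b ∈ A, ∃ c ∈ A, a + b + c = ∑ x ∈ A, x
    · -- case II
      obtain ⟨x, A', c1, c2, c3, c4⟩ := caseII hOK hex
      rcases tor_cases c2 c3 with hT | ⟨g, hg, hT⟩
      · have h1 := three_one c2 (by rw [hT]; exact Finset.card_singleton _)
        rw [ZMod.card, c1, hAc] at h1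
        left
        refine ⟨by omega, ?_⟩
        rintro ⟨b1, b2, b3, b4⟩
        have h7n : 7 ∣ n := by omega
        obtain ⟨φ, hφ⟩ := exists_surj h7n
        have h2 := typeII_seven n (ZMod n) (φ : ZMod n →+ ZMod 7) A' (ZMod.card n) hφ (by
          rw [show n = 3 * m - 2 by omega]; exact b3) c2 hT (by rw [c1]; omega)
        apply h2
        have h3 := congrArg φ c4
        rw [hAc, map_add, map_mul, map_mul, map_natCast, natCast_of_dvd_sub (by omega) b2,
          map_sum] at h3
        have h4 : φ 3 = 3 := map_ofNat _ 3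
        rw [h4] at h3
        have h5 : ∑ y ∈ A', φ y + 3 * φ x = 0 + 3 * φ x := by rw [h3, zero_add]
        exact add_right_cancel h5
      · have hgT : g ∈ tor A' := by rw [hT]; simp
        have hg3 := (mem_tor.1 hgT).2
        have h1 := three_two c2 (by rw [hT]; exact Finset.card_pair (Ne.symm hg))
        rw [ZMod.card, c1, hAc] at h1
        -- 3 ∣ n
        have h3n : 3 ∣ n := by
          by_contra hcon
          have hcop : Nat.Coprime n 3 := by
            rw [Nat.coprime_comm, Nat.Prime.coprime_iff_not_dvd Nat.prime_three]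
            exact hcon
          apply hg
          have hu : IsUnit ((3 : ℕ) : ZMod n) := by
            rw [ZMod.isUnit_iff_coprime]; exact hcop.symm
          have h5 : ((3 : ℕ) : ZMod n) * g = 0 := by
            rw [← hg3]; push_cast; ring
          exact (hu.mul_right_eq_zero).1 h5
        right; left
        refine ⟨by omega, ?_⟩
        rintro ⟨b1, s, b2, b3⟩
        have hs0 : s ≠ 0 := by omega
        have h2n : 2 ∣ n := by omega
        obtain ⟨φ, hφ⟩ := exists_surj h2n
        have h2 := typeIII_two n (ZMod n) (φ : ZMod n →+ ZMod 2) A' g (ZMod.card n) hφ (by omega) (by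
          intro q hq hq3
          by_contra hq2
          obtain ⟨q', rfl⟩ : ∃ q', q = 2 * q' := ⟨q / 2, by omega⟩
          have hq' : q' ∣ 3 * s := by
            have h6 : 2 * q' ∣ 2 * (3 * s) := by
              rw [show 2 * (3 * s) = n by omega]; exact hq
            exact Nat.dvd_of_mul_dvd_mul_left (by norm_num) h6
          have hcop : Nat.Coprime q' 3 := by
            rw [Nat.coprime_comm, Nat.Prime.coprime_iff_not_dvd Nat.prime_three]
            omega
          have hqs : q' ∣ s := hcop.dvd_of_dvd_mul_left hq'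
          rcases b3 with ⟨j, rfl⟩ | ⟨hsp, hs3⟩
          · obtain ⟨i, _, rfl⟩ := (Nat.dvd_prime_pow Nat.prime_three).1 hqs
            rcases Nat.eq_zero_or_pos i with rfl | hi
            · omega
            · have : 3 ∣ 3 ^ i := dvd_pow_self 3 hi.ne'
              omega
          · rcases (Nat.dvd_prime hsp).1 hqs with h | h
            · omega
            · omega) c2 hg hT (by rw [c1]; omega)
        have h3 := congrArg φ c4
        rw [hAc, map_add, map_mul, map_mul, map_natCast, map_sum] at h3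
        have h4 : φ 3 = 3 := map_ofNat _ 3
        have h2' : ∑ y ∈ A', φ y = 1 := h2
        have a2 : ((m : ℕ) : ZMod 2) = 1 := by
          have : ((m : ℕ) : ZMod 2) = ((1 : ℕ) : ZMod 2) := by
            rw [ZMod.natCast_eq_natCast_iff']; omega
          rw [this]; norm_num
        rw [h4, a2, h2'] at h3
        generalize φ x = y at h3
        revert h3
        revert y
        decide
    · -- case I
      push Not at hex
      obtain ⟨q, b, h, r, hq, B, t, R, e1, e2, e3, e4, e5, e6, e7, e8, e9⟩ :=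
        caseI hne (by rw [hAc]; omega) hex
      rw [hAc] at e3 e9
      by_cases hn4 : n + 4 ≤ 3 * m
      · right; right
        exact ⟨hn4, crit_of_caseI hm hn0 hn4 hq e1 e2 e3 e4 e5 e6 e7 e8 e9⟩
      · have hq3 : q % 3 = 2 := by omega
        have e10 : 3 * (m + r) = (q + 1) * h := by rw [e3, e2]; ring
        have e10' : 3 * (m + r) = n + h := by rw [e10, e1]; ring
        by_cases hn2 : n + 2 = 3 * m
        · left
          refine ⟨hn2, ?_⟩
          rintro ⟨b1, b2, b3, b4⟩
          have := mod3_of_primes q hq.out (fun p hp hpq => b4 p hp (by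
            rw [show 3 * m - 2 = n by omega, e1]; exact Dvd.dvd.mul_right hpq _))
          omega
        · right; left
          refine ⟨by omega, ?_⟩
          rintro ⟨b1, s, b2, b3⟩
          have hs0 : s ≠ 0 := by omega
          have hqn : q ∣ 6 * s := by
            rw [show 6 * s = n by omega, e1]; exact Nat.dvd_mul_right _ _
          have hcop : Nat.Coprime q 3 := by
            rw [Nat.coprime_comm, Nat.Prime.coprime_iff_not_dvd Nat.prime_three]
            omega
          have hq2s : q ∣ 2 * s := by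
            rw [show 6 * s = 3 * (2 * s) by ring] at hqn
            exact hcop.dvd_of_dvd_mul_left hqn
          have hqcase : q = 2 ∨ (q = 2 * s ∧ s.Prime ∧ s % 3 = 1) := by
            rcases b3 with ⟨j, rfl⟩ | ⟨hsp, hs3⟩
            · left
              have hcop' : Nat.Coprime q (3 ^ j) := Nat.Coprime.pow_right j hcop
              have := hcop'.dvd_of_dvd_mul_right hq2s
              have := Nat.le_of_dvd (by norm_num) this
              omega
            · by_cases hsq : s ∣ q
              · obtain ⟨c, rfl⟩ := hsq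
                have hc2 : c ∣ 2 := by
                  rw [mul_comm 2 s] at hq2s
                  exact Nat.dvd_of_mul_dvd_mul_left (Nat.pos_of_ne_zero hs0) hq2s
                have hcle := Nat.le_of_dvd (by norm_num) hc2
                have hc0 : c ≠ 0 := by rintro rfl; simp at hc2
                have : c = 1 ∨ c = 2 := by omega
                rcases this with rfl | rfl
                · omega
                · right; exact ⟨by ring, hsp, hs3⟩
              · left
                have hcop' : Nat.Coprime q s := by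
                  rw [Nat.coprime_comm, Nat.Prime.coprime_iff_not_dvd hsp]; exact hsq
                have := hcop'.dvd_of_dvd_mul_right hq2s
                have := Nat.le_of_dvd (by norm_num) this
                omega
          rcases hqcase with rfl | ⟨rfl, hsp, hs3⟩
          · have hb : b = 1 := by omega
            subst hb
            exact q_two (by omega) e3 e5 e4 e7 e8 e9
          · have hfact : Fact s.Prime := ⟨hsp⟩
            have hh : h = 3 := by
              have : 2 * s * h = 2 * s * 3 := by rw [← e1]; omega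
              exact Nat.eq_of_mul_eq_mul_left (by omega) this
            have hr : r = 0 := by omega
            subst hr hh
            have hR0 : R = 0 := Multiset.card_eq_zero.1 e7
            rw [hR0, Multiset.sum_zero, zero_add] at e9
            exact twoP_zero hs3 (by omega) (by rw [e4]; omega) e5 e6 (by omega) (by norm_num) e9

end Pool.Agent.LibWSF
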