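import Pool.Agent.LibWSF.Bounds

/-!
# Quasi-periodic sets with only diagonal zero sum triples
-/

set_option autoImplicit false
set_option linter.unusedSectionVars false
set_option linter.unusedVariables false

namespace Pool.Agent.LibWSF

open Finset
open scoped Pointwise
open Pool.Agent.LibKneser

variable {G : Type*} [AddCommGroup G] [Fintype G] [DecidableEq G]

noncomputable instance instFintypeSub (H : AddSubgroup G) : Fintype H := Fintype.ofFinite H
noncomputable instance instFintypeQuot (H : AddSubgroup G) : Fintype (G ⧸ H) := Fintype.ofFinite _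
noncomputable instance instDecEqQuot (H : AddSubgroup G) : DecidableEq (G ⧸ H) :=
  Classical.decEq _

lemma card_sub (H : AddSubgroup G) : Fintype.card H = (fs H).card := by
  classical
  rw [← Finset.card_univ, ← Finset.card_map (Function.Embedding.subtype (fun x : G => x ∈ H))]
  congr 1
  ext x
  simp

lemma card_quot (H : AddSubgroup G) : Fintype.card G = Fintype.card (G ⧸ H) * (fs H).card := by
  have := AddSubgroup.card_eq_card_quotient_mul_card_addSubgroup H
  rw [Nat.card_eq_fintype_card, Nat.card_eq_fintype_card, Nat.card_eq_fintype_card, card_sub] at this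
  exact this

lemma two_le_fs {H : AddSubgroup G} (hH : H ≠ ⊥) : 2 ≤ (fs H).card := by
  obtain ⟨x, hx0⟩ := AddSubgroup.ne_bot_iff_exists_ne_zero.1 hH
  have hx := x.2
  have hsub : ({0, (x : G)} : Finset G) ⊆ fs H := by
    intro z hz
    rw [Finset.mem_insert, Finset.mem_singleton] at hz
    rw [mem_fs]
    rcases hz with rfl | rfl
    · exact H.zero_mem
    · exact hx
  have hc : ({0, (x : G)} : Finset G).card = 2 := by
    apply Finset.card_pair
    intro h
    apply hx0
    ext
    exact h.symm
  rw [← hc]; exact Finset.card_le_card hsub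

/-- the trace of `A - y` on `H` as a subset of `H` -/
noncomputable def sub (A : Finset G) (H : AddSubgroup G) (y : G) : Finset H := by
  classical exact Finset.univ.filter (fun t : H => y + (t : G) ∈ A)

lemma mem_sub {A : Finset G} {H : AddSubgroup G} {y : G} {t : H} :
    t ∈ sub A H y ↔ y + (t : G) ∈ A := by
  classical simp [sub]

lemma card_sub_eq (A : Finset G) (H : AddSubgroup G) (y : G) :
    (sub A H y).card = (part A H y).card := by
  classical
  rw [← Finset.card_image_of_injective (sub A H y)
    (f := fun t : H => y + (t : G)) (by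
      intro a b h
      exact Subtype.ext (add_left_cancel h))]
  congr 1
  ext x
  rw [Finset.mem_image, mem_part]
  constructor
  · rintro ⟨t, ht, rfl⟩
    exact ⟨mem_sub.1 ht, by rw [show y + (t : G) - y = t by abel]; exact t.2⟩
  · rintro ⟨h1, h2⟩
    refine ⟨⟨x - y, h2⟩, ?_, by simp⟩
    rw [mem_sub]
    simpa using h1

lemma onlyDiag_sub {A : Finset G} (hD : OnlyDiag A) (H : AddSubgroup G) {y : G}
    (hy : y + y + y = 0) : OnlyDiag (sub A H y) := by
  intro a ha b hb c hc habc
  rw [mem_sub] at ha hb hc
  have h0 : (y + (a : G)) + (y + (b : G)) + (y + (c : G)) = 0 := by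
    have : (a : G) + b + c = 0 := by
      have := congrArg (fun t : H => (t : G)) habc
      simpa using this
    calc (y + (a : G)) + (y + (b : G)) + (y + (c : G)) = (y + y + y) + ((a : G) + b + c) := by abel
      _ = 0 := by rw [hy, this, add_zero]
  obtain ⟨e1, e2⟩ := hD _ ha _ hb _ hc h0
  exact ⟨Subtype.ext (add_left_cancel e1), Subtype.ext (add_left_cancel e2)⟩

/-- bound for the part containing a single torsion element -/
lemma part_bound_one {A : Finset G} (hD : OnlyDiag A) {H : AddSubgroup G} {y : G} (hy : y ∈ tor A)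
    (h1 : ∀ z ∈ tor A, z - y ∈ H → z = y) :
    3 * (part A H y).card ≤ (fs H).card + 2 := by
  rw [mem_tor] at hy
  have hD' := onlyDiag_sub hD H hy.2
  have ht : tor (sub A H y) = {0} := by
    ext t
    rw [mem_tor, mem_sub, Finset.mem_singleton]
    constructor
    · rintro ⟨ha, hb⟩
      have hb' : (t : G) + t + t = 0 := by
        have := congrArg (fun t : H => (t : G)) hb
        simpa using this
      have h2 : y + (t : G) ∈ tor A := by
        rw [mem_tor]
        refine ⟨ha, ?_⟩
        calc y + (t : G) + (y + t) + (y + t) = (y + y + y) + (t + t + t) := by abel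
          _ = 0 := by rw [hy.2, hb', add_zero]
      have h3 := h1 _ h2 (by rw [show y + (t : G) - y = t by abel]; exact t.2)
      apply Subtype.ext
      have : y + (t : G) = y + 0 := by rw [add_zero]; exact h3
      exact add_left_cancel this
    · rintro rfl
      refine ⟨by simpa using hy.1, by simp⟩
  have := three_one hD' (by rw [ht]; exact Finset.card_singleton _)
  rw [card_sub_eq, card_sub] at this
  exact this

/-- bound for the part containing two torsion elements -/
lemma part_bound_two {A : Finset G} (hD : OnlyDiag A) {H : AddSubgroup G} {g : G}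
    (hg : g ≠ 0) (hT : tor A = {0, g}) (hgH : g ∈ H) :
    3 * (part A H 0).card ≤ (fs H).card + 3 := by
  have hD' := onlyDiag_sub hD H (y := 0) (by simp)
  have hgT : g ∈ tor A := by rw [hT]; simp
  have h0T : (0 : G) ∈ tor A := by rw [hT]; simp
  rw [mem_tor] at hgT h0T
  have ht : tor (sub A H 0) = {0, ⟨g, hgH⟩} := by
    ext t
    rw [mem_tor, mem_sub, Finset.mem_insert, Finset.mem_singleton, zero_add]
    constructor
    · rintro ⟨ha, hb⟩
      have hb' : (t : G) + t + t = 0 := by
        have := congrArg (fun t : H => (t : G)) hb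
        simpa using this
      have h2 : (t : G) ∈ tor A := mem_tor.2 ⟨ha, hb'⟩
      rw [hT, Finset.mem_insert, Finset.mem_singleton] at h2
      rcases h2 with h | h
      · left; exact Subtype.ext h
      · right; exact Subtype.ext h
    · rintro (rfl | rfl)
      · exact ⟨h0T.1, by simp⟩
      · exact ⟨hgT.1, Subtype.ext hgT.2⟩
  have := three_two hD' (by
    rw [ht]; apply Finset.card_pair
    intro h
    exact hg (congrArg Subtype.val h).symm)
  rw [card_sub_eq, card_sub] at this
  exact this

/-- common part: triples over distinct cosets -/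
lemma distinct_cosets {A : Finset G} (hD : OnlyDiag A) {H : AddSubgroup G}
    (hs : (A + fs H).card + 1 ≤ A.card + (fs H).card) {x y z : G} (hx : x ∈ A) (hy : y ∈ A)
    (hz : z ∈ A) (hxyz : x + y + z ∈ H) : x - y ∈ H := by
  by_contra hxy
  have h1 := holes_two (H := H) hx hy hxy
  have h2 : (part A H x).card + (part A H y).card ≤ (fs H).card := by
    apply pigeon (c := -z)
    · have := H.neg_mem hxyz
      rwa [show -(x + y + z) = -z - (x + y) by abel] at this
    · intro a ha b hb hab
      have h0 : a + b + z = 0 := by rw [hab]; abel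
      have := (hD a (mem_part.1 ha).1 b (mem_part.1 hb).1 z hz h0).1
      subst this
      apply hxy
      have := H.sub_mem (mem_part.1 hb).2 (mem_part.1 ha).2
      rwa [show a - y - (a - x) = x - y by abel] at this
  omega

/-- a coset `x + H` other than `H` with `3x ∈ H` has a small part unless it meets the torsion -/
lemma same_coset {A : Finset G} (hD : OnlyDiag A) {H : AddSubgroup G} {x : G} (hx : x ∈ A)
    (h3 : x + x + x ∈ H) (hT : ∀ t ∈ tor A, t - x ∉ H) :
    2 * (part A H x).card ≤ (fs H).card := by
  have h2 : (part A H x).card + (part A H x).card ≤ (fs H).card := by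
    apply pigeon (c := -x)
    · have := H.neg_mem h3
      rwa [show -(x + x + x) = -x - (x + x) by abel] at this
    · intro a ha b hb hab
      have h0 : a + b + x = 0 := by rw [hab]; abel
      obtain ⟨e1, e2⟩ := hD a (mem_part.1 ha).1 b (mem_part.1 hb).1 x hx h0
      subst e1 e2
      exact hT _ (mem_tor.2 ⟨hx, h0⟩) (by rw [sub_self]; exact H.zero_mem)
  omega

theorem q1_one {A : Finset G} (hD : OnlyDiag A) (hT : tor A = {0}) {H : AddSubgroup G}
    (hH : H ≠ ⊥) (hs : (A + fs H).card + 1 ≤ A.card + (fs H).card) :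
    ∀ x ∈ A, ∀ y ∈ A, ∀ z ∈ A, x + y + z ∈ H → x ∈ H ∧ y ∈ H ∧ z ∈ H := by
  intro x hx y hy z hz hxyz
  have hxy := distinct_cosets hD hs hx hy hz hxyz
  have hxz := distinct_cosets hD hs hx hz hy (by
    rwa [show x + z + y = x + y + z by abel])
  have h2 := two_le_fs hH
  have hxH : x ∈ H := by
    by_contra hxH
    have h3 : x + x + x ∈ H := by
      have := H.add_mem (H.add_mem hxyz hxy) hxz
      rwa [show x + y + z + (x - y) + (x - z) = x + x + x by abel] at this
    have h4 := same_coset hD hx h3 (by
      intro t ht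
      rw [hT, Finset.mem_singleton] at ht
      subst ht
      intro h
      apply hxH
      have := H.neg_mem h
      simpa using this)
    have h0 : (0 : G) ∈ A := (mem_tor.1 (by rw [hT]; simp : (0 : G) ∈ tor A)).1
    have h5 := holes_two (H := H) hx h0 (by simpa using hxH)
    have h6 := part_bound_one hD (H := H) (y := 0) (by rw [hT]; simp) (by
      intro w hw _
      rw [hT, Finset.mem_singleton] at hw
      exact hw)
    omega
  refine ⟨hxH, ?_, ?_⟩
  · have := H.sub_mem hxH hxy
    rwa [show x - (x - y) = y by abel] at this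
  · have := H.sub_mem hxH hxz
    rwa [show x - (x - z) = z by abel] at this

theorem q1_two {A : Finset G} (hD : OnlyDiag A) {g : G} (hg : g ≠ 0) (hT : tor A = {0, g})
    {H : AddSubgroup G} (hH : H ≠ ⊥) (hs : (A + fs H).card + 1 ≤ A.card + (fs H).card) :
    g ∈ H ∧ ∀ x ∈ A, ∀ y ∈ A, ∀ z ∈ A, x + y + z ∈ H → x ∈ H ∧ y ∈ H ∧ z ∈ H := by
  have hgT : g ∈ tor A := by rw [hT]; simp
  have h0T : (0 : G) ∈ tor A := by rw [hT]; simp
  have hgA := (mem_tor.1 hgT).1
  have h0A := (mem_tor.1 h0T).1
  have h2 := two_le_fs hH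
  have hgH : g ∈ H := by
    by_contra hgH
    have h5 := holes_two (H := H) hgA h0A (by simpa using hgH)
    have h6 := part_bound_one hD (H := H) (y := 0) h0T (by
      intro w hw hw2
      rw [hT, Finset.mem_insert, Finset.mem_singleton] at hw
      rcases hw with h | h
      · exact h
      · exfalso; apply hgH; rw [h] at hw2; simpa using hw2)
    have h7 := part_bound_one hD (H := H) (y := g) hgT (by
      intro w hw hw2
      rw [hT, Finset.mem_insert, Finset.mem_singleton] at hw
      rcases hw with h | h
      · exfalso; apply hgH; rw [h] at hw2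
        have := H.neg_mem hw2
        simpa using this
      · exact h)
    omega
  refine ⟨hgH, ?_⟩
  intro x hx y hy z hz hxyz
  have hxy := distinct_cosets hD hs hx hy hz hxyz
  have hxz := distinct_cosets hD hs hx hz hy (by
    rwa [show x + z + y = x + y + z by abel])
  have hxH : x ∈ H := by
    by_contra hxH
    have h3 : x + x + x ∈ H := by
      have := H.add_mem (H.add_mem hxyz hxy) hxz
      rwa [show x + y + z + (x - y) + (x - z) = x + x + x by abel] at this
    have h4 := same_coset hD hx h3 (by
      intro t ht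
      rw [hT, Finset.mem_insert, Finset.mem_singleton] at ht
      intro h
      apply hxH
      rcases ht with rfl | rfl
      · have := H.neg_mem h
        simpa using this
      · have := H.sub_mem hgH h
        rwa [show t - (t - x) = x by abel] at this)
    have h5 := holes_two (H := H) hx h0A (by simpa using hxH)
    have h6 := part_bound_two hD (H := H) hg hT hgH
    omega
  refine ⟨hxH, ?_, ?_⟩
  · have := H.sub_mem hxH hxy
    rwa [show x - (x - y) = y by abel] at this
  · have := H.sub_mem hxH hxz
    rwa [show x - (x - z) = z by abel] at this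

/-- the image in the quotient -/
noncomputable def img (A : Finset G) (H : AddSubgroup G) : Finset (G ⧸ H) :=
  A.image (fun x => (QuotientAddGroup.mk x : G ⧸ H))

lemma img_props {A : Finset G} {H : AddSubgroup G} (h0 : (0 : G) ∈ A)
    (hq : ∀ x ∈ A, ∀ y ∈ A, ∀ z ∈ A, x + y + z ∈ H → x ∈ H ∧ y ∈ H ∧ z ∈ H) :
    OnlyDiag (img A H) ∧ tor (img A H) = {0} := by
  have key : ∀ a ∈ img A H, ∀ b ∈ img A H, ∀ c ∈ img A H, a + b + c = 0 → a = 0 ∧ b = 0 ∧ c = 0 := by
    intro a ha b hb c hc habc
    unfold img at ha hb hc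
    rw [Finset.mem_image] at ha hb hc
    obtain ⟨x, hx, rfl⟩ := ha
    obtain ⟨y, hy, rfl⟩ := hb
    obtain ⟨z, hz, rfl⟩ := hc
    have h1 : x + y + z ∈ H := by
      rw [← QuotientAddGroup.eq_zero_iff]
      exact habc
    obtain ⟨h2, h3, h4⟩ := hq x hx y hy z hz h1
    exact ⟨(QuotientAddGroup.eq_zero_iff x).2 h2, (QuotientAddGroup.eq_zero_iff y).2 h3,
      (QuotientAddGroup.eq_zero_iff z).2 h4⟩
  constructor
  · intro a ha b hb c hc habc
    obtain ⟨h1, h2, h3⟩ := key a ha b hb c hc habc
    exact ⟨by rw [h1, h2], by rw [h2, h3]⟩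
  · ext a
    rw [mem_tor, Finset.mem_singleton]
    constructor
    · rintro ⟨h1, h2⟩
      exact (key a h1 a h1 a h1 h2).1
    · rintro rfl
      refine ⟨?_, by simp⟩
      unfold img
      rw [Finset.mem_image]
      exact ⟨0, h0, rfl⟩

lemma fiber_card (H : AddSubgroup G) (S : Finset G) (a : G ⧸ H) :
    (S.filter (fun x => (QuotientAddGroup.mk x : G ⧸ H) = a)).card ≤ (fs H).card := by
  obtain ⟨x, rfl⟩ := QuotientAddGroup.mk_surjective a
  rw [← card_cos H x]
  apply Finset.card_le_card
  intro y hy
  rw [Finset.mem_filter] at hy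
  rw [mem_cos]
  have := (QuotientAddGroup.eq (s := H)).1 hy.2.symm
  rwa [neg_add_eq_sub] at this

/-- counting: the full structure -/
theorem counting {A : Finset G} {H : AddSubgroup G} (h0 : (0 : G) ∈ A) {τ : ℕ}
    (hq : ∀ x ∈ A, ∀ y ∈ A, ∀ z ∈ A, x + y + z ∈ H → x ∈ H ∧ y ∈ H ∧ z ∈ H)
    (hn : 3 * A.card = Fintype.card G + τ)
    (hC : 3 * (part A H 0).card ≤ (fs H).card + τ) :
    3 * (img A H).card = Fintype.card (G ⧸ H) + 2 ∧
    3 * (part A H 0).card = (fs H).card + τ ∧
    (∀ a ∈ A, a ∉ H → cos H a ⊆ A) := by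
  classical
  obtain ⟨hD', hT'⟩ := img_props h0 hq
  have hβ := three_one hD' (by rw [hT']; exact Finset.card_singleton _)
  have hcard := card_quot H
  set q := Fintype.card (G ⧸ H) with hqdef
  set h := (fs H).card with hh
  set β := (img A H).card with hβdef
  have hpos : 0 < h := Finset.card_pos.2 ⟨0, zero_mem_fs H⟩
  -- the part outside H
  set P := A \ part A H 0 with hP
  set S := P + fs H with hS
  have hPmem : ∀ x, x ∈ P ↔ x ∈ A ∧ x ∉ H := by
    intro x
    rw [hP, Finset.mem_sdiff, mem_part]
    constructor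
    · rintro ⟨h1, h2⟩
      refine ⟨h1, fun h3 => h2 ⟨h1, by simpa using h3⟩⟩
    · rintro ⟨h1, h2⟩
      exact ⟨h1, fun h3 => h2 (by simpa using h3.2)⟩
  have hPS : P ⊆ S := by
    intro x hx
    rw [hS, Finset.mem_add]
    exact ⟨x, hx, 0, zero_mem_fs H, add_zero x⟩
  have hSimg : S.image (fun x => (QuotientAddGroup.mk x : G ⧸ H)) ⊆ (img A H).erase 0 := by
    intro a ha
    rw [Finset.mem_image] at ha
    obtain ⟨x, hx, rfl⟩ := ha
    rw [hS, Finset.mem_add] at hx
    obtain ⟨p, hp, t, ht, rfl⟩ := hx
    rw [hPmem] at hp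
    have e : (QuotientAddGroup.mk (p + t) : G ⧸ H) = QuotientAddGroup.mk p := by
      rw [QuotientAddGroup.eq]
      rw [mem_fs] at ht
      have := H.neg_mem ht
      rwa [show -(p + t) + p = -t by abel]
    show (QuotientAddGroup.mk (p + t) : G ⧸ H) ∈ (img A H).erase 0
    rw [e, Finset.mem_erase]
    refine ⟨fun h => hp.2 ((QuotientAddGroup.eq_zero_iff p).1 h), ?_⟩
    unfold img
    rw [Finset.mem_image]
    exact ⟨p, hp.1, rfl⟩
  have h0img : (0 : G ⧸ H) ∈ img A H := by
    unfold img
    rw [Finset.mem_image]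
    exact ⟨0, h0, rfl⟩
  have hSc : S.card ≤ h * (β - 1) := by
    have h1 := Finset.card_le_mul_card_image (s := S)
      (f := fun x => (QuotientAddGroup.mk x : G ⧸ H)) h (fun a _ => fiber_card H S a)
    have h2 := Finset.card_le_card hSimg
    rw [Finset.card_erase_of_mem h0img] at h2
    exact h1.trans (Nat.mul_le_mul_left h h2)
  have hPc : P.card + (part A H 0).card = A.card := by
    rw [hP]; exact Finset.card_sdiff_add_card_eq_card part_subset
  have hPS' := Finset.card_le_card hPS
  have hβ1 : 1 ≤ β := Finset.card_pos.2 ⟨0, h0img⟩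
  obtain ⟨b, hb⟩ : ∃ b, β = b + 1 := ⟨β - 1, by omega⟩
  rw [hb, Nat.add_sub_cancel] at hSc
  -- 3 |P| = q h + τ - 3 c ≥ (q - 1) h
  have e1 : 3 * P.card + 3 * (part A H 0).card = q * h + τ := by
    rw [← hcard]; omega
  have e2 : q * h ≤ 3 * (h * b) + h := by
    have : 3 * P.card ≤ 3 * (h * b) := by omega
    omega
  have e3 : q ≤ 3 * b + 1 := by
    have : q * h ≤ (3 * b + 1) * h := by nlinarith
    exact Nat.le_of_mul_le_mul_right this hpos
  have e4 : q = 3 * b + 1 := by omega
  have e5 : q * h = 3 * (h * b) + h := by rw [e4]; ring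
  refine ⟨by omega, by omega, ?_⟩
  intro a ha haH
  have hPeq : P = S := Finset.eq_of_subset_of_card_le hPS (by omega)
  intro y hy
  have hyS : y ∈ S := by
    rw [hS, Finset.mem_add]
    exact ⟨a, (hPmem a).2 ⟨ha, haH⟩, y - a, mem_fs.2 (mem_cos.1 hy), by abel⟩
  rw [← hPeq, hPmem] at hyS
  exact hyS.1

end Pool.Agent.LibWSF
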