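import Pool.Agent.LibWSF.TypeI

/-!
# Extremal sets modulo twice a prime
-/

set_option autoImplicit false
set_option linter.unusedSectionVars false
set_option linter.unusedVariables false

namespace Pool.Agent.LibWSF

open Finset
open scoped Pointwise
open Pool.Agent.LibKneser

lemma three_ap_seven : ∀ a b c : ZMod 7, a ≠ b → a ≠ c → b ≠ c →
    a + b ≠ c + c → a + c ≠ b + b → b + c ≠ a + a →
    [a + a, b + b, c + c, a + b, a + c, b + c].Nodup := by
  unfold ZMod
  decide

lemma triple_ap {G : Type*} [AddCommGroup G] [DecidableEq G] {a b c : G} (h : a + b = c + c) :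
    ({a, b, c} : Finset G) = (Finset.range 3).image (fun i : ℕ => a - i • (a - c)) := by
  have hr : Finset.range 3 = {0, 1, 2} := by decide
  have e1 : a - 2 • (a - c) = b := by
    rw [two_nsmul, show a - (a - c + (a - c)) = (c + c) - a by abel, ← h]; abel
  rw [hr, Finset.image_insert, Finset.image_insert, Finset.image_singleton, e1, zero_nsmul,
    sub_zero, one_nsmul, sub_sub_cancel]
  rw [Finset.pair_comm b c]

lemma triple_ap' {G : Type*} [AddCommGroup G] [DecidableEq G] {a b c : G}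
    (hab : a ≠ b) (hac : a ≠ c) (hbc : b ≠ c)
    (h : a + b = c + c ∨ a + c = b + b ∨ b + c = a + a) :
    ∃ e d : G, d ≠ 0 ∧ ({a, b, c} : Finset G) = (Finset.range 3).image (fun i : ℕ => e - i • d) := by
  rcases h with h | h | h
  · exact ⟨a, a - c, sub_ne_zero.2 hac, triple_ap h⟩
  · refine ⟨a, a - b, sub_ne_zero.2 hab, ?_⟩
    rw [← triple_ap h, Finset.pair_comm b c]
  · refine ⟨b, b - a, sub_ne_zero.2 (Ne.symm hab), ?_⟩
    rw [← triple_ap h]
    ext x
    simp only [Finset.mem_insert, Finset.mem_singleton]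
    constructor
    · rintro (h | h | h)
      · exact Or.inr (Or.inr h)
      · exact Or.inl h
      · exact Or.inr (Or.inl h)
    · rintro (h | h | h)
      · exact Or.inr (Or.inl h)
      · exact Or.inr (Or.inr h)
      · exact Or.inl h

lemma triple_sum_card {a b c : ZMod 7} (h : [a + a, b + b, c + c, a + b, a + c, b + c].Nodup) :
    6 ≤ (({a, b, c} : Finset (ZMod 7)) + {a, b, c}).card := by
  have h1 := List.toFinset_card_of_nodup h
  have h2 : [a + a, b + b, c + c, a + b, a + c, b + c].length = 6 := rfl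
  rw [h2] at h1
  rw [← h1]
  apply Finset.card_le_card
  intro x hx
  rw [List.mem_toFinset] at hx
  simp only [List.mem_cons, List.not_mem_nil, or_false] at hx
  rw [Finset.mem_add]
  rcases hx with rfl | rfl | rfl | rfl | rfl | rfl
  · exact ⟨a, by simp, a, by simp, rfl⟩
  · exact ⟨b, by simp, b, by simp, rfl⟩
  · exact ⟨c, by simp, c, by simp, rfl⟩
  · exact ⟨a, by simp, b, by simp, rfl⟩
  · exact ⟨a, by simp, c, by simp, rfl⟩
  · exact ⟨b, by simp, c, by simp, rfl⟩

section

variable {p : ℕ} [hp : Fact p.Prime]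

/-- an element missing from a threefold sumset -/
lemma cd_three {X Y Z : Finset (ZMod p)} (hX : X.Nonempty) (hY : Y.Nonempty) (hZ : Z.Nonempty)
    (h : ∀ a ∈ X, ∀ b ∈ Y, ∀ c ∈ Z, a + b + c ≠ 0) : X.card + Y.card + Z.card ≤ p + 1 := by
  have h1 := ZMod.cauchy_davenport hp.out hY hZ
  have hXn : (X.image (fun x => -x)).card = X.card := Finset.card_image_of_injective _ neg_injective
  have hdis : Disjoint (X.image (fun x => -x)) (Y + Z) := by
    rw [Finset.disjoint_left]
    intro w hw hw2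
    rw [Finset.mem_image] at hw
    obtain ⟨a, ha, rfl⟩ := hw
    rw [Finset.mem_add] at hw2
    obtain ⟨b, hb, c, hc, hbc⟩ := hw2
    apply h a ha b hb c hc
    rw [add_assoc, hbc, add_neg_cancel]
  have h2 := Finset.card_union_of_disjoint hdis
  have h3 := Finset.card_le_univ ((X.image (fun x => -x)) ∪ (Y + Z))
  rw [ZMod.card] at h3
  have h4 := Finset.card_pos.2 hX
  have h5 := Finset.card_pos.2 hY
  have h6 := Finset.card_pos.2 hZ
  omega

lemma counts2 (hp1 : p % 3 = 1) {E O : Finset (ZMod p)} (hE : E.Nonempty)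
    (hc : 3 * (E.card + O.card) = 2 * p + 1) (K0 : NoZ E)
    (K1 : ∀ a ∈ E, ∀ b ∈ O, ∀ c ∈ O, a + b + c ≠ 0) :
    3 * E.card + 1 = p ∧ 3 * O.card = p + 2 := by
  have h1 := cd_three hE hE hE K0
  have hp0 := hp.out.two_le
  have hO : O.Nonempty := by
    rw [← Finset.card_pos]; by_contra h; omega
  have h2 := cd_three hE hO hO K1
  omega

lemma gen_zmod {d : ZMod p} (hd : d ≠ 0) : AddSubgroup.zmultiples d = ⊤ := by
  rcases prime_sub (AddSubgroup.zmultiples d) with h1 | h1
  · exact absurd (AddSubgroup.zmultiples_eq_bot.1 h1) hd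
  · exact h1

lemma exists_lt {d : ZMod p} (hd : d ≠ 0) (x : ZMod p) : ∃ k : ℕ, k < p ∧ k • d = x := by
  have h : x ∈ AddSubgroup.zmultiples d := by rw [gen_zmod hd]; exact AddSubgroup.mem_top _
  obtain ⟨k, hk, hkx⟩ := exists_nsmul h
  rw [addOrderOf_top (gen_zmod hd), ZMod.card] at hk
  exact ⟨k, hk, hkx⟩

lemma eq_of_nsmul {d : ZMod p} (hd : d ≠ 0) {i j : ℕ} (hi : i < p) (hj : j < p)
    (h : i • d = j • d) : i = j := by
  have ho := addOrderOf_top (gen_zmod hd)
  rw [ZMod.card] at ho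
  exact nsmul_injOn_Iio_addOrderOf (by rw [ho]; exact hi) (by rw [ho]; exact hj) h

/-- the odd part is a progression -/
lemma odd_ap (hp1 : p % 3 = 1) {E O : Finset (ZMod p)} (hE : E.Nonempty)
    (hc : 3 * (E.card + O.card) = 2 * p + 1) (K0 : NoZ E)
    (K1 : ∀ a ∈ E, ∀ b ∈ O, ∀ c ∈ O, a + b + c ≠ 0) :
    ∃ e d : ZMod p, d ≠ 0 ∧ O = (Finset.range O.card).image (fun i : ℕ => e - i • d) := by
  obtain ⟨h1, h2⟩ := counts2 hp1 hE hc K0 K1
  have hp0 := hp.out.two_le
  have hO : O.Nonempty := by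
    rw [← Finset.card_pos]; omega
  have hcd := ZMod.cauchy_davenport hp.out hO hO
  have hdis : Disjoint (E.image (fun x => -x)) (O + O) := by
    rw [Finset.disjoint_left]
    intro w hw hw2
    rw [Finset.mem_image] at hw
    obtain ⟨a, ha, rfl⟩ := hw
    rw [Finset.mem_add] at hw2
    obtain ⟨b, hb, c, hc, hbc⟩ := hw2
    apply K1 a ha b hb c hc
    rw [add_assoc, hbc, add_neg_cancel]
  have h3 := Finset.card_union_of_disjoint hdis
  have h4 := Finset.card_le_univ ((E.image (fun x => -x)) ∪ (O + O))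
  rw [ZMod.card] at h4
  rw [Finset.card_image_of_injective _ neg_injective] at h3
  have hOO : (O + O).card + 1 = 2 * O.card := by omega
  rcases Nat.lt_or_ge O.card 4 with hs | hb
  · -- p = 7
    have hp7 : p = 7 := by
      have hle : p ≤ 7 := by omega
      have hne : p ≠ 4 := by
        intro h
        have := hp.out
        rw [h] at this
        revert this; decide
      omega
    subst hp7
    obtain ⟨a, b, c, hab, hac, hbc, rfl⟩ := Finset.card_eq_three.1 (show O.card = 3 by omega)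
    have hc3 : ({a, b, c} : Finset (ZMod 7)).card = 3 := by omega
    rw [hc3]
    apply triple_ap' hab hac hbc
    by_contra hcon
    push Not at hcon
    have h6 := triple_sum_card (three_ap_seven a b c hab hac hbc hcon.1 hcon.2.1 hcon.2.2)
    omega
  · rcases structure_thm O hb hOO (by rw [ZMod.card]; omega) with ⟨d, hd, hdA⟩ | ⟨H, g1, g2, g3⟩
    · obtain ⟨e, he⟩ := ap_top hdA (gen_zmod hd)
      exact ⟨e, d, hd, he⟩
    · exfalso
      rcases prime_sub H with h4 | h4
      · exact g1 h4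
      · exact g2 h4

/-- complete description -/
theorem struct2 (hp1 : p % 3 = 1) {E O : Finset (ZMod p)} (hE : E.Nonempty)
    (hc : 3 * (E.card + O.card) = 2 * p + 1) (K0 : NoZ E)
    (K1 : ∀ a ∈ E, ∀ b ∈ O, ∀ c ∈ O, a + b + c ≠ 0) :
    ∃ (e d : ZMod p) (j : ℕ), d ≠ 0 ∧ j < 3 ∧ 6 * e + j * d = 0 ∧
      (∀ x ∈ E, ∃ i : ℕ, 1 ≤ i ∧ i ≤ E.card ∧ x = -(2 * e) - i * d) ∧
      (∀ x ∈ O, ∃ i : ℕ, i < O.card ∧ x = e - i * d) ∧
      18 * (∑ x ∈ E, x + ∑ x ∈ O, x) = 4 * (1 - j) * d := by
  obtain ⟨h1, h2⟩ := counts2 hp1 hE hc K0 K1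
  obtain ⟨e, d, hd, hO⟩ := odd_ap hp1 hE hc K0 K1
  have hmemO : ∀ i < O.card, e - i • d ∈ O := by
    intro i hi
    have : e - i • d ∈ (Finset.range O.card).image (fun i : ℕ => e - i • d) :=
      Finset.mem_image.2 ⟨i, Finset.mem_range.2 hi, rfl⟩
    rwa [← hO] at this
  have hEl : ∀ x ∈ E, ∃ i : ℕ, 1 ≤ i ∧ i ≤ E.card ∧ x = -(2 • e) - i • d := by
    intro x hx
    obtain ⟨k, hk, hkx⟩ := exists_lt hd (x + 2 • e)
    have hk2 : 2 * O.card - 1 ≤ k := by
      by_contra hlt
      obtain ⟨i, j, hi, hj, hij⟩ : ∃ i j : ℕ, i < O.card ∧ j < O.card ∧ i + j = k := by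
        rcases Nat.lt_or_ge k O.card with g | g
        · exact ⟨k, 0, g, by omega, by omega⟩
        · exact ⟨O.card - 1, k - (O.card - 1), by omega, by omega, by omega⟩
      apply K1 x hx _ (hmemO i hi) _ (hmemO j hj)
      have g1 : k • d = i • d + j • d := by rw [← hij, add_nsmul]
      rw [g1, two_nsmul] at hkx
      calc x + (e - i • d) + (e - j • d) = (x + (e + e)) - (i • d + j • d) := by abel
        _ = 0 := by rw [hkx, sub_self]
    refine ⟨p - k, by omega, by omega, ?_⟩
    have hpd : p • d = 0 := by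
      rw [nsmul_eq_mul, ZMod.natCast_self, zero_mul]
    have g2 : (p - k) • d + k • d = 0 := by
      rw [← add_nsmul, Nat.sub_add_cancel hk.le]; exact hpd
    have g3 : (p - k) • d = -(x + 2 • e) := by
      rw [hkx] at g2
      exact eq_neg_of_add_eq_zero_left g2
    rw [g3]; abel
  have hEset : E = (Finset.Icc 1 E.card).image (fun i : ℕ => -(2 • e) - i • d) := by
    apply Finset.eq_of_subset_of_card_le
    · intro x hx
      obtain ⟨i, hi1, hi2, hix⟩ := hEl x hx
      rw [Finset.mem_image]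
      exact ⟨i, Finset.mem_Icc.2 ⟨hi1, hi2⟩, hix.symm⟩
    · refine Finset.card_image_le.trans ?_
      rw [Nat.card_Icc]; omega
  have hmemE : ∀ i, 1 ≤ i → i ≤ E.card → -(2 • e) - i • d ∈ E := by
    intro i hi1 hi2
    have : -(2 • e) - i • d ∈ (Finset.Icc 1 E.card).image (fun i : ℕ => -(2 • e) - i • d) :=
      Finset.mem_image.2 ⟨i, Finset.mem_Icc.2 ⟨hi1, hi2⟩, rfl⟩
    rwa [← hEset] at this
  obtain ⟨j, hj, hje⟩ := exists_lt hd (-(6 • e))
  have hEpos := Finset.card_pos.2 hE
  have hj3 : j < 3 := by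
    by_contra hge
    obtain ⟨a, b, c, ha, hb, hc', habc⟩ : ∃ a b c : ℕ, (1 ≤ a ∧ a ≤ E.card) ∧
        (1 ≤ b ∧ b ≤ E.card) ∧ (1 ≤ c ∧ c ≤ E.card) ∧ a + b + c = j := by
      rcases Nat.lt_or_ge j (E.card + 3) with g | g
      · exact ⟨j - 2, 1, 1, ⟨by omega, by omega⟩, ⟨by omega, by omega⟩, ⟨by omega, by omega⟩,
          by omega⟩
      · rcases Nat.lt_or_ge j (2 * E.card + 2) with g' | g'
        · exact ⟨E.card, j - 1 - E.card, 1, ⟨by omega, by omega⟩, ⟨by omega, by omega⟩,
            ⟨by omega, by omega⟩, by omega⟩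
        · exact ⟨E.card, E.card, j - 2 * E.card, ⟨by omega, by omega⟩, ⟨by omega, by omega⟩,
            ⟨by omega, by omega⟩, by omega⟩
    apply K0 _ (hmemE a ha.1 ha.2) _ (hmemE b hb.1 hb.2) _ (hmemE c hc'.1 hc'.2)
    have g1 : j • d = a • d + b • d + c • d := by rw [← habc, add_nsmul, add_nsmul]
    rw [g1] at hje
    have g2 : (6 : ℕ) • e = 2 • e + 2 • e + 2 • e := by
      rw [← add_nsmul, ← add_nsmul]
    rw [g2] at hje
    calc -(2 • e) - a • d + (-(2 • e) - b • d) + (-(2 • e) - c • d)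
        = -(2 • e + 2 • e + 2 • e) - (a • d + b • d + c • d) := by abel
      _ = 0 := by rw [hje, sub_self]
  have hinjO : Set.InjOn (fun i : ℕ => e - i • d) (Finset.range O.card : Set ℕ) := by
    rw [← Finset.card_image_iff, ← hO, Finset.card_range]
  have hinjE : Set.InjOn (fun i : ℕ => -(2 • e) - i • d) (Finset.Icc 1 E.card : Set ℕ) := by
    rw [← Finset.card_image_iff, ← hEset, Nat.card_Icc]; omega
  have sO : ∑ x ∈ O, x = O.card * e - (∑ i ∈ Finset.range O.card, (i : ZMod p)) * d := by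
    conv_lhs => rw [hO]
    rw [Finset.sum_image (fun a ha b hb h => hinjO ha hb h), Finset.sum_sub_distrib,
      Finset.sum_const, Finset.card_range, nsmul_eq_mul, Finset.sum_mul]
    congr 1
    apply Finset.sum_congr rfl
    intro i _
    rw [nsmul_eq_mul]
  have sE : ∑ x ∈ E, x = -(2 * (E.card * e)) - (∑ i ∈ Finset.Icc 1 E.card, (i : ZMod p)) * d := by
    conv_lhs => rw [hEset]
    rw [Finset.sum_image (fun a ha b hb h => hinjE ha hb h), Finset.sum_sub_distrib,
      Finset.sum_const, Nat.card_Icc, Finset.sum_mul]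
    congr 1
    · rw [Nat.add_sub_cancel, nsmul_eq_mul, nsmul_eq_mul]; push_cast; ring
    · apply Finset.sum_congr rfl
      intro i _
      rw [nsmul_eq_mul]
  have t1 : (∑ i ∈ Finset.range O.card, (i : ZMod p)) * 2 = O.card * (O.card - 1) := by
    have h := Finset.sum_range_id_mul_two O.card
    have hOp : 1 ≤ O.card := by have := hp.out.two_le; omega
    have h' := congrArg (fun n : ℕ => (n : ZMod p)) h
    push_cast [Nat.cast_sub hOp] at h'
    exact h'
  have t2 : (∑ i ∈ Finset.Icc 1 E.card, (i : ZMod p)) * 2 = E.card * (E.card + 1) := by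
    have h : (∑ i ∈ Finset.Icc 1 E.card, i) * 2 = E.card * (E.card + 1) := by
      have h3 := Finset.sum_range_id_mul_two (E.card + 1)
      have h4 : ∑ i ∈ Finset.Icc 1 E.card, i = ∑ i ∈ Finset.range (E.card + 1), i := by
        rw [Finset.sum_range_succ']
        rw [add_zero]
        rw [← Finset.Ico_add_one_right_eq_Icc, Finset.sum_Ico_eq_sum_range]
        apply Finset.sum_congr
        · congr 1
        · intro i _; ring
      rw [h4, h3]; simp [mul_comm]
    have h' := congrArg (fun n : ℕ => (n : ZMod p)) h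
    push_cast at h'
    exact h'
  have c1 : (3 : ZMod p) * O.card = 2 := by
    have h' := congrArg (fun n : ℕ => (n : ZMod p)) h2
    push_cast at h'
    rw [h', ZMod.natCast_self, zero_add]
  have c2 : (3 : ZMod p) * E.card = -1 := by
    have h' := congrArg (fun n : ℕ => (n : ZMod p)) h1
    push_cast at h'
    rw [ZMod.natCast_self] at h'
    exact eq_neg_of_add_eq_zero_left h'
  have hje' : 6 * e + j * d = 0 := by
    have : (j : ZMod p) * d = -(6 * e) := by
      rw [nsmul_eq_mul, nsmul_eq_mul] at hje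
      push_cast at hje
      exact hje
    rw [this]; ring
  refine ⟨e, d, j, hd, hj3, hje', ?_, ?_, ?_⟩
  · intro x hx
    obtain ⟨i, hi1, hi2, hix⟩ := hEl x hx
    refine ⟨i, hi1, hi2, ?_⟩
    rw [hix, nsmul_eq_mul, nsmul_eq_mul]; push_cast; ring
  · intro x hx
    rw [hO, Finset.mem_image] at hx
    obtain ⟨i, hi, rfl⟩ := hx
    exact ⟨i, Finset.mem_range.1 hi, by rw [nsmul_eq_mul]⟩
  · rw [sO, sE]
    set S1 := ∑ i ∈ Finset.range O.card, (i : ZMod p)
    set S2 := ∑ i ∈ Finset.Icc 1 E.card, (i : ZMod p)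
    set x := (O.card : ZMod p)
    set y := (E.card : ZMod p)
    -- 18 (x e - S1 d - 2 y e - S2 d) = 24 e + 4 d
    have g1 : 18 * (-(2 * (y * e)) - S2 * d + (x * e - S1 * d)) =
        6 * (3 * x) * e - 12 * (3 * y) * e - 9 * (S1 * 2) * d - 9 * (S2 * 2) * d := by ring
    rw [g1, t1, t2]
    have g2 : 9 * (x * (x - 1)) = (3 * x) * (3 * x - 3) := by ring
    have g3 : 9 * (y * (y + 1)) = (3 * y) * (3 * y + 3) := by ring
    rw [g2, g3, c1, c2]
    linear_combination 4 * hje'

end

end Pool.Agent.LibWSF
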