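import Pool.Agent.LibKneser.Kneser

/-!
# A structure theorem of Kemperman type

If `|A + A| = 2|A| - 1` in a finite abelian group of order at least `3|A| - 3`, then either
`|A + {0, d}| = |A| + 1` for some `d ≠ 0`, or some proper nontrivial subgroup `H`
satisfies `|A + H| ≤ |A| + |H| - 1`.
-/

set_option autoImplicit false
set_option linter.unusedSectionVars false
set_option linter.unusedVariables false

namespace Pool.Agent.LibWSF

open Finset
open scoped Pointwise
open Pool.Agent.LibKneser

variable {G : Type*} [AddCommGroup G] [Fintype G] [DecidableEq G]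

/-- the elements of a subgroup as a finite set -/
noncomputable def fs (H : AddSubgroup G) : Finset G := by
  classical exact Finset.univ.filter (fun x => x ∈ H)

@[simp] lemma mem_fs {H : AddSubgroup G} {x : G} : x ∈ fs H ↔ x ∈ H := by
  classical simp [fs]

lemma zero_mem_fs (H : AddSubgroup G) : (0 : G) ∈ fs H := mem_fs.2 H.zero_mem

/-- the period of a finite set as a subgroup -/
def perG (C : Finset G) (hC : C.Nonempty) : AddSubgroup G where
  carrier := {g | g ∈ per C}
  zero_mem' := zero_mem_per hC
  add_mem' := fun {a b} ha hb => add_mem_per hC ha hb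
  neg_mem' := fun {a} ha => neg_mem_per hC ha

lemma fs_perG (C : Finset G) (hC : C.Nonempty) : fs (perG C hC) = per C := by
  ext x; simp [perG]

lemma fs_bot : fs (⊥ : AddSubgroup G) = {0} := by
  ext x; simp

lemma card_le_add_fs (A : Finset G) (H : AddSubgroup G) : A.card ≤ (A + fs H).card := by
  apply Finset.card_le_card
  intro a ha
  rw [Finset.mem_add]
  exact ⟨a, ha, 0, zero_mem_fs H, add_zero a⟩

/-- Kneser's theorem with a subgroup. -/
theorem kneserG {A B : Finset G} (hA : A.Nonempty) (hB : B.Nonempty) :
    ∃ H : AddSubgroup G, A + B + fs H = A + B ∧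
      (A + fs H).card + (B + fs H).card ≤ (A + B).card + (fs H).card := by
  refine ⟨perG (A + B) (hA.add hB), ?_, ?_⟩
  · rw [fs_perG]; exact add_per (hA.add hB)
  · rw [fs_perG]; exact kneser hA hB

section core

variable (A : Finset G)

/-- fragments -/
def Frag (X : Finset G) : Prop :=
  2 ≤ X.card ∧ X + A ≠ Finset.univ ∧ (X + A).card + 1 = X.card + A.card

variable {A}

/-- lower bound under the absence of a good subgroup -/
lemma lower (hAne : A.Nonempty)
    (hH : ∀ H : AddSubgroup G, H ≠ ⊥ → H ≠ ⊤ → A.card + (fs H).card ≤ (A + fs H).card)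
    {X : Finset G} (hX : X.Nonempty) (hXu : X + A ≠ Finset.univ) :
    X.card + A.card ≤ (X + A).card + 1 := by
  obtain ⟨H, h1, h2⟩ := kneserG hX hAne
  by_cases hb : H = ⊥
  · subst hb
    rw [fs_bot] at h2
    simpa using h2
  · by_cases ht : H = ⊤
    · exfalso
      apply hXu
      subst ht
      rw [← h1]
      ext y
      simp only [Finset.mem_univ, iff_true]
      obtain ⟨c, hc⟩ := hX.add hAne
      rw [Finset.mem_add]
      exact ⟨c, hc, y - c, mem_fs.2 (AddSubgroup.mem_top _), by abel⟩
    · have h3 := hH H hb ht
      have h4 := card_le_add_fs X H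
      omega

lemma card_tr (X : Finset G) (g : G) : (X + {g}).card = X.card := by
  rw [Finset.add_singleton]
  exact Finset.card_image_of_injective _ (add_left_injective g)

lemma mem_tr {X : Finset G} {g x : G} : x ∈ X + {g} ↔ x - g ∈ X := by
  rw [Finset.mem_add]
  constructor
  · rintro ⟨y, hy, z, hz, rfl⟩
    rw [Finset.mem_singleton] at hz
    subst hz
    simpa using hy
  · intro h
    exact ⟨x - g, h, g, Finset.mem_singleton_self g, by abel⟩

lemma Frag.tr {X : Finset G} (h : Frag A X) (g : G) : Frag A (X + {g}) := by
  have e : X + {g} + A = X + A + {g} := add_right_comm _ _ _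
  refine ⟨?_, ?_, ?_⟩
  · rw [card_tr]; exact h.1
  · rw [e]
    intro hu
    apply h.2.1
    have := congrArg Finset.card hu
    rw [card_tr, Finset.card_univ] at this
    exact (Finset.card_eq_iff_eq_univ _).1 this
  · rw [e, card_tr, card_tr]; exact h.2.2

/-- hypotheses in force: no good subgroup, `M` a fragment of minimal size -/
structure Setup (A M : Finset G) : Prop where
  ne : A.Nonempty
  hH : ∀ H : AddSubgroup G, H ≠ ⊥ → H ≠ ⊤ → A.card + (fs H).card ≤ (A + fs H).card
  frag : Frag A M
  min : ∀ X : Finset G, Frag A X → M.card ≤ X.card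
  size : 2 * M.card + A.card ≤ Fintype.card G + 1

variable {M : Finset G}

lemma card_union_sum (X Y : Finset G) :
    ((X ∪ Y) + A).card + ((X ∩ Y) + A).card ≤ (X + A).card + (Y + A).card := by
  have h1 : (X ∪ Y) + A = (X + A) ∪ (Y + A) := Finset.union_add
  have h2 : (X ∩ Y) + A ⊆ (X + A) ∩ (Y + A) := Finset.inter_add_subset
  have h3 := Finset.card_union_add_card_inter (X + A) (Y + A)
  have h4 := Finset.card_le_card h2
  rw [h1]; omega

/-- growth and intersection -/
lemma Setup.grow (S : Setup A M) {N X : Finset G} (hN : Frag A N) (hNM : N.card = M.card)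
    (hX : Frag A X) (hne : (N ∩ X).Nonempty)
    (hsz : M.card + X.card + A.card ≤ Fintype.card G + (N ∩ X).card) :
    Frag A (N ∪ X) ∧ (N ∩ X + A).card + 1 = (N ∩ X).card + A.card := by
  have hcu := Finset.card_union_add_card_inter N X
  have h1 := card_union_sum (A := A) N X
  have hsub : N ∩ X + A ⊆ N + A := Finset.add_subset_add_right Finset.inter_subset_left
  have hYu : N ∩ X + A ≠ Finset.univ := by
    intro hu
    apply hN.2.1
    apply Finset.eq_univ_of_forall
    intro x
    exact hsub (by rw [hu]; exact Finset.mem_univ x)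
  have h2 := lower S.ne S.hH hne hYu
  have hN3 := hN.2.2
  have hX3 := hX.2.2
  have hAc : 1 ≤ A.card := Finset.card_pos.2 S.ne
  have hUu : (N ∪ X) + A ≠ Finset.univ := by
    intro hu
    have := congrArg Finset.card hu
    rw [Finset.card_univ] at this
    omega
  have hUne : (N ∪ X).Nonempty := by
    obtain ⟨y, hy⟩ := hne
    exact ⟨y, Finset.mem_union_left _ (Finset.mem_inter.1 hy).1⟩
  have h3 := lower S.ne S.hH hUne hUu
  have h4 : X.card ≤ (N ∪ X).card := Finset.card_le_card Finset.subset_union_right
  have h5 := hX.1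
  refine ⟨⟨by omega, hUu, by omega⟩, by omega⟩

lemma Setup.inter (S : Setup A M) {N X : Finset G} (hN : Frag A N) (hNM : N.card = M.card)
    (hX : Frag A X) (hne : 2 ≤ (N ∩ X).card)
    (hsz : M.card + X.card + A.card ≤ Fintype.card G + 2) : N ⊆ X := by
  have hne' : (N ∩ X).Nonempty := by rw [← Finset.card_pos]; omega
  obtain ⟨_, h2⟩ := S.grow hN hNM hX hne' (by omega)
  have hsub : N ∩ X + A ⊆ N + A := Finset.add_subset_add_right Finset.inter_subset_left
  have hYu : N ∩ X + A ≠ Finset.univ := by
    intro hu
    apply hN.2.1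
    apply Finset.eq_univ_of_forall
    intro x
    exact hsub (by rw [hu]; exact Finset.mem_univ x)
  have h3 := S.min (N ∩ X) ⟨hne, hYu, h2⟩
  have h4 : N ∩ X = N := Finset.eq_of_subset_of_card_le Finset.inter_subset_left (by omega)
  intro x hx
  rw [← h4] at hx
  exact (Finset.mem_inter.1 hx).2

/-- the stabilizer of a minimal fragment is trivial -/
lemma Setup.stab (S : Setup A M) {s : G} (hs : ∀ x ∈ M, x + s ∈ M) : s = 0 := by
  by_contra hs0
  have hMne : M.Nonempty := by
    rw [← Finset.card_pos]; have := S.frag.1; omega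
  set K := perG M hMne with hK
  have hsK : s ∈ K := by
    show s ∈ per M
    rw [mem_per hMne]
    intro c hc
    rw [add_comm]; exact hs c hc
  have hKb : K ≠ ⊥ := by
    intro h
    rw [h] at hsK
    exact hs0 (AddSubgroup.mem_bot.1 hsK)
  have hKM : ∀ k ∈ K, ∀ x ∈ M, k + x ∈ M := by
    intro k hk x hx
    exact (mem_per hMne).1 hk x hx
  obtain ⟨m0, hm0⟩ := hMne
  by_cases hall : ∀ x ∈ M, x - m0 ∈ K
  · -- M is a coset
    have hM : M = fs K + {m0} := by
      ext x
      rw [mem_tr, mem_fs]
      constructor
      · exact hall x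
      · intro h
        have := hKM _ h m0 hm0
        simpa using this
    have hc : (fs K + A).card + 1 = (fs K).card + A.card := by
      have h1 := S.frag.2.2
      have e : M + A = fs K + A + {m0} := by rw [hM]; exact add_right_comm _ _ _
      rw [e, card_tr] at h1
      rw [hM, card_tr] at h1
      exact h1
    have hKt : K ≠ ⊤ := by
      intro h
      apply S.frag.2.1
      obtain ⟨a, ha⟩ := S.ne
      ext y
      simp only [Finset.mem_univ, iff_true]
      rw [hM, h, Finset.mem_add]
      refine ⟨y - a, ?_, a, ha, by abel⟩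
      rw [mem_tr, mem_fs]; exact AddSubgroup.mem_top _
    have h2 := S.hH K hKb hKt
    rw [add_comm (fs K) A] at hc
    omega
  · push Not at hall
    obtain ⟨m1, hm1, hm1K⟩ := hall
    have h1 : Frag A (M + {m0}) := S.frag.tr m0
    have h2 : Frag A (M + {m1}) := S.frag.tr m1
    have hcard : 2 ≤ ((M + {m0}) ∩ (M + {m1})).card := by
      have hpair : ({m0 + m1, m0 + m1 + s} : Finset G) ⊆ (M + {m0}) ∩ (M + {m1}) := by
        intro x hx
        rw [Finset.mem_insert, Finset.mem_singleton] at hx
        rw [Finset.mem_inter, mem_tr, mem_tr]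
        rcases hx with rfl | rfl
        · constructor
          · rw [show m0 + m1 - m0 = m1 by abel]; exact hm1
          · rw [show m0 + m1 - m1 = m0 by abel]; exact hm0
        · constructor
          · rw [show m0 + m1 + s - m0 = m1 + s by abel]; exact hs _ hm1
          · rw [show m0 + m1 + s - m1 = m0 + s by abel]; exact hs _ hm0
      have h3 : ({m0 + m1, m0 + m1 + s} : Finset G).card = 2 := by
        apply Finset.card_pair
        intro h
        apply hs0
        have : m0 + m1 + 0 = m0 + m1 + s := by rw [add_zero]; exact h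
        exact (add_left_cancel this).symm
      rw [← h3]; exact Finset.card_le_card hpair
    have hsz := S.size
    have h4 : M + {m0} ⊆ M + {m1} := S.inter h1 (card_tr _ _) h2 hcard (by rw [card_tr]; omega)
    have h5 : M + {m0} = M + {m1} :=
      Finset.eq_of_subset_of_card_le h4 (by rw [card_tr, card_tr])
    apply hm1K
    show m1 - m0 ∈ per M
    rw [mem_per ⟨m0, hm0⟩]
    intro c hc
    have : c + m1 ∈ M + {m1} := by rw [mem_tr]; simpa using hc
    rw [← h5, mem_tr] at this
    rw [show m1 - m0 + c = c + m1 - m0 by abel]; exact this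

lemma Setup.small_inter (S : Setup A M) {s s' : G} (h : s ≠ s') :
    ((M + {s}) ∩ (M + {s'})).card ≤ 1 := by
  by_contra hcon
  push Not at hcon
  have hsz := S.size
  have h4 : M + {s} ⊆ M + {s'} :=
    S.inter (S.frag.tr s) (card_tr _ _) (S.frag.tr s') hcon (by rw [card_tr]; omega)
  apply h
  have h5 : s - s' = 0 := by
    apply S.stab
    intro x hx
    have : x + s ∈ M + {s} := by rw [mem_tr]; simpa using hx
    have := h4 this
    rw [mem_tr] at this
    rw [show x + (s - s') = x + s - s' by abel]; exact this
  exact sub_eq_zero.1 h5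

/-- The structure theorem. -/
theorem structure_thm (A : Finset G) (hm : 4 ≤ A.card) (h2 : (A + A).card + 1 = 2 * A.card)
    (hn : 3 * A.card ≤ Fintype.card G + 3) :
    (∃ d : G, d ≠ 0 ∧ (A + {0, d}).card = A.card + 1) ∨
    (∃ H : AddSubgroup G, H ≠ ⊥ ∧ H ≠ ⊤ ∧ (A + fs H).card + 1 ≤ A.card + (fs H).card) := by
  by_contra hcon
  push Not at hcon
  obtain ⟨hd, hH0⟩ := hcon
  have hAne : A.Nonempty := by rw [← Finset.card_pos]; omega
  have hH : ∀ H : AddSubgroup G, H ≠ ⊥ → H ≠ ⊤ → A.card + (fs H).card ≤ (A + fs H).card := by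
    intro H h1 h3
    have := hH0 H h1 h3
    omega
  have hAA : A + A ≠ Finset.univ := by
    intro h
    have := congrArg Finset.card h
    rw [Finset.card_univ] at this
    omega
  have hAF : Frag A A := ⟨by omega, hAA, by omega⟩
  -- the dual fragment
  set B : Finset G := (Finset.univ \ (A + A)).image (fun x => -x) with hB
  have hBc : B.card + (A + A).card = Fintype.card G := by
    rw [hB, Finset.card_image_of_injective _ neg_injective, Finset.card_sdiff_of_subset
      (Finset.subset_univ _), Finset.card_univ]
    have := Finset.card_le_univ (A + A)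
    omega
  have hBA : B + A ⊆ (Finset.univ \ A).image (fun x => -x) := by
    intro x hx
    rw [Finset.mem_add] at hx
    obtain ⟨b, hb, a, ha, rfl⟩ := hx
    rw [hB, Finset.mem_image] at hb
    obtain ⟨y, hy, rfl⟩ := hb
    rw [Finset.mem_image]
    refine ⟨y - a, ?_, by abel⟩
    rw [Finset.mem_sdiff] at hy ⊢
    refine ⟨Finset.mem_univ _, fun h => hy.2 ?_⟩
    rw [Finset.mem_add]
    exact ⟨y - a, h, a, ha, by abel⟩
  have hBAc : (B + A).card + A.card ≤ Fintype.card G := by
    have h1 := Finset.card_le_card hBA
    rw [Finset.card_image_of_injective _ neg_injective, Finset.card_sdiff_of_subset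
      (Finset.subset_univ _), Finset.card_univ] at h1
    have := Finset.card_le_univ A
    omega
  have hBu : B + A ≠ Finset.univ := by
    intro h
    have := congrArg Finset.card h
    rw [Finset.card_univ] at this
    omega
  have hBne : B.Nonempty := by rw [← Finset.card_pos]; omega
  have hBl := lower hAne hH hBne hBu
  have hBF : Frag A B := ⟨by omega, hBu, by omega⟩
  -- a minimal fragment
  obtain ⟨M, hMF, hMmin⟩ : ∃ M : Finset G, Frag A M ∧ ∀ X : Finset G, Frag A X → M.card ≤ X.card := by
    classical
    have hne : (Finset.univ.filter (fun X : Finset G => Frag A X)).Nonempty :=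
      ⟨A, by simp [hAF]⟩
    obtain ⟨M, hM, hmin⟩ := Finset.exists_min_image _ (fun X : Finset G => X.card) hne
    rw [Finset.mem_filter] at hM
    exact ⟨M, hM.2, fun X hX => hmin X (by simp [hX])⟩
  have hMA := hMmin A hAF
  have hMB := hMmin B hBF
  have S : Setup A M := ⟨hAne, hH, hMF, hMmin, by omega⟩
  -- M has at least three elements
  have hM3 : 3 ≤ M.card := by
    by_contra hlt
    have hM2 : M.card = 2 := by have := hMF.1; omega
    obtain ⟨x, y, hxy, rfl⟩ := Finset.card_eq_two.1 hM2
    apply hd (y - x) (sub_ne_zero.2 (Ne.symm hxy))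
    have h1 := hMF.2.2
    have e : ({x, y} : Finset G) + A = A + {0, y - x} + {x} := by
      rw [add_assoc, add_comm ({x, y} : Finset G) A]
      congr 1
      ext z
      simp only [Finset.mem_insert, Finset.mem_singleton, mem_tr]
      constructor
      · rintro (rfl | rfl)
        · left; abel
        · right; rfl
      · rintro (h | h)
        · left; exact sub_eq_zero.1 h
        · right; exact sub_left_injective h
    rw [e, card_tr, hM2] at h1
    omega
  -- the case M.card = A.card
  have hlt : M.card < A.card := by
    rcases Nat.lt_or_ge M.card A.card with h | h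
    · exact h
    exfalso
    have hAmin : ∀ X : Finset G, Frag A X → A.card ≤ X.card := fun X hX => le_trans h (hMmin X hX)
    have hsz := S.size
    have SA : Setup A A := ⟨hAne, hH, hAF, hAmin, by omega⟩
    obtain ⟨a, ha, b, hb, c, hc, hab, hac, hbc⟩ : ∃ a ∈ A, ∃ b ∈ A, ∃ c ∈ A, a ≠ b ∧ a ≠ c ∧ b ≠ c := by
      have : 2 < A.card := by omega
      exact Finset.two_lt_card.1 this
    have i1 := SA.small_inter hab
    have i2 := SA.small_inter hac
    have i3 := SA.small_inter hbc
    have u1 := Finset.card_union_add_card_inter (A + {a}) (A + {b})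
    have u2 := Finset.card_union_add_card_inter ((A + {a}) ∪ (A + {b})) (A + {c})
    have u3 : (((A + {a}) ∪ (A + {b})) ∩ (A + {c})).card ≤ 2 := by
      rw [Finset.union_inter_distrib_right]
      exact (Finset.card_union_le _ _).trans (by omega)
    rw [card_tr, card_tr] at u1
    rw [card_tr] at u2
    have hsub : ((A + {a}) ∪ (A + {b})) ∪ (A + {c}) ⊆ A + A := by
      apply Finset.union_subset
      · apply Finset.union_subset
        · exact Finset.add_subset_add_left (Finset.singleton_subset_iff.2 ha)
        · exact Finset.add_subset_add_left (Finset.singleton_subset_iff.2 hb)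
      · exact Finset.add_subset_add_left (Finset.singleton_subset_iff.2 hc)
    have := Finset.card_le_card hsub
    omega
  -- bound on the size of M
  have hbound : 2 * M.card ≤ A.card + 1 := by
    obtain ⟨m1, hm1, m2, hm2, h12⟩ := Finset.one_lt_card.1 (show 1 < M.card by omega)
    -- |A ∩ (A + d)| ≥ 2, d = m2 - m1
    have hpair : A + {m1, m2} ⊆ M + A := by
      rw [add_comm M A]
      apply Finset.add_subset_add_left
      intro x hx
      rw [Finset.mem_insert, Finset.mem_singleton] at hx
      rcases hx with rfl | rfl <;> assumption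
    have e1 : A + {m1, m2} = (A + {m1}) ∪ (A + {m2}) := by
      rw [← Finset.add_union]; rfl
    have u := Finset.card_union_add_card_inter (A + {m1}) (A + {m2})
    rw [← e1, card_tr, card_tr] at u
    have hle := Finset.card_le_card hpair
    have hMF3 := hMF.2.2
    have hi : 1 < ((A + {m1}) ∩ (A + {m2})).card := by omega
    obtain ⟨x, hx, x', hx', hxx'⟩ := Finset.one_lt_card.1 hi
    -- for such x the translate M + (x - m1 - m2) lies in A
    have key : ∀ x ∈ (A + {m1}) ∩ (A + {m2}), M + {x - m1 - m2} ⊆ A := by
      intro x hx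
      rw [Finset.mem_inter, mem_tr, mem_tr] at hx
      apply S.inter (hMF.tr _) (card_tr _ _) hAF
      · have hp : ({x - m1, x - m2} : Finset G) ⊆ (M + {x - m1 - m2}) ∩ A := by
          intro z hz
          rw [Finset.mem_insert, Finset.mem_singleton] at hz
          rw [Finset.mem_inter, mem_tr]
          rcases hz with rfl | rfl
          · refine ⟨?_, hx.1⟩
            rw [show x - m1 - (x - m1 - m2) = m2 by abel]; exact hm2
          · refine ⟨?_, hx.2⟩
            rw [show x - m2 - (x - m1 - m2) = m1 by abel]; exact hm1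
        have hc : ({x - m1, x - m2} : Finset G).card = 2 := by
          apply Finset.card_pair
          intro h
          exact h12 (sub_right_injective h)
        rw [← hc]; exact Finset.card_le_card hp
      · omega
    have k1 := key x hx
    have k2 := key x' hx'
    have hne : x - m1 - m2 ≠ x' - m1 - m2 := by
      intro h
      apply hxx'
      exact sub_left_injective (sub_left_injective h)
    have hi2 := S.small_inter hne
    have u2 := Finset.card_union_add_card_inter (M + {x - m1 - m2}) (M + {x' - m1 - m2})
    have hsub := Finset.card_le_card (Finset.union_subset k1 k2)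
    rw [card_tr, card_tr] at u2
    omega
  -- final contradiction
  obtain ⟨a, ha, b, hb, c, hc, hab, hac, hbc⟩ := Finset.two_lt_card.1 (show 2 < M.card by omega)
  have iab := S.small_inter hab
  have iac := S.small_inter hac
  have ibc := S.small_inter hbc
  have hmem : a + b ∈ (M + {a}) ∩ (M + {b}) := by
    rw [Finset.mem_inter, mem_tr, mem_tr]
    constructor
    · simpa using hb
    · simpa using ha
  have hne : ((M + {a}) ∩ (M + {b})).Nonempty := ⟨_, hmem⟩
  have hcp : 0 < ((M + {a}) ∩ (M + {b})).card := Finset.card_pos.2 hne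
  have hg := (S.grow (hMF.tr a) (card_tr _ _) (hMF.tr b) hne (by rw [card_tr]; have := S.size; omega)).1
  have uab := Finset.card_union_add_card_inter (M + {a}) (M + {b})
  rw [card_tr, card_tr] at uab
  have hsub : M + {c} ⊆ (M + {a}) ∪ (M + {b}) := by
    apply S.inter (hMF.tr c) (card_tr _ _) hg
    · have hp : ({c + a, c + b} : Finset G) ⊆ (M + {c}) ∩ ((M + {a}) ∪ (M + {b})) := by
        intro z hz
        rw [Finset.mem_insert, Finset.mem_singleton] at hz
        rw [Finset.mem_inter, mem_tr, Finset.mem_union, mem_tr, mem_tr]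
        rcases hz with rfl | rfl
        · refine ⟨by simpa using ha, Or.inl (by simpa using hc)⟩
        · refine ⟨by simpa using hb, Or.inr (by simpa using hc)⟩
      have hc2 : ({c + a, c + b} : Finset G).card = 2 := by
        apply Finset.card_pair
        intro h
        exact hab (add_left_cancel h)
      rw [← hc2]; exact Finset.card_le_card hp
    · omega
  have h1 : M + {c} = (M + {c}) ∩ (M + {a}) ∪ (M + {c}) ∩ (M + {b}) := by
    rw [← Finset.inter_union_distrib_left]
    exact (Finset.inter_eq_left.2 hsub).symm
  have h3 := Finset.card_union_le ((M + {c}) ∩ (M + {a})) ((M + {c}) ∩ (M + {b}))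
  rw [← h1, card_tr] at h3
  have j1 : ((M + {c}) ∩ (M + {a})).card ≤ 1 := S.small_inter (Ne.symm hac)
  have j2 : ((M + {c}) ∩ (M + {b})).card ≤ 1 := S.small_inter (Ne.symm hbc)
  omega

end core

end Pool.Agent.LibWSF
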