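import Pool.Agent.LibWSF.CaseI

/-!
# Modulus twice a prime
-/

set_option autoImplicit false
set_option linter.unusedSectionVars false
set_option linter.unusedVariables false

namespace Pool.Agent.LibWSF

open Finset
open scoped Pointwise
open Pool.Agent.LibKneser

/-- every nonzero element is a sum of three elements -/
def Full {G : Type*} [AddCommGroup G] (B : Finset G) : Prop :=
  ∀ y, y ≠ 0 → ∃ a ∈ B, ∃ b ∈ B, ∃ c ∈ B, a + b + c = y

lemma z2_cases : ∀ x : ZMod 2, x = 0 ∨ x = 1 := by decide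

lemma seven_aux : ∀ (i i' j : Fin 3), 1 ≤ (i : ℕ) → ∀ e d : ZMod 7, d ≠ 0 →
    6 * e + ((j : ℕ) : ZMod 7) * d = 0 →
    18 * (-(2 * e) - ((i : ℕ) : ZMod 7) * d + (e - ((i' : ℕ) : ZMod 7) * d)) =
      15 * (4 * (1 - ((j : ℕ) : ZMod 7)) * d) → False := by decide

lemma seven_aux3 : (15 : ZMod 7) = 1 := by decide

section

variable {p : ℕ} [hp : Fact p.Prime]

/-- reduction modulo two -/
def toTwo (p : ℕ) : ZMod (2 * p) →+* ZMod 2 := ZMod.castHom (Dvd.intro p rfl) (ZMod 2)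

/-- reduction modulo `p` -/
def toP (p : ℕ) : ZMod (2 * p) →+* ZMod p := ZMod.castHom (Dvd.intro_left 2 rfl) (ZMod p)

lemma joint_inj (hp2 : p % 2 = 1) {x : ZMod (2 * p)} (h1 : toTwo p x = 0) (h2 : toP p x = 0) :
    x = 0 := by
  have hp0 := hp.out.pos
  have : NeZero (2 * p) := ⟨by omega⟩
  rw [← ZMod.natCast_zmod_val x] at h1 h2 ⊢
  rw [map_natCast, ZMod.natCast_eq_zero_iff] at h1 h2
  rw [ZMod.natCast_eq_zero_iff]
  apply Nat.Coprime.mul_dvd_of_dvd_of_dvd _ h1 h2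
  rw [Nat.coprime_two_left, Nat.odd_iff]
  exact hp2

lemma joint_inj' (hp2 : p % 2 = 1) {x y : ZMod (2 * p)} (h1 : toTwo p x = toTwo p y)
    (h2 : toP p x = toP p y) : x = y := by
  rw [← sub_eq_zero]
  apply joint_inj hp2
  · rw [map_sub, h1, sub_self]
  · rw [map_sub, h2, sub_self]

/-- the structure of an extremal set modulo `2p` -/
theorem twoP (hp1 : p % 3 = 1) (hp2 : p % 2 = 1) {B : Finset (ZMod (2 * p))}
    (hc : 3 * B.card = 2 * p + 1) (hz : NoZ B) (hf : Full B) :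
    toTwo p (∑ x ∈ B, x) = 1 ∧
    ∃ (e d : ZMod p) (j : ℕ), d ≠ 0 ∧ j < 3 ∧ 6 * e + j * d = 0 ∧
      (∀ x ∈ B, toTwo p x = 0 → ∃ i : ℕ, 1 ≤ i ∧ 3 * i + 1 ≤ p ∧ toP p x = -(2 * e) - i * d) ∧
      (∀ x ∈ B, toTwo p x = 1 → ∃ i : ℕ, 3 * i < p + 2 ∧ toP p x = e - i * d) ∧
      18 * toP p (∑ x ∈ B, x) = 4 * (1 - j) * d := by
  classical
  have hp0 := hp.out.pos
  have hp3 : 3 ≤ p := by
    have := hp.out.two_le
    omega
  have : NeZero (2 * p) := ⟨by omega⟩
  set B0 := B.filter (fun x => toTwo p x = 0) with hB0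
  set B1 := B.filter (fun x => ¬ toTwo p x = 0) with hB1
  set E := B0.image (toP p) with hE
  set O := B1.image (toP p) with hO
  have m0 : ∀ x ∈ B0, x ∈ B ∧ toTwo p x = 0 := fun x hx => Finset.mem_filter.1 hx
  have m1 : ∀ x ∈ B1, x ∈ B ∧ toTwo p x = 1 := by
    intro x hx
    have := Finset.mem_filter.1 hx
    refine ⟨this.1, ?_⟩
    rcases z2_cases (toTwo p x) with h | h
    · exact absurd h this.2
    · exact h
  have i0 : Set.InjOn (toP p) (B0 : Set (ZMod (2 * p))) := by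
    intro x hx y hy hxy
    exact joint_inj' hp2 ((m0 x hx).2.trans (m0 y hy).2.symm) hxy
  have i1 : Set.InjOn (toP p) (B1 : Set (ZMod (2 * p))) := by
    intro x hx y hy hxy
    exact joint_inj' hp2 ((m1 x hx).2.trans (m1 y hy).2.symm) hxy
  have cE : E.card = B0.card := Finset.card_image_of_injOn i0
  have cO : O.card = B1.card := Finset.card_image_of_injOn i1
  have cB : B0.card + B1.card = B.card := Finset.card_filter_add_card_filter_not _
  have K0 : NoZ E := by
    intro x hx y hy z hz' hxyz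
    rw [hE, Finset.mem_image] at hx hy hz'
    obtain ⟨a, ha, rfl⟩ := hx
    obtain ⟨b, hb, rfl⟩ := hy
    obtain ⟨c, hc', rfl⟩ := hz'
    apply hz a (m0 a ha).1 b (m0 b hb).1 c (m0 c hc').1
    apply joint_inj hp2
    · rw [map_add, map_add, (m0 a ha).2, (m0 b hb).2, (m0 c hc').2, add_zero, add_zero]
    · rw [map_add, map_add]; exact hxyz
  have K1 : ∀ a ∈ E, ∀ b ∈ O, ∀ c ∈ O, a + b + c ≠ 0 := by
    intro x hx y hy z hz' hxyz
    rw [hE, Finset.mem_image] at hx
    rw [hO, Finset.mem_image] at hy hz'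
    obtain ⟨a, ha, rfl⟩ := hx
    obtain ⟨b, hb, rfl⟩ := hy
    obtain ⟨c, hc', rfl⟩ := hz'
    apply hz a (m0 a ha).1 b (m1 b hb).1 c (m1 c hc').1
    apply joint_inj hp2
    · rw [map_add, map_add, (m0 a ha).2, (m1 b hb).2, (m1 c hc').2, zero_add]
      decide
    · rw [map_add, map_add]; exact hxyz
  have hEne : E.Nonempty := by
    by_contra hne
    rw [Finset.not_nonempty_iff_eq_empty] at hne
    have hall : ∀ x ∈ B, toTwo p x = 1 := by
      intro x hx
      rcases z2_cases (toTwo p x) with h | h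
      · exfalso
        have : toP p x ∈ E := Finset.mem_image_of_mem _ (Finset.mem_filter.2 ⟨hx, h⟩)
        rw [hne] at this
        simp at this
      · exact h
    have h2ne : (2 : ZMod (2 * p)) ≠ 0 := by
      intro h
      have h' : ((2 : ℕ) : ZMod (2 * p)) = 0 := by exact_mod_cast h
      rw [ZMod.natCast_eq_zero_iff] at h'
      have := Nat.le_of_dvd (by norm_num) h'
      omega
    obtain ⟨a, ha, b, hb, c, hc', habc⟩ := hf 2 h2ne
    have := congrArg (toTwo p) habc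
    rw [map_add, map_add, hall a ha, hall b hb, hall c hc'] at this
    have h2 : toTwo p 2 = 2 := map_ofNat _ 2
    rw [h2] at this
    revert this; decide
  have hcEO : 3 * (E.card + O.card) = 2 * p + 1 := by rw [cE, cO, cB]; exact hc
  obtain ⟨n1, n2⟩ := counts2 hp1 hEne hcEO K0 K1
  obtain ⟨e, d, j, hd, hj, hje, s1, s2, s3⟩ := struct2 hp1 hEne hcEO K0 K1
  have hsplit : ∑ x ∈ B, x = ∑ x ∈ B0, x + ∑ x ∈ B1, x :=
    (Finset.sum_filter_add_sum_filter_not B (fun x => toTwo p x = 0) (fun x => x)).symm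
  have hπ : toP p (∑ x ∈ B, x) = ∑ x ∈ E, x + ∑ x ∈ O, x := by
    rw [hsplit, map_add, map_sum, map_sum, hE, hO, Finset.sum_image i0, Finset.sum_image i1]
  refine ⟨?_, e, d, j, hd, hj, hje, ?_, ?_, ?_⟩
  · rw [hsplit, map_add, map_sum, map_sum,
      Finset.sum_congr rfl (fun x hx => (m0 x hx).2), Finset.sum_congr rfl (fun x hx => (m1 x hx).2)]
    rw [Finset.sum_const_zero, zero_add, Finset.sum_const, nsmul_eq_mul, mul_one, ← cO]
    have : O.card % 2 = 1 := by omega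
    have h2 : ((O.card : ℕ) : ZMod 2) = ((1 : ℕ) : ZMod 2) := by
      rw [ZMod.natCast_eq_natCast_iff']
      omega
    rw [h2]; norm_num
  · intro x hx hx0
    obtain ⟨i, hi1, hi2, hix⟩ := s1 (toP p x) (Finset.mem_image_of_mem _
      (Finset.mem_filter.2 ⟨hx, hx0⟩))
    exact ⟨i, hi1, by omega, hix⟩
  · intro x hx hx1
    obtain ⟨i, hi1, hix⟩ := s2 (toP p x) (Finset.mem_image_of_mem _
      (Finset.mem_filter.2 ⟨hx, by rw [hx1]; decide⟩))
    exact ⟨i, by omega, hix⟩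
  · rw [hπ]; exact s3

/-- no holes: impossible for odd `m` -/
lemma twoP_zero (hp1 : p % 3 = 1) (hp2 : p % 2 = 1) {B : Finset (ZMod (2 * p))}
    (hc : 3 * B.card = 2 * p + 1) (hz : NoZ B) (hf : Full B) {h m : ℕ} (hm : m % 2 = 1)
    (hh : h % 2 = 1) {t : ZMod (2 * p)}
    (he : 3 * t = h * ∑ x ∈ B, x + m * t) : False := by
  obtain ⟨h1, _⟩ := twoP hp1 hp2 hc hz hf
  have h2 := congrArg (toTwo p) he
  have h3 : toTwo p 3 = 3 := map_ofNat _ 3
  rw [map_mul, map_add, map_mul, map_mul, h1, map_natCast, map_natCast, h3] at h2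
  have a1 : ((h : ℕ) : ZMod 2) = ((1 : ℕ) : ZMod 2) := by
    rw [ZMod.natCast_eq_natCast_iff']; omega
  have a2 : ((m : ℕ) : ZMod 2) = ((1 : ℕ) : ZMod 2) := by
    rw [ZMod.natCast_eq_natCast_iff']; omega
  rw [a1, a2] at h2
  generalize toTwo p t = y at h2
  revert h2
  revert y
  decide

lemma natCast_of_dvd_sub {q m : ℕ} (hm3 : 3 ≤ m) (hd : q ∣ m - 3) : (m : ZMod q) = 3 := by
  have h1 : ((m - 3 : ℕ) : ZMod q) = 0 := (ZMod.natCast_eq_zero_iff _ _).2 hd
  rw [Nat.cast_sub hm3, sub_eq_zero] at h1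
  rw [h1]; norm_num

/-- one hole -/
lemma twoP_one (hp1 : p % 3 = 1) (hp2 : p % 2 = 1) {B : Finset (ZMod (2 * p))}
    (hc : 3 * B.card = 2 * p + 1) (hz : NoZ B) (hf : Full B) {h m : ℕ} (hm : m % 2 = 1)
    (hh : h % 2 = 0) {t x : ZMod (2 * p)} (hm3 : 3 ≤ m) (hpm : p ∣ m - 3)
    (hn : 3 * (m + 1) = (2 * p + 1) * h) (hx : x ∈ B)
    (he : x + 3 * t = h * ∑ x ∈ B, x + m * t) : p = 7 := by
  obtain ⟨h1, e, d, j, hd, hj, hje, s1, s2, s3⟩ := twoP hp1 hp2 hc hz hf
  have hp5 : 5 ≤ p := by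
    by_contra hlt
    have : p = 1 ∨ p = 4 := by omega
    rcases this with h | h
    · exact hp.out.one_lt.ne' h
    · omega
  have h2 := congrArg (toTwo p) he
  have h3 : toTwo p 3 = 3 := map_ofNat _ 3
  rw [map_add, map_mul, map_add, map_mul, map_mul, h1, map_natCast, map_natCast, h3] at h2
  have a1 : ((h : ℕ) : ZMod 2) = ((0 : ℕ) : ZMod 2) := by
    rw [ZMod.natCast_eq_natCast_iff']; omega
  have a2 : ((m : ℕ) : ZMod 2) = ((1 : ℕ) : ZMod 2) := by
    rw [ZMod.natCast_eq_natCast_iff']; omega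
  have hx0 : toTwo p x = 0 := by
    rw [a1, a2] at h2
    generalize toTwo p t = y at h2
    generalize toTwo p x = z at h2 ⊢
    revert h2
    revert y z
    decide
  obtain ⟨i, hi1, hi2, hix⟩ := s1 x hx hx0
  have h4 := congrArg (toP p) he
  have h5 : toP p 3 = 3 := map_ofNat _ 3
  rw [map_add, map_mul, map_add, map_mul, map_mul, map_natCast, map_natCast, h5,
    natCast_of_dvd_sub hm3 hpm] at h4
  have h6 : toP p x = h * toP p (∑ x ∈ B, x) := by
    have := add_right_cancel h4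
    exact this
  have hh12 : (h : ZMod p) = 12 := by
    have := congrArg (fun n : ℕ => (n : ZMod p)) hn
    push_cast at this
    rw [natCast_of_dvd_sub hm3 hpm, ZMod.natCast_self] at this
    rw [mul_zero, zero_add, one_mul] at this
    rw [← this]; norm_num
  -- 18 x = 12 * 4 (1 - j) d
  have h7 : (18 * toP p x : ZMod p) = 12 * (4 * (1 - j) * d) := by
    rw [h6, hh12, ← s3]; ring
  rw [hix] at h7
  -- 6 (9 j - 3 i - 8) d = 0
  have h8 : (6 * (9 * j - 3 * i - 8) * d : ZMod p) = 0 := by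
    linear_combination h7 + 6 * hje
  have h6ne : (6 : ZMod p) ≠ 0 := by
    intro h
    have h' : ((6 : ℕ) : ZMod p) = 0 := by exact_mod_cast h
    rw [ZMod.natCast_eq_zero_iff] at h'
    have := Nat.le_of_dvd (by norm_num) h'
    have : p = 5 ∨ p = 6 := by omega
    rcases this with rfl | rfl
    · omega
    · omega
  have h9 : (9 * j - 3 * i - 8 : ZMod p) = 0 := by
    rcases mul_eq_zero.1 h8 with h | h
    · rcases mul_eq_zero.1 h with h | h
      · exact absurd h h6ne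
      · exact h
    · exact absurd h hd
  have h10 : ((9 * j : ℕ) : ZMod p) = ((3 * i + 8 : ℕ) : ZMod p) := by
    push_cast
    linear_combination h9
  rw [ZMod.natCast_eq_natCast_iff] at h10
  have h11 : ((3 * i + 8 : ℕ) : ℤ) ≡ ((9 * j : ℕ) : ℤ) [ZMOD p] := by
    rw [Int.natCast_modEq_iff]; exact h10.symm
  obtain ⟨c, hc'⟩ := h11.dvd
  push_cast at hc'
  -- 9 j - (3 i + 8) = p c
  interval_cases j
  · have hb1 : (p : ℤ) * c ≤ 0 - 11 := by rw [← hc']; omega
    have hb2 : 0 - (p : ℤ) - 7 ≤ (p : ℤ) * c := by rw [← hc']; omega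
    have hc1 : c < 0 := by nlinarith
    have hc2 : -3 < c := by nlinarith
    have : c = -1 ∨ c = -2 := by omega
    rcases this with rfl | rfl
    · omega
    · omega
  · have hb1 : (p : ℤ) * c ≤ 9 - 11 := by rw [← hc']; omega
    have hb2 : 9 - (p : ℤ) - 7 ≤ (p : ℤ) * c := by rw [← hc']; omega
    have hc1 : c < 0 := by nlinarith
    have hc2 : -1 < c := by nlinarith
    omega
  · have hb1 : (p : ℤ) * c ≤ 18 - 11 := by rw [← hc']; omega
    have hb2 : 18 - (p : ℤ) - 7 ≤ (p : ℤ) * c := by rw [← hc']; omega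
    have hc1 : c < 2 := by nlinarith
    have hc2 : -1 < c := by nlinarith
    have : c = 0 ∨ c = 1 := by omega
    rcases this with rfl | rfl
    · omega
    · omega

end

/-- two holes for `p = 7` -/
lemma twoP_two [hp : Fact (Nat.Prime 7)] {B : Finset (ZMod (2 * 7))}
    (hc : 3 * B.card = 2 * 7 + 1) (hz : NoZ B) (hf : Full B) {h m : ℕ} (hm : m % 2 = 1)
    (hh : h % 2 = 1) {t x y : ZMod (2 * 7)} (hm3 : 3 ≤ m) (hpm : 7 ∣ m - 3)
    (hn : 3 * (m + 2) = (2 * 7 + 1) * h) (hx : x ∈ B) (hy : y ∈ B)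
    (he : x + y + 3 * t = h * ∑ x ∈ B, x + m * t) : False := by
  obtain ⟨h1, e, d, j, hd, hj, hje, s1, s2, s3⟩ := twoP (p := 7) (by norm_num) (by norm_num) hc hz hf
  have h2 := congrArg (toTwo 7) he
  have h3 : toTwo 7 3 = 3 := map_ofNat _ 3
  rw [map_add, map_add, map_mul, map_add, map_mul, map_mul, h1, map_natCast, map_natCast, h3] at h2
  have a1 : ((h : ℕ) : ZMod 2) = ((1 : ℕ) : ZMod 2) := by
    rw [ZMod.natCast_eq_natCast_iff']; omega
  have a2 : ((m : ℕ) : ZMod 2) = ((1 : ℕ) : ZMod 2) := by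
    rw [ZMod.natCast_eq_natCast_iff']; omega
  have h4 := congrArg (toP 7) he
  have h5 : toP 7 3 = 3 := map_ofNat _ 3
  rw [map_add, map_add, map_mul, map_add, map_mul, map_mul, map_natCast, map_natCast, h5,
    natCast_of_dvd_sub hm3 hpm] at h4
  have h6 : toP 7 x + toP 7 y = h * toP 7 (∑ x ∈ B, x) := by
    have := add_right_cancel h4
    exact this
  have hh1 : (h : ZMod 7) = 15 := by
    have := congrArg (fun n : ℕ => (n : ZMod 7)) hn
    push_cast at this
    rw [natCast_of_dvd_sub hm3 hpm] at this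
    have e2 : (15 : ZMod 7) = 1 := seven_aux3
    rw [e2, one_mul] at this
    rw [← this]; norm_num
  have key : ∀ x y : ZMod (2 * 7), x ∈ B → y ∈ B → toTwo 7 x = 0 → toTwo 7 y = 1 →
      toP 7 x + toP 7 y = h * toP 7 (∑ x ∈ B, x) → False := by
    intro x y hx hy hx0 hy1 hxy
    obtain ⟨i, hi1, hi2, hix⟩ := s1 x hx hx0
    obtain ⟨i', hi2', hiy⟩ := s2 y hy hy1
    rw [hix, hiy, hh1] at hxy
    have h7 : ((18 : ZMod 7) * (-(2 * e) - i * d + (e - i' * d)) : ZMod 7) =
        15 * (4 * (1 - j) * d) := by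
      rw [hxy, ← s3]; ring
    exact seven_aux ⟨i, by omega⟩ ⟨i', by omega⟩ ⟨j, hj⟩ hi1 e d hd hje h7
  rcases z2_cases (toTwo 7 x) with hx0 | hx1
  · rcases z2_cases (toTwo 7 y) with hy0 | hy1
    · exfalso
      rw [a1, a2, hx0, hy0] at h2
      generalize toTwo 7 t = z at h2
      revert h2
      revert z
      decide
    · exact key x y hx hy hx0 hy1 h6
  · rcases z2_cases (toTwo 7 y) with hy0 | hy1
    · exact key y x hy hx hy0 hx1 (by rw [add_comm]; exact h6)
    · exfalso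
      rw [a1, a2, hx1, hy1] at h2
      generalize toTwo 7 t = z at h2
      revert h2
      revert z
      decide

end Pool.Agent.LibWSF
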