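import Pool.Agent.LibWSF.Types

/-!
# Extremal sets without zero sum triples: prime modulus and modulus eight
-/

set_option autoImplicit false
set_option linter.unusedSectionVars false
set_option linter.unusedVariables false

namespace Pool.Agent.LibWSF

open Finset
open scoped Pointwise
open Pool.Agent.LibKneser

/-- no zero sum triple -/
def NoZ {G : Type*} [AddCommGroup G] (B : Finset G) : Prop :=
  ∀ x ∈ B, ∀ y ∈ B, ∀ z ∈ B, x + y + z ≠ 0

lemma NoZ.onlyDiag {G : Type*} [AddCommGroup G] {B : Finset G} (h : NoZ B) : OnlyDiag B :=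
  fun x hx y hy z hz h0 => absurd h0 (h x hx y hy z hz)

lemma NoZ.tor {G : Type*} [AddCommGroup G] [Fintype G] [DecidableEq G] {B : Finset G}
    (h : NoZ B) : tor B = ∅ := by
  ext x
  rw [mem_tor]
  simp only [Finset.notMem_empty, iff_false]
  rintro ⟨h1, h2⟩
  exact h x h1 x h1 x h1 h2

/-- a progression without zero sum triples of extremal size -/
lemma ap_noZ {G : Type*} [AddCommGroup G] [Fintype G] [DecidableEq G] {B : Finset G}
    (h : NoZ B) (hc : 3 * B.card = Fintype.card G + 1) {d : G}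
    (hd : (B + {0, d}).card = B.card + 1) (ht : AddSubgroup.zmultiples d = ⊤) :
    ∃ e : G, AddSubgroup.zmultiples e = ⊤ ∧
      B = (Finset.range B.card).image (fun i : ℕ => (3 * i + 1) • e) := by
  obtain ⟨e, he⟩ := ap_top hd ht
  have hord := addOrderOf_top ht
  have hmem : ∀ i < B.card, e - i • d ∈ B := by
    intro i hi
    have : e - i • d ∈ (Finset.range B.card).image (fun i : ℕ => e - i • d) :=
      Finset.mem_image.2 ⟨i, Finset.mem_range.2 hi, rfl⟩
    rwa [← he] at this
  have h3 : e + e + e ∈ AddSubgroup.zmultiples d := by rw [ht]; exact AddSubgroup.mem_top _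
  obtain ⟨k, hk, hke⟩ := exists_nsmul h3
  rw [hord] at hk
  have hk2 : k = 3 * B.card - 2 := by
    by_contra hne
    -- k ≤ 3 b - 3 : write k = i + j + l
    have hk3 : k ≤ 3 * (B.card - 1) := by omega
    obtain ⟨i, j, l, hi, hj, hl, hijl⟩ : ∃ i j l : ℕ, i < B.card ∧ j < B.card ∧ l < B.card ∧
        i + j + l = k := by
      rcases Nat.lt_or_ge k B.card with h1 | h1
      · exact ⟨k, 0, 0, h1, by omega, by omega, by omega⟩
      · rcases Nat.lt_or_ge k (2 * B.card - 1) with h2 | h2
        · exact ⟨B.card - 1, k - (B.card - 1), 0, by omega, by omega, by omega, by omega⟩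
        · exact ⟨B.card - 1, B.card - 1, k - 2 * (B.card - 1), by omega, by omega, by omega,
            by omega⟩
    apply h _ (hmem i hi) _ (hmem j hj) _ (hmem l hl)
    have : (i + j + l) • d = i • d + j • d + l • d := by rw [add_nsmul, add_nsmul]
    calc e - i • d + (e - j • d) + (e - l • d) = (e + e + e) - (i • d + j • d + l • d) := by abel
      _ = 0 := by rw [← this, hijl, hke, sub_self]
  have hcd : (Fintype.card G) • d = 0 := by rw [← hord]; exact addOrderOf_nsmul_eq_zero d
  have hde : d = -(e + e + e) := by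
    have h1 : (k + 1) • d = 0 := by
      rw [show k + 1 = Fintype.card G by omega]; exact hcd
    rw [succ_nsmul, hke] at h1
    exact (neg_eq_of_add_eq_zero_right h1).symm
  refine ⟨e, ?_, ?_⟩
  · rw [eq_top_iff, ← ht]
    rw [AddSubgroup.zmultiples_le, hde]
    exact (AddSubgroup.zmultiples e).neg_mem ((AddSubgroup.zmultiples e).add_mem
      ((AddSubgroup.zmultiples e).add_mem (AddSubgroup.mem_zmultiples e)
        (AddSubgroup.mem_zmultiples e)) (AddSubgroup.mem_zmultiples e))
  · refine he.trans ?_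
    congr 1
    ext i
    rw [hde, smul_neg, sub_neg_eq_add, add_nsmul, one_nsmul, mul_comm, mul_nsmul]
    have : 3 • e = e + e + e := by rw [show 3 = 1 + 1 + 1 from rfl, add_nsmul, add_nsmul, one_nsmul]
    rw [← this, smul_comm, add_comm]

lemma typeI_five : ∀ B : Finset (ZMod 5), B.card = 2 →
    (∀ x ∈ B, ∀ y ∈ B, ∀ z ∈ B, x + y + z ≠ 0) → ∑ x ∈ B, x = 0 := by decide

lemma prime_sub {p : ℕ} [hp : Fact p.Prime] (H : AddSubgroup (ZMod p)) : H = ⊥ ∨ H = ⊤ :=
  haveI : Fact (Nat.card (ZMod p)).Prime := ⟨by rw [Nat.card_zmod]; exact hp.out⟩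
  H.eq_bot_or_eq_top_of_prime_card

/-- prime modulus: the sum of an extremal set is zero -/
theorem typeI_prime {p : ℕ} [hp : Fact p.Prime] (hp3 : p % 3 = 2) (hp5 : 5 ≤ p)
    {B : Finset (ZMod p)} (h : NoZ B) (hc : 3 * B.card = p + 1) : ∑ x ∈ B, x = 0 := by
  rcases Nat.lt_or_ge p 11 with hsmall | hbig
  · have : p = 5 := by
      interval_cases p
      · rfl
      · omega
      · omega
      · exact absurd hp.out (by norm_num)
      · omega
      · omega
    subst this
    exact typeI_five B (by omega) h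
  · have hne : B.Nonempty := by rw [← Finset.card_pos]; omega
    have hup := upper h.onlyDiag
    rw [h.tor, Finset.card_empty, ZMod.card] at hup
    have hcd := ZMod.cauchy_davenport hp.out hne hne
    have h2 : (B + B).card + 1 = 2 * B.card := by omega
    rcases structure_thm B (by omega) h2 (by rw [ZMod.card]; omega) with ⟨d, hd, hdA⟩ | ⟨H, h1, h2, h3⟩
    · have ht : AddSubgroup.zmultiples d = ⊤ := by
        rcases prime_sub (AddSubgroup.zmultiples d) with h1 | h1
        · exact absurd (AddSubgroup.zmultiples_eq_bot.1 h1) hd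
        · exact h1
      obtain ⟨e, _, he⟩ := ap_noZ h (by rw [ZMod.card]; exact hc) hdA ht
      have hinj : Set.InjOn (fun i : ℕ => (3 * i + 1) • e) (Finset.range B.card : Set ℕ) := by
        rw [← Finset.card_image_iff, ← he, Finset.card_range]
      have hs : ∑ x ∈ B, x = (∑ i ∈ Finset.range B.card, (3 * i + 1)) • e := by
        conv_lhs => rw [he]
        rw [Finset.sum_image (fun a ha b hb h => hinj ha hb h), Finset.sum_smul]
      rw [hs, Finset.sum_add_distrib, ← Finset.mul_sum, Finset.sum_const, Finset.card_range,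
        smul_eq_mul, mul_one]
      have h2 : (Finset.range B.card).sum (fun i => i) * 2 = B.card * (B.card - 1) :=
        Finset.sum_range_id_mul_two _
      have h3 : (3 * (Finset.range B.card).sum (fun i => i) + B.card) * 2 = B.card * p := by
        obtain ⟨c, hc2⟩ : ∃ c, B.card = c + 1 := ⟨B.card - 1, by omega⟩
        have hp' : p = 3 * c + 2 := by omega
        rw [hc2] at h2 ⊢
        rw [hp']
        rw [Nat.add_sub_cancel] at h2
        nlinarith
      have h4 : p ∣ 3 * (Finset.range B.card).sum (fun i => i) + B.card := by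
        have h5 : p ∣ (3 * (Finset.range B.card).sum (fun i => i) + B.card) * 2 := ⟨B.card, by
          rw [h3, mul_comm]⟩
        have hcop : Nat.Coprime p 2 := by
          rw [Nat.coprime_primes hp.out Nat.prime_two]; omega
        exact hcop.dvd_of_dvd_mul_right h5
      rw [nsmul_eq_mul, (ZMod.natCast_eq_zero_iff _ _).2 h4, zero_mul]
    · exfalso
      rcases prime_sub H with h4 | h4
      · exact h1 h4
      · exact h2 h4

lemma typeI_eight_aux : ∀ a b c : ZMod 8,
    a + a + a ≠ 0 → b + b + b ≠ 0 → c + c + c ≠ 0 → a + a + b ≠ 0 → a + a + c ≠ 0 →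
    b + b + a ≠ 0 → b + b + c ≠ 0 → c + c + a ≠ 0 → c + c + b ≠ 0 → a + b + c ≠ 0 →
    a ≠ b → a ≠ c → b ≠ c → (a + a + a + a = 0 ∨ b + b + b + b = 0 ∨ c + c + c + c = 0) →
    a + (b + c) ≠ 0 ∧ 4 * (a + (b + c)) = 0 := by
  decide

/-- modulus eight -/
theorem typeI_eight (B : Finset (ZMod 8)) (hc : B.card = 3) (h : NoZ B)
    (he : ∃ x ∈ B, x + x + x + x = 0) : ∑ x ∈ B, x ≠ 0 ∧ 4 * ∑ x ∈ B, x = 0 := by
  obtain ⟨a, b, c, hab, hac, hbc, rfl⟩ := Finset.card_eq_three.1 hc
  have ha : a ∈ ({a, b, c} : Finset (ZMod 8)) := by simp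
  have hb : b ∈ ({a, b, c} : Finset (ZMod 8)) := by simp
  have hc' : c ∈ ({a, b, c} : Finset (ZMod 8)) := by simp
  rw [Finset.sum_insert (by simp [hab, hac]), Finset.sum_pair hbc]
  apply typeI_eight_aux a b c (h _ ha _ ha _ ha) (h _ hb _ hb _ hb) (h _ hc' _ hc' _ hc')
    (h _ ha _ ha _ hb) (h _ ha _ ha _ hc') (h _ hb _ hb _ ha) (h _ hb _ hb _ hc')
    (h _ hc' _ hc' _ ha) (h _ hc' _ hc' _ hb) (h _ ha _ hb _ hc') hab hac hbc
  obtain ⟨x, hx, hx0⟩ := he
  simp only [Finset.mem_insert, Finset.mem_singleton] at hx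
  rcases hx with rfl | rfl | rfl
  · exact Or.inl hx0
  · exact Or.inr (Or.inl hx0)
  · exact Or.inr (Or.inr hx0)

end Pool.Agent.LibWSF
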