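import Pool.Agent.LibWSF.AP

/-!
# The sum of an extremal set modulo 7 and modulo 2
-/

set_option autoImplicit false
set_option linter.unusedSectionVars false
set_option linter.unusedVariables false

namespace Pool.Agent.LibWSF

open Finset
open scoped Pointwise
open Pool.Agent.LibKneser

section fibers

variable {G : Type*} [AddCommGroup G] [Fintype G] [DecidableEq G]
variable {M : Type*} [AddCommGroup M]

lemma sum_cos (φ : G →+ M) (H : AddSubgroup G) (x : G) :
    ∑ y ∈ cos H x, φ y = (fs H).card • φ x + ∑ t ∈ fs H, φ t := by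
  have e : cos H x = (fs H).image (fun t => t + x) := by
    ext y
    rw [mem_cos, Finset.mem_image]
    constructor
    · intro h
      exact ⟨y - x, mem_fs.2 h, by abel⟩
    · rintro ⟨t, ht, rfl⟩
      rw [mem_fs] at ht
      rwa [add_sub_cancel_right]
  rw [e, Finset.sum_image (fun a _ b _ h => add_right_cancel h)]
  simp only [map_add]
  rw [Finset.sum_add_distrib, Finset.sum_const, add_comm]

lemma sum_part_zero (φ : G →+ M) (A : Finset G) (H : AddSubgroup G) :
    ∑ y ∈ part A H 0, φ y = ∑ t ∈ sub A H 0, φ (t : G) := by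
  classical
  rw [← Finset.sum_image (f := φ) (s := sub A H 0) (g := fun t : H => (t : G))
    (fun a _ b _ h => Subtype.ext h)]
  congr 1
  ext x
  rw [Finset.mem_image, mem_part]
  constructor
  · rintro ⟨h1, h2⟩
    rw [sub_zero] at h2
    exact ⟨⟨x, h2⟩, by rw [mem_sub, zero_add]; exact h1, rfl⟩
  · rintro ⟨t, ht, rfl⟩
    rw [mem_sub] at ht
    exact ⟨by simpa using ht, by rw [sub_zero]; exact t.2⟩

lemma fiber_zero (A : Finset G) (H : AddSubgroup G) :
    A.filter (fun y => (QuotientAddGroup.mk y : G ⧸ H) = 0) = part A H 0 := by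
  ext y
  rw [Finset.mem_filter, mem_part, QuotientAddGroup.eq_zero_iff, sub_zero]

lemma fiber_full {A : Finset G} {H : AddSubgroup G} (hf : ∀ a ∈ A, a ∉ H → cos H a ⊆ A)
    {x : G} (hx : x ∈ A) (hxH : x ∉ H) :
    A.filter (fun y => (QuotientAddGroup.mk y : G ⧸ H) = QuotientAddGroup.mk x) = cos H x := by
  ext y
  rw [Finset.mem_filter]
  constructor
  · rintro ⟨_, h⟩
    rw [mem_cos]
    have := (QuotientAddGroup.eq (s := H)).1 h.symm
    rwa [neg_add_eq_sub] at this
  · intro h
    refine ⟨hf x hx hxH h, ?_⟩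
    rw [mem_cos] at h
    symm
    rw [QuotientAddGroup.eq, neg_add_eq_sub]
    exact h

/-- decomposition of the sum -/
lemma sum_decomp (φ : G →+ M) {A : Finset G} {H : AddSubgroup G} (h0 : (0 : G) ∈ A)
    (hf : ∀ a ∈ A, a ∉ H → cos H a ⊆ A) (c : M)
    (hc : ∀ x ∈ A, x ∉ H → (fs H).card • φ x + ∑ t ∈ fs H, φ t = c) :
    ∑ a ∈ A, φ a = ∑ t ∈ sub A H 0, φ (t : G) + ((img A H).card - 1) • c := by
  classical
  have hmaps : ∀ a ∈ A, (QuotientAddGroup.mk a : G ⧸ H) ∈ img A H := by
    intro a ha
    unfold img
    exact Finset.mem_image_of_mem _ ha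
  rw [← Finset.sum_fiberwise_of_maps_to hmaps]
  have h0img : (0 : G ⧸ H) ∈ img A H := hmaps 0 h0
  rw [← Finset.add_sum_erase _ _ h0img, fiber_zero, sum_part_zero]
  congr 1
  rw [← Finset.card_erase_of_mem h0img, ← Finset.sum_const]
  apply Finset.sum_congr rfl
  intro a ha
  rw [Finset.mem_erase] at ha
  obtain ⟨ha0, ha1⟩ := ha
  unfold img at ha1
  rw [Finset.mem_image] at ha1
  obtain ⟨x, hx, rfl⟩ := ha1
  have hxH : x ∉ H := fun h => ha0 ((QuotientAddGroup.eq_zero_iff x).2 h)
  rw [fiber_full hf hx hxH, sum_cos]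
  exact hc x hx hxH

/-- decomposition when the homomorphism kills `H` -/
lemma sum_decomp_ker (φ : G →+ M) {A : Finset G} {H : AddSubgroup G} (h0 : (0 : G) ∈ A)
    (hf : ∀ a ∈ A, a ∉ H → cos H a ⊆ A) (hk : ∀ t ∈ H, φ t = 0) :
    ∑ a ∈ A, φ a = (fs H).card • (QuotientAddGroup.lift H φ hk) (∑ x ∈ img A H, x) := by
  classical
  have hmaps : ∀ a ∈ A, (QuotientAddGroup.mk a : G ⧸ H) ∈ img A H := by
    intro a ha
    unfold img
    exact Finset.mem_image_of_mem _ ha
  rw [← Finset.sum_fiberwise_of_maps_to hmaps, map_sum, Finset.smul_sum]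
  apply Finset.sum_congr rfl
  intro a ha
  unfold img at ha
  rw [Finset.mem_image] at ha
  obtain ⟨x, hx, rfl⟩ := ha
  have hlift : (QuotientAddGroup.lift H φ hk) (QuotientAddGroup.mk x) = φ x := rfl
  by_cases hxH : x ∈ H
  · have h1 : (QuotientAddGroup.mk x : G ⧸ H) = 0 := (QuotientAddGroup.eq_zero_iff x).2 hxH
    rw [h1, map_zero, smul_zero, fiber_zero]
    apply Finset.sum_eq_zero
    intro y hy
    rw [mem_part, sub_zero] at hy
    exact hk y hy.2
  · have h2 : ∀ y ∈ A.filter (fun y => (QuotientAddGroup.mk y : G ⧸ H) = QuotientAddGroup.mk x),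
        φ y = φ x := by
      intro y hy
      rw [Finset.mem_filter] at hy
      have : (QuotientAddGroup.lift H φ hk) (QuotientAddGroup.mk y) =
        (QuotientAddGroup.lift H φ hk) (QuotientAddGroup.mk x) := by rw [hy.2]
      exact this
    rw [Finset.sum_congr rfl h2, Finset.sum_const, fiber_full hf hx hxH, card_cos, hlift]

end fibers

lemma surj_dvd {G : Type*} [AddCommGroup G] [Fintype G] {p : ℕ} [NeZero p] (φ : G →+ ZMod p)
    (hφ : Function.Surjective φ) : p ∣ Fintype.card G := by
  have h := AddSubgroup.card_eq_card_quotient_mul_card_addSubgroup φ.ker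
  have e : Nat.card (G ⧸ φ.ker) = Nat.card (ZMod p) :=
    Nat.card_congr (QuotientAddGroup.quotientKerEquivOfSurjective φ hφ).toEquiv
  rw [e, Nat.card_zmod, Nat.card_eq_fintype_card] at h
  exact ⟨_, h⟩

/-- a homomorphism to `ZMod p` is zero or surjective -/
lemma zero_or_surj {G : Type*} [AddCommGroup G] {p : ℕ} [Fact p.Prime] (φ : G →+ ZMod p) :
    (∀ x, φ x = 0) ∨ Function.Surjective φ := by
  by_cases h : ∀ x, φ x = 0
  · exact Or.inl h
  · right
    push Not at h
    obtain ⟨x, hx⟩ := h
    intro y
    refine ⟨(y * (φ x)⁻¹).val • x, ?_⟩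
    rw [map_nsmul, nsmul_eq_mul, ZMod.natCast_zmod_val, mul_assoc, inv_mul_cancel₀ hx, mul_one]

lemma gen_ne_zero {G : Type*} [AddCommGroup G] {p : ℕ} [Fact p.Prime] (φ : G →+ ZMod p)
    (hφ : Function.Surjective φ) {d : G} (hd : AddSubgroup.zmultiples d = ⊤) : φ d ≠ 0 := by
  intro h
  obtain ⟨x, hx⟩ := hφ 1
  have hmem : x ∈ AddSubgroup.zmultiples d := by rw [hd]; exact AddSubgroup.mem_top _
  obtain ⟨k, rfl⟩ := AddSubgroup.mem_zmultiples_iff.1 hmem
  rw [map_zsmul, h, smul_zero] at hx
  exact zero_ne_one hx

lemma sum_ap {G : Type*} [AddCommGroup G] [Fintype G] [DecidableEq G] {A : Finset G} {d : G}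
    (hA : A = (Finset.range A.card).image (fun i : ℕ => i • d)) :
    ∑ x ∈ A, x = (∑ i ∈ Finset.range A.card, i) • d := by
  have hinj : Set.InjOn (fun i : ℕ => i • d) (Finset.range A.card : Set ℕ) := by
    rw [← Finset.card_image_iff, ← hA, Finset.card_range]
  conv_lhs => rw [hA]
  rw [Finset.sum_image (fun a ha b hb h => hinj ha hb h), Finset.sum_smul]

lemma quot_two_le {G : Type*} [AddCommGroup G] [Fintype G] {H : AddSubgroup G}
    (hHt : H ≠ ⊤) : 2 ≤ Fintype.card (G ⧸ H) := by
  by_contra hlt
  have hq1 : Fintype.card (G ⧸ H) = 1 := by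
    have : 0 < Fintype.card (G ⧸ H) := Fintype.card_pos_iff.2 ⟨0⟩
    omega
  apply hHt
  have : Subsingleton (G ⧸ H) := Fintype.card_le_one_iff_subsingleton.1 (by omega)
  exact QuotientAddGroup.subsingleton_iff.1 this |> fun h => h

theorem typeII_seven : ∀ (N : ℕ) (G : Type) [AddCommGroup G] [Fintype G] [DecidableEq G]
    (φ : G →+ ZMod 7) (A : Finset G), Fintype.card G = N → Function.Surjective φ → ¬ 49 ∣ N →
    OnlyDiag A → tor A = {0} → 3 * A.card = N + 2 → ∑ a ∈ A, φ a ≠ 0 := by
  have h20 : (2 : ZMod 7) ≠ 0 := by decide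
  have : Fact (Nat.Prime 7) := ⟨by norm_num⟩
  intro N
  induction N using Nat.strong_induction_on with
  | _ N ih =>
  intro G _ _ _ φ A hN hφ h49 hD hT hm
  have h0T : (0 : G) ∈ tor A := by rw [hT]; simp
  have h0 : (0 : G) ∈ A := (mem_tor.1 h0T).1
  have h7 : 7 ∣ N := hN ▸ surj_dvd φ hφ
  have hup := upper hD
  have hlow := two_lower_one hD (by rw [hT]; exact Finset.card_singleton _)
  rw [hT, Finset.card_singleton, hN] at hup
  have hAA : (A + A).card + 1 = 2 * A.card := by omega
  have hNpos : 0 < N := by rw [← hN]; exact Fintype.card_pos_iff.2 ⟨0⟩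
  obtain ⟨w, rfl⟩ := h7
  rcases Nat.lt_or_ge A.card 4 with hsmall | hbig
  · -- N = 7
    have hw : w = 1 := by omega
    subst hw
    have hinj : Function.Injective φ := by
      have hb : Function.Bijective φ := by
        rw [Fintype.bijective_iff_surjective_and_card]
        exact ⟨hφ, by rw [hN, ZMod.card]⟩
      exact hb.1
    have hA3 : A.card = 3 := by omega
    obtain ⟨a, b, hab, hAe⟩ : ∃ a b : G, a ≠ b ∧ A.erase 0 = {a, b} := by
      obtain ⟨a, b, h1, h2⟩ := Finset.card_eq_two.1 (show (A.erase 0).card = 2 by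
        rw [Finset.card_erase_of_mem h0]; omega)
      exact ⟨a, b, h1, h2⟩
    rw [← Finset.add_sum_erase _ _ h0, hAe, Finset.sum_pair hab, map_zero, zero_add, ← map_add]
    intro h
    have hab0 : a + b = 0 := hinj (by rw [h, map_zero])
    have ha : a ∈ A.erase 0 := by rw [hAe]; simp
    have hb : b ∈ A.erase 0 := by rw [hAe]; simp
    rw [Finset.mem_erase] at ha hb
    have := (hD 0 h0 a ha.2 b hb.2 (by rw [zero_add]; exact hab0)).1
    exact ha.1 this.symm
  · -- structure theorem
    have hmain : ∀ H : AddSubgroup G, H ≠ ⊥ → H ≠ ⊤ →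
        (A + fs H).card + 1 ≤ A.card + (fs H).card → ∑ a ∈ A, φ a ≠ 0 := by
      intro H hHb hHt hs
      have hq := q1_one hD hT hHb hs
      have hC : 3 * (part A H 0).card ≤ (fs H).card + 2 := part_bound_one hD h0T (by
        intro z hz _
        rw [hT, Finset.mem_singleton] at hz
        exact hz)
      obtain ⟨c1, c2, c3⟩ := counting h0 hq (by rw [hN]; omega) hC
      obtain ⟨hDi, hTi⟩ := img_props h0 hq
      have hcard := card_quot H
      rw [hN] at hcard
      have hh2 := two_le_fs hHb
      have hqlt : Fintype.card (G ⧸ H) < 7 * w := by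
        have : 0 < Fintype.card (G ⧸ H) := Fintype.card_pos_iff.2 ⟨0⟩
        rw [hcard]; nlinarith
      have hq2 := quot_two_le hHt
      have hhlt : (fs H).card < 7 * w := by
        rw [hcard]; nlinarith
      by_cases hk : ∀ t ∈ H, φ t = 0
      · -- factor through the quotient
        rw [sum_decomp_ker φ h0 c3 hk]
        have hsurj : Function.Surjective (QuotientAddGroup.lift H φ hk) := by
          intro y
          obtain ⟨x, hx⟩ := hφ y
          exact ⟨QuotientAddGroup.mk x, hx⟩
        have h49q : ¬ 49 ∣ Fintype.card (G ⧸ H) := by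
          intro h
          apply h49
          rw [hcard]
          exact Dvd.dvd.mul_right h _
        have hi := ih _ hqlt (G ⧸ H) (QuotientAddGroup.lift H φ hk) (img A H) rfl hsurj h49q hDi hTi c1
        rw [← map_sum] at hi
        have h7q := surj_dvd _ hsurj
        have h7h : ((fs H).card : ZMod 7) ≠ 0 := by
          intro h
          rw [ZMod.natCast_eq_zero_iff] at h
          apply h49
          rw [hcard]
          exact Nat.mul_dvd_mul h7q h
        rw [nsmul_eq_mul]
        exact mul_ne_zero h7h hi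
      · -- restrict to H
        have hψ : Function.Surjective (φ.comp H.subtype) := by
          rcases zero_or_surj (φ.comp H.subtype) with h | h
          · exfalso; apply hk
            intro t ht
            exact h ⟨t, ht⟩
          · exact h
        have h7h : 7 ∣ (fs H).card := by
          rw [← card_sub]; exact surj_dvd _ hψ
        have hsH : ∑ t ∈ fs H, φ t = 0 := by
          have h1 : ∑ t ∈ fs H, φ t = ∑ t ∈ fs H, φ (-t) := by
            apply Finset.sum_nbij' (fun t => -t) (fun t => -t)
            · intro t ht; rw [mem_fs] at ht ⊢; exact H.neg_mem ht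
            · intro t ht; rw [mem_fs] at ht ⊢; exact H.neg_mem ht
            · intro t _; simp
            · intro t _; simp
            · intro t _; simp
          simp only [map_neg, Finset.sum_neg_distrib] at h1
          have h2 : (2 : ZMod 7) * ∑ t ∈ fs H, φ t = 0 := by
            rw [two_mul]; nth_rw 1 [h1]; rw [neg_add_cancel]
          rcases mul_eq_zero.1 h2 with h | h
          · exact absurd h h20
          · exact h
        rw [sum_decomp φ h0 c3 0 (by
          intro x _ _
          rw [hsH, add_zero, nsmul_eq_mul, (ZMod.natCast_eq_zero_iff _ _).2 h7h, zero_mul]),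
          smul_zero, add_zero]
        have h49h : ¬ 49 ∣ (fs H).card := by
          intro h
          apply h49
          rw [hcard]
          exact Dvd.dvd.mul_left h _
        have hTs : tor (sub A H 0) = {0} := by
          ext t
          rw [mem_tor, mem_sub, Finset.mem_singleton, zero_add]
          constructor
          · rintro ⟨ha, hb⟩
            have hb' : (t : G) + t + t = 0 := by
              have := congrArg (fun t : H => (t : G)) hb
              simpa using this
            have : (t : G) ∈ tor A := mem_tor.2 ⟨ha, hb'⟩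
            rw [hT, Finset.mem_singleton] at this
            exact Subtype.ext this
          · rintro rfl
            exact ⟨h0, by simp⟩
        have hi := ih _ hhlt H (φ.comp H.subtype) (sub A H 0) (card_sub H) hψ h49h
          (onlyDiag_sub hD H (by simp)) hTs (by rw [card_sub_eq]; exact c2)
        exact hi
    rcases structure_thm A hbig hAA (by omega) with ⟨d, hd, hdA⟩ | ⟨H, h1, h2, h3⟩
    · by_cases ht : AddSubgroup.zmultiples d = ⊤
      · obtain ⟨d', hd', hA⟩ := ap_zero hD h0 hd hdA ht
        rw [← map_sum, sum_ap hA, map_nsmul, nsmul_eq_mul]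
        apply mul_ne_zero _ (gen_ne_zero φ hφ hd')
        intro h
        have h2 : (Finset.range A.card).sum (fun i => i) * 2 = A.card * (A.card - 1) :=
          Finset.sum_range_id_mul_two _
        rw [ZMod.natCast_eq_zero_iff] at h
        obtain ⟨u, hu⟩ := h
        rw [hu] at h2
        -- 3m = 7w+2
        obtain ⟨v, hv⟩ : ∃ v, A.card = 7 * v + 3 := ⟨A.card / 7, by omega⟩
        rw [hv] at h2
        have h3 : 7 * v + 3 - 1 = 7 * v + 2 := by omega
        rw [h3] at h2
        have h4 : (7 * u * 2) % 7 = ((7 * v + 3) * (7 * v + 2)) % 7 := by rw [h2]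
        have h5 : (7 * u * 2) % 7 = 0 := by omega
        have h6 : (7 * v + 3) * (7 * v + 2) = 7 * (7 * v * v + 5 * v) + 6 := by ring
        rw [h6] at h4
        omega
      · obtain ⟨h1, h2⟩ := ap_not_top hd hdA
        exact hmain _ h1 ht h2
    · exact hmain H h1 h2 h3

theorem typeIII_two : ∀ (N : ℕ) (G : Type) [AddCommGroup G] [Fintype G] [DecidableEq G]
    (φ : G →+ ZMod 2) (A : Finset G) (g : G), Fintype.card G = N → Function.Surjective φ →
    N % 4 = 2 → (∀ q, q ∣ N → q % 3 = 1 → q % 2 = 1) → OnlyDiag A → g ≠ 0 → tor A = {0, g} →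
    3 * A.card = N + 3 → ∑ a ∈ A, φ a = 1 := by
  have h10 : ∀ x : ZMod 2, x ≠ 0 → x = 1 := by decide
  have h3y : ∀ y : ZMod 2, y + y + y = 0 → y = 0 := by decide
  have : Fact (Nat.Prime 2) := ⟨by norm_num⟩
  intro N
  induction N using Nat.strong_induction_on with
  | _ N ih =>
  intro G _ _ _ φ A g hN hφ h4 hdiv hD hg hT hm
  have h0T : (0 : G) ∈ tor A := by rw [hT]; simp
  have hgT : g ∈ tor A := by rw [hT]; simp
  have h0 : (0 : G) ∈ A := (mem_tor.1 h0T).1
  have hgA := (mem_tor.1 hgT).1
  have hg3 := (mem_tor.1 hgT).2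
  have hTc : (tor A).card = 2 := by rw [hT]; exact Finset.card_pair (Ne.symm hg)
  have hup := upper hD
  have hlow := two_lower_two hD hTc
  rw [hTc, hN] at hup
  have hAA : (A + A).card + 1 = 2 * A.card := by omega
  have hφg : φ g = 0 := by
    have h := congrArg φ hg3
    rw [map_add, map_add, map_zero] at h
    exact h3y _ h
  rcases Nat.lt_or_ge A.card 4 with hsmall | hbig
  · -- N = 6
    have hA3 : A.card = 3 := by omega
    have hN6 : N = 6 := by omega
    subst hN6
    have hge : g ∈ A.erase 0 := Finset.mem_erase.2 ⟨hg, hgA⟩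
    obtain ⟨x, hx⟩ := Finset.card_eq_one.1 (show ((A.erase 0).erase g).card = 1 by
      rw [Finset.card_erase_of_mem hge, Finset.card_erase_of_mem h0]; omega)
    rw [← Finset.add_sum_erase _ _ h0, ← Finset.add_sum_erase _ _ hge, hx, Finset.sum_singleton,
      map_zero, hφg, zero_add, zero_add]
    apply h10
    intro hx0
    have hxm : x ∈ (A.erase 0).erase g := by rw [hx]; simp
    rw [Finset.mem_erase, Finset.mem_erase] at hxm
    obtain ⟨hxg, hx00, hxA⟩ := hxm
    -- the kernel has three elements {0, g, -g}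
    have hker : Nat.card φ.ker = 3 := by
      have h := AddSubgroup.card_eq_card_quotient_mul_card_addSubgroup φ.ker
      have e : Nat.card (G ⧸ φ.ker) = Nat.card (ZMod 2) :=
        Nat.card_congr (QuotientAddGroup.quotientKerEquivOfSurjective φ hφ).toEquiv
      rw [e, Nat.card_zmod, Nat.card_eq_fintype_card, hN] at h
      omega
    have hfk : (fs φ.ker).card = 3 := by
      rw [← card_sub, ← Nat.card_eq_fintype_card]; exact hker
    have hneg : -g ≠ g := by
      intro h
      have h2 : g + g = 0 := by nth_rw 1 [← h]; exact neg_add_cancel g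
      rw [h2, zero_add] at hg3
      exact hg hg3
    have hset : ({0, g, -g} : Finset G) = fs φ.ker := by
      apply Finset.eq_of_subset_of_card_le
      · intro z hz
        simp only [Finset.mem_insert, Finset.mem_singleton] at hz
        rw [mem_fs, AddMonoidHom.mem_ker]
        rcases hz with rfl | rfl | rfl
        · exact map_zero _
        · exact hφg
        · rw [map_neg, hφg, neg_zero]
      · rw [hfk]
        have : ({0, g, -g} : Finset G).card = 3 := by
          rw [Finset.card_eq_three]
          exact ⟨0, g, -g, Ne.symm hg, fun h => hg (by rw [← neg_neg g, ← h, neg_zero]),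
            Ne.symm hneg, rfl⟩
        omega
    have hxk : x ∈ fs φ.ker := by rw [mem_fs, AddMonoidHom.mem_ker]; exact hx0
    rw [← hset] at hxk
    simp only [Finset.mem_insert, Finset.mem_singleton] at hxk
    rcases hxk with h | h | h
    · exact hx00 h
    · exact hxg h
    · subst h
      have := (hD 0 h0 g hgA (-g) hxA (by abel)).1
      exact hg this.symm
  · have hmain : ∀ H : AddSubgroup G, H ≠ ⊥ → H ≠ ⊤ →
        (A + fs H).card + 1 ≤ A.card + (fs H).card → ∑ a ∈ A, φ a = 1 := by
      intro H hHb hHt hs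
      obtain ⟨hgH, hq⟩ := q1_two hD hg hT hHb hs
      have hC := part_bound_two hD (H := H) hg hT hgH
      obtain ⟨c1, c2, c3⟩ := counting h0 hq (by rw [hN]; omega) hC
      have hcard := card_quot H
      rw [hN] at hcard
      have hh2 := two_le_fs hHb
      have hq2 := quot_two_le hHt
      have hhlt : (fs H).card < N := by
        rw [hcard]; nlinarith
      have hqodd := hdiv (Fintype.card (G ⧸ H)) ⟨_, hcard⟩ (by omega)
      have hh4 : (fs H).card % 4 = 2 := by
        have h1 : (Fintype.card (G ⧸ H) * (fs H).card) % 4 = 2 := by rw [← hcard]; exact h4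
        rw [Nat.mul_mod] at h1
        have h2 : Fintype.card (G ⧸ H) % 4 = 1 ∨ Fintype.card (G ⧸ H) % 4 = 3 := by omega
        have h3 : (fs H).card % 4 < 4 := Nat.mod_lt _ (by norm_num)
        rcases h2 with h2 | h2 <;> rw [h2] at h1 <;> omega
      have hψ : Function.Surjective (φ.comp H.subtype) := by
        rcases zero_or_surj (φ.comp H.subtype) with h | h
        · exfalso
          have hk : ∀ t ∈ H, φ t = 0 := fun t ht => h ⟨t, ht⟩
          have hsurj : Function.Surjective (QuotientAddGroup.lift H φ hk) := by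
            intro y
            obtain ⟨x, hx⟩ := hφ y
            exact ⟨QuotientAddGroup.mk x, hx⟩
          have := surj_dvd _ hsurj
          omega
        · exact h
      have hev : ∀ x : G, (fs H).card • φ x = 0 := by
        intro x
        have : ((fs H).card : ZMod 2) = 0 := by
          rw [ZMod.natCast_eq_zero_iff]; omega
        rw [nsmul_eq_mul, this, zero_mul]
      rw [sum_decomp φ h0 c3 (∑ t ∈ fs H, φ t) (by
        intro x _ _
        rw [hev, zero_add])]
      have hb : ((img A H).card - 1) • (∑ t ∈ fs H, φ t) = 0 := by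
        have : (((img A H).card - 1 : ℕ) : ZMod 2) = 0 := by
          rw [ZMod.natCast_eq_zero_iff]; omega
        rw [nsmul_eq_mul, this, zero_mul]
      rw [hb, add_zero]
      have hTs : tor (sub A H 0) = {0, ⟨g, hgH⟩} := by
        ext t
        rw [mem_tor, mem_sub, Finset.mem_insert, Finset.mem_singleton, zero_add]
        constructor
        · rintro ⟨ha, hb⟩
          have hb' : (t : G) + t + t = 0 := by
            have := congrArg (fun t : H => (t : G)) hb
            simpa using this
          have : (t : G) ∈ tor A := mem_tor.2 ⟨ha, hb'⟩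
          rw [hT, Finset.mem_insert, Finset.mem_singleton] at this
          rcases this with h | h
          · left; exact Subtype.ext h
          · right; exact Subtype.ext h
        · rintro (rfl | rfl)
          · exact ⟨h0, by simp⟩
          · exact ⟨hgA, Subtype.ext hg3⟩
      exact ih _ hhlt H (φ.comp H.subtype) (sub A H 0) ⟨g, hgH⟩ (card_sub H) hψ hh4
        (fun q hq1 hq2 => hdiv q (by rw [hcard]; exact Dvd.dvd.mul_left hq1 _) hq2)
        (onlyDiag_sub hD H (by simp)) (fun h => hg (congrArg Subtype.val h)) hTs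
        (by rw [card_sub_eq]; exact c2)
    rcases structure_thm A hbig hAA (by omega) with ⟨d, hd, hdA⟩ | ⟨H, h1, h2, h3⟩
    · by_cases ht : AddSubgroup.zmultiples d = ⊤
      · obtain ⟨d', hd', hA⟩ := ap_zero hD h0 hd hdA ht
        rw [← map_sum, sum_ap hA, map_nsmul, nsmul_eq_mul, h10 _ (gen_ne_zero φ hφ hd'), mul_one]
        apply h10
        intro h
        have h2 : (Finset.range A.card).sum (fun i => i) * 2 = A.card * (A.card - 1) :=
          Finset.sum_range_id_mul_two _
        rw [ZMod.natCast_eq_zero_iff] at h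
        obtain ⟨u, hu⟩ := h
        rw [hu] at h2
        obtain ⟨v, hv⟩ : ∃ v, A.card = 4 * v + 3 := ⟨A.card / 4, by omega⟩
        rw [hv] at h2
        have h3 : 4 * v + 3 - 1 = 4 * v + 2 := by omega
        rw [h3] at h2
        have h6 : (4 * v + 3) * (4 * v + 2) = 4 * (4 * v * v + 5 * v + 1) + 2 := by ring
        rw [h6] at h2
        omega
      · obtain ⟨h1, h2⟩ := ap_not_top hd hdA
        exact hmain _ h1 ht h2
    · exact hmain H h1 h2 h3

end Pool.Agent.LibWSF
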