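import Pool.Agent.LibWSF.Necessity

/-!
# Constructions from extremal sets in a quotient
-/

set_option autoImplicit false
set_option linter.unusedSectionVars false
set_option linter.unusedVariables false

namespace Pool.Agent.LibWSF

open Finset
open scoped Pointwise

/-- existence of a good set of size `m` -/
def Ex (m n : ℕ) : Prop := ∃ A : Finset (ZMod n), A.card = m ∧ TotalOK A

lemma fiber_h {q h : ℕ} (hq : 0 < q) (hh : 0 < h) (φ : ZMod (q * h) →+* ZMod q)
    [NeZero (q * h)] (hφ : Function.Surjective φ) (y : ZMod q) :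
    (Finset.univ.filter (fun x : ZMod (q * h) => φ x = y)).card = h := by
  have hNq : NeZero q := ⟨hq.ne'⟩
  have h1 : ∀ y' : ZMod q, (Finset.univ.filter (fun x : ZMod (q * h) => φ x = y')).card =
      (Finset.univ.filter (fun x : ZMod (q * h) => φ x = y)).card := by
    intro y'
    exact AddMonoidHom.card_fiber_eq_of_mem_range (φ : ZMod (q * h) →+ ZMod q) (hφ y') (hφ y)
  have h2 : (Finset.univ : Finset (ZMod (q * h))).card =
      ∑ y' ∈ (Finset.univ : Finset (ZMod q)),
        (Finset.univ.filter (fun x : ZMod (q * h) => φ x = y')).card :=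
    Finset.card_eq_sum_card_fiberwise (fun x _ => Finset.mem_coe.2 (Finset.mem_univ _))
  rw [Finset.sum_congr rfl (fun y' _ => h1 y'), Finset.sum_const, Finset.card_univ,
    Finset.card_univ, ZMod.card, ZMod.card, smul_eq_mul] at h2
  exact (Nat.eq_of_mul_eq_mul_left hq h2).symm

/-- the weight construction -/
theorem weight {q h m r : ℕ} (hq : 0 < q) (hh : 0 < h) {B : Finset (ZMod q)} (hz : NoZ B)
    (hmr : m + r = B.card * h) (hrh : r ≤ h) (R : Multiset (ZMod q)) (hR1 : R.card = r)
    (hR2 : ∀ x ∈ R, x ∈ B) (t : ZMod q) (he : R.sum + 3 * t = h * ∑ x ∈ B, x + m * t) :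
    Ex m (q * h) := by
  classical
  have hNq : NeZero q := ⟨hq.ne'⟩
  have hNn : NeZero (q * h) := ⟨(Nat.mul_pos hq hh).ne'⟩
  obtain ⟨φ, hφ⟩ := exists_surj (n := q * h) (p := q) (Nat.dvd_mul_right q h)
  have hcle : ∀ x, R.count x ≤ h := fun x => (Multiset.count_le_card x R).trans (by rw [hR1]; exact hrh)
  have hS : ∀ x : ZMod q, ∃ S : Finset (ZMod (q * h)),
      S ⊆ Finset.univ.filter (fun z : ZMod (q * h) => φ z = x + t) ∧ S.card = h - R.count x := by
    intro x
    apply Finset.exists_subset_card_eq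
    rw [fiber_h hq hh φ hφ]
    exact Nat.sub_le _ _
  choose S hS1 hS2 using hS
  have hSφ : ∀ x, ∀ z ∈ S x, φ z = x + t := fun x z hz => (Finset.mem_filter.1 (hS1 x hz)).2
  have hdis : (B : Set (ZMod q)).PairwiseDisjoint S := by
    intro x _ y _ hxy
    rw [Function.onFun, Finset.disjoint_left]
    intro z hz1 hz2
    apply hxy
    have := (hSφ x z hz1).symm.trans (hSφ y z hz2)
    exact add_right_cancel this
  have hcount : ∑ x ∈ B, R.count x = r := by
    rw [Multiset.sum_count_eq_card hR2, hR1]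
  have hRsum : R.sum = ∑ x ∈ B, R.count x • x := by
    apply Finset.sum_multiset_count_of_subset
    intro x hx
    rw [Multiset.mem_toFinset] at hx
    exact hR2 x hx
  have hcard : (B.biUnion S).card = m := by
    rw [Finset.card_biUnion hdis]
    have h1 : ∑ x ∈ B, (S x).card + ∑ x ∈ B, R.count x = m + r := by
      have e : B.card * h = ∑ x ∈ B, h := by rw [Finset.sum_const, smul_eq_mul]
      rw [← Finset.sum_add_distrib, hmr, e]
      apply Finset.sum_congr rfl
      intro x _
      rw [hS2, Nat.sub_add_cancel (hcle x)]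
    omega
  have hsum : φ (∑ a ∈ B.biUnion S, a) = 3 * t := by
    rw [Finset.sum_biUnion hdis, map_sum]
    have h1 : ∀ x ∈ B, φ (∑ a ∈ S x, a) = (h - R.count x) • (x + t) := by
      intro x _
      rw [map_sum, Finset.sum_congr rfl (fun z hz => hSφ x z hz), Finset.sum_const, hS2]
    rw [Finset.sum_congr rfl h1]
    have h2 : ∑ x ∈ B, (h - R.count x) • (x + t) + ∑ x ∈ B, R.count x • (x + t) =
        ∑ x ∈ B, h • (x + t) := by
      rw [← Finset.sum_add_distrib]
      apply Finset.sum_congr rfl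
      intro x _
      rw [← add_nsmul, Nat.sub_add_cancel (hcle x)]
    have h3 : ∑ x ∈ B, R.count x • (x + t) = R.sum + r * t := by
      simp only [nsmul_add]
      rw [Finset.sum_add_distrib, ← hRsum, ← Finset.sum_smul, hcount, nsmul_eq_mul]
    have h4 : ∑ x ∈ B, h • (x + t) = h * ∑ x ∈ B, x + (m + r) * t := by
      simp only [nsmul_add]
      rw [Finset.sum_add_distrib, ← Finset.smul_sum, Finset.sum_const, nsmul_eq_mul, nsmul_eq_mul,
        nsmul_eq_mul]
      have : ((m : ZMod q) + r) = B.card * h := by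
        have := congrArg (fun n : ℕ => (n : ZMod q)) hmr
        push_cast at this
        exact this
      rw [this]; ring
    rw [h3, h4] at h2
    linear_combination h2 - he
  refine ⟨B.biUnion S, hcard, ?_⟩
  intro a ha b hb c hc habc
  exfalso
  rw [Finset.mem_biUnion] at ha hb hc
  obtain ⟨x, hx, hax⟩ := ha
  obtain ⟨y, hy, hby⟩ := hb
  obtain ⟨z, hz', hcz⟩ := hc
  apply hz x hx y hy z hz'
  have h1 := congrArg φ habc
  rw [hsum, map_add, map_add, hSφ x a hax, hSφ y b hby, hSφ z c hcz] at h1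
  linear_combination h1

/-- the interval in `ZMod (3 b - 1)` -/
lemma bint {b q : ℕ} (hb : 1 ≤ b) (hq : q + 1 = 3 * b) :
    ∃ B : Finset (ZMod q), B.card = b ∧ NoZ B ∧
      (∀ k : ℕ, b ≤ k → k < 2 * b → (k : ZMod q) ∈ B) ∧
      ∃ N : ℕ, 2 * N = b * q ∧ ∑ x ∈ B, x = (N : ZMod q) := by
  have hinj : Set.InjOn (fun k : ℕ => (k : ZMod q)) (Finset.Ico b (2 * b) : Set ℕ) := by
    intro x hx y hy hxy
    rw [Finset.mem_coe, Finset.mem_Ico] at hx hy
    have h1 : (x : ZMod q) = (y : ZMod q) := hxy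
    rw [ZMod.natCast_eq_natCast_iff', Nat.mod_eq_of_lt (by omega), Nat.mod_eq_of_lt (by omega)] at h1
    exact h1
  refine ⟨(Finset.Ico b (2 * b)).image (fun k : ℕ => (k : ZMod q)), ?_, ?_, ?_, ?_⟩
  · rw [Finset.card_image_of_injOn hinj, Nat.card_Ico]; omega
  · intro x hx y hy z hz h0
    rw [Finset.mem_image] at hx hy hz
    obtain ⟨i, hi, rfl⟩ := hx
    obtain ⟨j, hj, rfl⟩ := hy
    obtain ⟨k, hk, rfl⟩ := hz
    rw [Finset.mem_Ico] at hi hj hk
    have h1 : ((i + j + k : ℕ) : ZMod q) = 0 := by push_cast; exact h0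
    rw [ZMod.natCast_eq_zero_iff] at h1
    obtain ⟨c, hc⟩ := h1
    have hc1 : 1 < c := by
      by_contra hlt
      have : c = 0 ∨ c = 1 := by omega
      rcases this with rfl | rfl <;> omega
    have hc2 : c < 2 := by
      by_contra hge
      have : q * 2 ≤ q * c := Nat.mul_le_mul_left q (by omega)
      omega
    omega
  · intro k h1 h2
    exact Finset.mem_image.2 ⟨k, Finset.mem_Ico.2 ⟨h1, h2⟩, rfl⟩
  · refine ⟨∑ k ∈ Finset.Ico b (2 * b), k, ?_, ?_⟩
    · have h1 := Finset.sum_range_id_mul_two b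
      rw [Finset.sum_Ico_eq_sum_range, show 2 * b - b = b by omega, Finset.sum_add_distrib,
        Finset.sum_const, Finset.card_range, smul_eq_mul, mul_add, mul_comm 2 (∑ i ∈ Finset.range b, i),
        h1]
      obtain ⟨c, rfl⟩ : ∃ c, b = c + 1 := ⟨b - 1, by omega⟩
      have : q = 3 * c + 2 := by omega
      rw [this, Nat.add_sub_cancel]; ring
    · rw [Finset.sum_image hinj]; push_cast; rfl

/-- sums of `r` integers in `[b, 2b - 1]` -/
lemma split_sum {b : ℕ} (hb : 1 ≤ b) : ∀ (r N : ℕ), r * b ≤ N → N ≤ r * (2 * b - 1) →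
    ∃ R : Multiset ℕ, R.card = r ∧ (∀ k ∈ R, b ≤ k ∧ k < 2 * b) ∧ R.sum = N := by
  intro r
  induction r with
  | zero =>
    intro N h1 h2
    exact ⟨0, rfl, by simp, by simp; omega⟩
  | succ r ih =>
    intro N h1 h2
    rw [Nat.succ_mul] at h1 h2
    rcases Nat.lt_or_ge N (r * b + (2 * b - 1)) with h | h
    · obtain ⟨R, e1, e2, e3⟩ := ih (r * b) le_rfl (Nat.mul_le_mul_left r (by omega))
      refine ⟨(N - r * b) ::ₘ R, by rw [Multiset.card_cons, e1], ?_, ?_⟩
      · intro k hk
        rw [Multiset.mem_cons] at hk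
        rcases hk with rfl | hk
        · omega
        · exact e2 k hk
      · rw [Multiset.sum_cons, e3]; omega
    · obtain ⟨R, e1, e2, e3⟩ := ih (N - (2 * b - 1)) (by omega) (by omega)
      refine ⟨(2 * b - 1) ::ₘ R, by rw [Multiset.card_cons, e1], ?_, ?_⟩
      · intro k hk
        rw [Multiset.mem_cons] at hk
        rcases hk with rfl | hk
        · omega
        · exact e2 k hk
      · rw [Multiset.sum_cons, e3]; omega

/-- at least four holes: always possible -/
theorem ex_big {q b h m r : ℕ} (hb : 2 ≤ b) (hq : q + 1 = 3 * b) (hmr : m + r = b * h)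
    (h4 : 4 ≤ r) (hrh : r ≤ h) : Ex m (q * h) := by
  obtain ⟨B, b1, b2, b3, N, _, b5⟩ := bint (by omega) hq
  have hq0 : 0 < q := by omega
  have hNq : NeZero q := ⟨hq0.ne'⟩
  -- target
  set T : ZMod q := h * ∑ x ∈ B, x with hT
  set N0 := (T - (r * b : ℕ)).val with hN0
  have hN0lt : N0 < q := ZMod.val_lt _
  have hup : r * b + (q - 1) ≤ r * (2 * b - 1) := by
    obtain ⟨c, rfl⟩ : ∃ c, b = c + 1 := ⟨b - 1, by omega⟩
    have e1 : 2 * (c + 1) - 1 = 2 * c + 1 := by omega
    have e2 : q - 1 = 3 * c + 1 := by omega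
    rw [e1, e2]
    have : 4 * c ≤ r * c := Nat.mul_le_mul_right c h4
    nlinarith
  obtain ⟨R, r1, r2, r3⟩ := split_sum (b := b) (by omega) r (r * b + N0) (by omega) (by omega)
  apply weight hq0 (by omega) b2 (by rw [b1]; exact hmr) hrh (R.map (fun k : ℕ => (k : ZMod q)))
    (by rw [Multiset.card_map, r1]) (by
      intro x hx
      rw [Multiset.mem_map] at hx
      obtain ⟨k, hk, rfl⟩ := hx
      exact b3 k (r2 k hk).1 (r2 k hk).2) 0
  rw [mul_zero, mul_zero, add_zero, add_zero]
  have h1 : (R.map (fun k : ℕ => (k : ZMod q))).sum = ((R.sum : ℕ) : ZMod q) := by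
    have := map_multiset_sum (Nat.castRingHom (ZMod q)) R
    exact this.symm
  rw [h1, r3, Nat.cast_add, hN0, ZMod.natCast_zmod_val, ← hT]
  ring

/-- modulus two -/
theorem ex_two {m h : ℕ} (hm : m % 2 = 0) (hmh : m ≤ h) (hm0 : 0 < m) : Ex m (2 * h) := by
  have hz : NoZ ({1} : Finset (ZMod 2)) := by
    intro x hx y hy z hz
    rw [Finset.mem_singleton] at hx hy hz
    rw [hx, hy, hz]; decide
  have hm2 : (m : ZMod 2) = 0 := by
    rw [ZMod.natCast_eq_zero_iff]; omega
  apply weight (B := {1}) (r := h - m) (by norm_num) (by omega) hz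
    (by rw [Finset.card_singleton]; omega) (by omega) (Multiset.replicate (h - m) 1)
    (Multiset.card_replicate _ _) (by
      intro x hx
      rw [Multiset.eq_of_mem_replicate hx]; simp) 0
  rw [Multiset.sum_replicate, Finset.sum_singleton, nsmul_eq_mul, Nat.cast_sub hmh, hm2]
  ring

/-- prime modulus -/
theorem ex_prime {p m h r : ℕ} (hp : p.Prime) (hp3 : p % 3 = 2) (hp5 : 5 ≤ p)
    (hmr : 3 * (m + r) = (p + 1) * h) (hrh : r ≤ h) (hh : 0 < h) (hm3 : 3 ≤ m)
    (hex : ¬ (p ∣ m - 3 ∧ (r = 1 ∨ r = 3))) : Ex m (p * h) := by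
  have hfact : Fact p.Prime := ⟨hp⟩
  obtain ⟨b, hb⟩ : ∃ b, p + 1 = 3 * b := ⟨(p + 1) / 3, by omega⟩
  have hmr' : m + r = b * h := by
    have : 3 * (m + r) = 3 * (b * h) := by rw [hmr, hb]; ring
    omega
  rcases Nat.lt_or_ge r 4 with hr | hr
  · obtain ⟨B, b1, b2, b3, N, b4, b5⟩ := bint (b := b) (q := p) (by omega) hb
    have hs0 : ∑ x ∈ B, x = 0 := by
      have hpo : p % 2 = 1 := by
        rcases hp.eq_two_or_odd with h | h
        · omega
        · exact h
      obtain ⟨c, rfl⟩ : ∃ c, b = 2 * c := ⟨b / 2, by omega⟩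
      have : N = c * p := by
        have : 2 * N = 2 * (c * p) := by rw [b4]; ring
        omega
      rw [b5, this]; push_cast; rw [ZMod.natCast_self, mul_zero]
    by_cases hpm : p ∣ m - 3
    · have hr' : r = 0 ∨ r = 2 := by
        have h1 : r ≠ 1 := fun h => hex ⟨hpm, Or.inl h⟩
        have h2 : r ≠ 3 := fun h => hex ⟨hpm, Or.inr h⟩
        omega
      have hm : (m : ZMod p) = 3 := natCast_of_dvd_sub hm3 hpm
      rcases hr' with rfl | rfl
      · apply weight (by omega) hh b2 (by rw [b1]; exact hmr') hrh 0 rfl (by simp) 0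
        rw [hs0]; simp
      · apply weight (by omega) hh b2 (by rw [b1]; exact hmr') hrh
          {((b : ℕ) : ZMod p), ((2 * b - 1 : ℕ) : ZMod p)} rfl (by
            intro x hx
            simp only [Multiset.insert_eq_cons, Multiset.mem_cons, Multiset.mem_singleton] at hx
            rcases hx with rfl | rfl
            · exact b3 _ le_rfl (by omega)
            · exact b3 _ (by omega) (by omega)) 0
        rw [hs0, Multiset.insert_eq_cons, Multiset.sum_cons, Multiset.sum_singleton, ← Nat.cast_add,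
          show b + (2 * b - 1) = p by omega, ZMod.natCast_self]
        ring
    · have hm : (m : ZMod p) - 3 ≠ 0 := by
        intro h
        apply hpm
        rw [← ZMod.natCast_eq_zero_iff, Nat.cast_sub hm3]
        exact_mod_cast h
      apply weight (by omega) hh b2 (by rw [b1]; exact hmr') hrh
        (Multiset.replicate r ((b : ℕ) : ZMod p)) (Multiset.card_replicate _ _) (by
          intro x hx
          rw [Multiset.eq_of_mem_replicate hx]
          exact b3 _ le_rfl (by omega)) ((r * b) * ((m : ZMod p) - 3)⁻¹)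
      rw [hs0, Multiset.sum_replicate, nsmul_eq_mul]
      have h1 : ((m : ZMod p) - 3) * ((r * b) * ((m : ZMod p) - 3)⁻¹) = r * b := by
        rw [mul_comm, mul_assoc, inv_mul_cancel₀ hm, mul_one]
      linear_combination -h1
  · exact ex_big (by omega) hb hmr' hr hrh

end Pool.Agent.LibWSF
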