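import Pool.Agent.LibWSF.Weight

/-!
# Constructions modulo eight and modulo twice a prime
-/

set_option autoImplicit false
set_option linter.unusedSectionVars false
set_option linter.unusedVariables false

namespace Pool.Agent.LibWSF

open Finset
open scoped Pointwise

lemma noz345 : NoZ ({3, 4, 5} : Finset (ZMod 8)) := by
  unfold NoZ; decide

lemma noz145 : NoZ ({1, 4, 5} : Finset (ZMod 8)) := by
  unfold NoZ; decide

lemma card345 : ({3, 4, 5} : Finset (ZMod 8)).card = 3 := by decide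

lemma card145 : ({1, 4, 5} : Finset (ZMod 8)).card = 3 := by decide

lemma sum345 : ∑ x ∈ ({3, 4, 5} : Finset (ZMod 8)), x = 4 := by decide

lemma sum145 : ∑ x ∈ ({1, 4, 5} : Finset (ZMod 8)), x = 2 := by decide

lemma cast_mod {q a b : ℕ} (h : a % q = b % q) : (a : ZMod q) = (b : ZMod q) :=
  (ZMod.natCast_eq_natCast_iff' a b q).2 h

lemma eight_t {m : ℕ} (hm : m % 2 = 1) (hm8 : m % 8 ≠ 3) :
    ∃ t : ZMod 8, (m : ZMod 8) * t = 3 * t + 4 := by
  have h1 : m % 8 = 1 ∨ m % 8 = 5 ∨ m % 8 = 7 := by omega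
  rcases h1 with h | h | h
  · refine ⟨2, ?_⟩
    rw [cast_mod (q := 8) (b := 1) (by omega)]; decide
  · refine ⟨2, ?_⟩
    rw [cast_mod (q := 8) (b := 5) (by omega)]; decide
  · refine ⟨1, ?_⟩
    rw [cast_mod (q := 8) (b := 7) (by omega)]; decide

lemma four_mul_odd {h : ℕ} (hh : h % 2 = 1) : (h : ZMod 8) * 4 = 4 := by
  have h1 : h % 8 = 1 ∨ h % 8 = 3 ∨ h % 8 = 5 ∨ h % 8 = 7 := by omega
  rcases h1 with h1 | h1 | h1 | h1
  · rw [cast_mod (q := 8) (b := 1) (by omega)]; decide
  · rw [cast_mod (q := 8) (b := 3) (by omega)]; decide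
  · rw [cast_mod (q := 8) (b := 5) (by omega)]; decide
  · rw [cast_mod (q := 8) (b := 7) (by omega)]; decide

lemma four_mul_even {h : ℕ} (hh : h % 2 = 0) : (h : ZMod 8) * 4 = 0 := by
  have h1 : h % 8 = 0 ∨ h % 8 = 2 ∨ h % 8 = 4 ∨ h % 8 = 6 := by omega
  rcases h1 with h1 | h1 | h1 | h1
  · rw [cast_mod (q := 8) (b := 0) (by omega)]; decide
  · rw [cast_mod (q := 8) (b := 2) (by omega)]; decide
  · rw [cast_mod (q := 8) (b := 4) (by omega)]; decide
  · rw [cast_mod (q := 8) (b := 6) (by omega)]; decide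

lemma e8a : (0 : ZMod 8) = 4 + 4 := by decide
lemma e8b : (4 : ZMod 8) = 0 + 4 := by decide
lemma e8c : (3 + 5 : ZMod 8) = 4 + 4 := by decide
lemma e8d : (3 + (5 + 4) : ZMod 8) = 0 + 4 := by decide
lemma e8e : (1 + 5 : ZMod 8) = ((7 : ℕ) : ZMod 8) * 2 := by decide
lemma e8f : (4 + (4 + 4) : ZMod 8) = ((2 : ℕ) : ZMod 8) * 2 := by decide

/-- modulus eight -/
theorem ex_eight {m h r : ℕ} (hm : m % 2 = 1) (hmr : m + r = 3 * h) (hrh : r ≤ h) (hh : 0 < h)
    (hex : ¬ (m % 8 = 3 ∧ (r = 0 ∨ r = 1))) : Ex m (8 * h) := by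
  rcases Nat.lt_or_ge r 4 with hr | hr
  · by_cases hm8 : m % 8 = 3
    · have hm3 : (m : ZMod 8) = 3 := by
        rw [cast_mod (q := 8) (b := 3) (by omega)]; norm_num
      have hr' : r = 2 ∨ r = 3 := by omega
      rcases hr' with rfl | rfl
      · apply weight (by norm_num) hh noz145 (by rw [card145]; exact hmr) hrh {1, 5} rfl (by
          intro x hx
          simp only [Multiset.insert_eq_cons, Multiset.mem_cons, Multiset.mem_singleton] at hx
          rcases hx with rfl | rfl <;> simp) 0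
        rw [sum145, cast_mod (q := 8) (a := h) (b := 7) (by omega), Multiset.insert_eq_cons,
          Multiset.sum_cons, Multiset.sum_singleton, e8e]
        ring
      · apply weight (by norm_num) hh noz145 (by rw [card145]; exact hmr) hrh {4, 4, 4} rfl (by
          intro x hx
          simp only [Multiset.insert_eq_cons, Multiset.mem_cons, Multiset.mem_singleton] at hx
          rcases hx with rfl | rfl | rfl <;> simp) 0
        rw [sum145, cast_mod (q := 8) (a := h) (b := 2) (by omega), Multiset.insert_eq_cons,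
          Multiset.insert_eq_cons, Multiset.sum_cons, Multiset.sum_cons, Multiset.sum_singleton, e8f]
        ring
    · obtain ⟨t, ht⟩ := eight_t hm hm8
      have key : ∀ R : Multiset (ZMod 8), R.card = r → (∀ x ∈ R, x ∈ ({3, 4, 5} : Finset (ZMod 8))) →
          R.sum = h * 4 + 4 → Ex m (8 * h) := by
        intro R h1 h2 h3
        apply weight (by norm_num) hh noz345 (by rw [card345]; exact hmr) hrh R h1 h2 t
        rw [sum345, h3, ht]; ring
      have hr' : r = 0 ∨ r = 1 ∨ r = 2 ∨ r = 3 := by omega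
      rcases hr' with rfl | rfl | rfl | rfl
      · apply key 0 rfl (by simp)
        rw [four_mul_odd (by omega), Multiset.sum_zero]; exact e8a
      · apply key {4} rfl (by
          intro x hx
          rw [Multiset.mem_singleton] at hx
          rw [hx]; simp)
        rw [four_mul_even (by omega), Multiset.sum_singleton]; exact e8b
      · apply key {3, 5} rfl (by
          intro x hx
          simp only [Multiset.insert_eq_cons, Multiset.mem_cons, Multiset.mem_singleton] at hx
          rcases hx with rfl | rfl <;> simp)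
        rw [four_mul_odd (by omega), Multiset.insert_eq_cons,
          Multiset.sum_cons, Multiset.sum_singleton]; exact e8c
      · apply key {3, 5, 4} rfl (by
          intro x hx
          simp only [Multiset.insert_eq_cons, Multiset.mem_cons, Multiset.mem_singleton] at hx
          rcases hx with rfl | rfl | rfl <;> simp)
        rw [four_mul_even (by omega), Multiset.insert_eq_cons, Multiset.insert_eq_cons,
          Multiset.sum_cons, Multiset.sum_cons, Multiset.sum_singleton]; exact e8d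
  · exact ex_big (b := 3) (by norm_num) (by norm_num) hmr hr hrh

/-- linear congruences -/
lemma lin_cong {a n N : ℤ} (h : (Int.gcd a n : ℤ) ∣ N) : ∃ t : ℤ, n ∣ a * t - N := by
  obtain ⟨k, hk⟩ := h
  have h1 := Int.gcd_eq_gcd_ab a n
  refine ⟨Int.gcdA a n * k, -(Int.gcdB a n * k), ?_⟩
  rw [hk]
  linear_combination (-k) * h1

/-- a special extremal set modulo `2 p` -/
lemma b2 (c : ℕ) (hc : 1 ≤ c) : ∃ B : Finset (ZMod (2 * (6 * c + 1))), B.card = 4 * c + 1 ∧ NoZ B ∧
    (∀ k : ℕ, 1 ≤ k → k ≤ 2 * c → (k : ZMod (2 * (6 * c + 1))) ∈ B) ∧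
    (∀ k : ℕ, k ≤ 2 * c → ((6 * c + 1 + k : ℕ) : ZMod (2 * (6 * c + 1))) ∈ B) ∧
    ∑ x ∈ B, x = (((2 * c + 1) * (8 * c + 1) : ℕ) : ZMod (2 * (6 * c + 1))) := by
  set S : Finset ℕ := Finset.Icc 1 (2 * c) ∪ Finset.Icc (6 * c + 1) (6 * c + 1 + 2 * c) with hS
  have hmem : ∀ k, k ∈ S ↔ (1 ≤ k ∧ k ≤ 2 * c) ∨ (6 * c + 1 ≤ k ∧ k ≤ 6 * c + 1 + 2 * c) := by
    intro k; rw [hS, Finset.mem_union, Finset.mem_Icc, Finset.mem_Icc]
  have hdis : Disjoint (Finset.Icc 1 (2 * c)) (Finset.Icc (6 * c + 1) (6 * c + 1 + 2 * c)) := by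
    rw [Finset.disjoint_left]
    intro x hx hx'
    rw [Finset.mem_Icc] at hx hx'
    omega
  have hinj : Set.InjOn (fun k : ℕ => (k : ZMod (2 * (6 * c + 1)))) (S : Set ℕ) := by
    intro x hx y hy hxy
    rw [Finset.mem_coe, hmem] at hx hy
    have h1 : (x : ZMod (2 * (6 * c + 1))) = (y : ZMod (2 * (6 * c + 1))) := hxy
    rw [ZMod.natCast_eq_natCast_iff', Nat.mod_eq_of_lt (by omega), Nat.mod_eq_of_lt (by omega)] at h1
    exact h1
  refine ⟨S.image (fun k : ℕ => (k : ZMod (2 * (6 * c + 1)))), ?_, ?_, ?_, ?_, ?_⟩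
  · rw [Finset.card_image_of_injOn hinj, hS, Finset.card_union_of_disjoint hdis, Nat.card_Icc,
      Nat.card_Icc]
    omega
  · intro x hx y hy z hz h0
    rw [Finset.mem_image] at hx hy hz
    obtain ⟨i, hi, rfl⟩ := hx
    obtain ⟨j, hj, rfl⟩ := hy
    obtain ⟨k, hk, rfl⟩ := hz
    rw [hmem] at hi hj hk
    have h1 : ((i + j + k : ℕ) : ZMod (2 * (6 * c + 1))) = 0 := by push_cast at h0 ⊢; exact h0
    rw [ZMod.natCast_eq_zero_iff] at h1
    obtain ⟨d, hd⟩ := h1
    have hd1 : d < 2 := by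
      by_contra hge
      have : 2 * (6 * c + 1) * 2 ≤ 2 * (6 * c + 1) * d := Nat.mul_le_mul_left _ (by omega)
      omega
    interval_cases d
    · omega
    · omega
  · intro k h1 h2
    exact Finset.mem_image.2 ⟨k, (hmem k).2 (Or.inl ⟨h1, h2⟩), rfl⟩
  · intro k h1
    exact Finset.mem_image.2 ⟨_, (hmem _).2 (Or.inr ⟨by omega, by omega⟩), rfl⟩
  · rw [Finset.sum_image hinj, ← Nat.cast_sum]
    congr 1
    rw [hS, Finset.sum_union hdis]
    have h1 : ∑ k ∈ Finset.Icc 1 (2 * c), k = c * (2 * c + 1) := by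
      have h3 := Finset.sum_range_id_mul_two (2 * c + 1)
      have h4 : ∑ k ∈ Finset.Icc 1 (2 * c), k = ∑ k ∈ Finset.range (2 * c + 1), k := by
        rw [← Finset.Ico_add_one_right_eq_Icc, Finset.range_eq_Ico,
          Finset.sum_eq_sum_Ico_succ_bot (by omega : 0 < 2 * c + 1)]
        simp
      rw [h4]
      have h5 : 2 * c + 1 - 1 = 2 * c := by omega
      rw [h5] at h3
      nlinarith
    have h2 : ∑ k ∈ Finset.Icc (6 * c + 1) (6 * c + 1 + 2 * c), k =
        (2 * c + 1) * (6 * c + 1) + c * (2 * c + 1) := by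
      rw [← Finset.Ico_add_one_right_eq_Icc, Finset.sum_Ico_eq_sum_range,
        show 6 * c + 1 + 2 * c + 1 - (6 * c + 1) = 2 * c + 1 by omega, Finset.sum_add_distrib,
        Finset.sum_const, Finset.card_range, smul_eq_mul]
      have h3 := Finset.sum_range_id_mul_two (2 * c + 1)
      have h5 : 2 * c + 1 - 1 = 2 * c := by omega
      rw [h5] at h3
      nlinarith
    rw [h1, h2]; ring

/-- modulus twice a prime -/
theorem ex_twop {p m h r : ℕ} (hp : p.Prime) (hp3 : p % 3 = 1) (hm : m % 2 = 1)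
    (hmr : 3 * (m + r) = (2 * p + 1) * h) (hrh : r ≤ h) (hh : 0 < h) (hm3 : 3 ≤ m) (hr1 : 1 ≤ r)
    (hex : ¬ (p ∣ m - 3 ∧ ((r = 1 ∧ p ≠ 7) ∨ (r = 2 ∧ p = 7)))) : Ex m (2 * p * h) := by
  have hp2 : p % 2 = 1 := by
    rcases hp.eq_two_or_odd with h | h
    · subst h; omega
    · exact h
  have hp7 : 7 ≤ p := by
    have := hp.two_le
    omega
  obtain ⟨b, hb⟩ : ∃ b, 2 * p + 1 = 3 * b := ⟨(2 * p + 1) / 3, by omega⟩
  have hmr' : m + r = b * h := by
    have : 3 * (m + r) = 3 * (b * h) := by rw [hmr, hb]; ring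
    omega
  have hpar : h % 2 = (m + r) % 2 := by
    have h1 : (2 * p + 1) * h % 2 = h % 2 := by
      rw [show (2 * p + 1) * h = h + 2 * (p * h) by ring]; omega
    omega
  rcases Nat.lt_or_ge r 4 with hr | hr
  · by_cases hpm : p ∣ m - 3
    · -- special sets
      obtain ⟨c, rfl⟩ : ∃ c, p = 6 * c + 1 := ⟨p / 6, by omega⟩
      have hc : 1 ≤ c := by omega
      obtain ⟨B, b1, b2', b3, b4, b5⟩ := b2 c hc
      have h2p : 2 * (6 * c + 1) ∣ m - 3 := by
        apply Nat.Coprime.mul_dvd_of_dvd_of_dvd _ (by omega) hpm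
        rw [Nat.coprime_two_left, Nat.odd_iff]
        exact hp2
      have hm3' := natCast_of_dvd_sub hm3 h2p
      have hB : m + r = B.card * h := by rw [b1, hmr']; congr 1; omega
      have hhv : ((h : ℕ) : ZMod (2 * (6 * c + 1))) = ((9 + 3 * r : ℕ) : ZMod (2 * (6 * c + 1))) := by
        have h1 : ((3 * (m + r) : ℕ) : ZMod (2 * (6 * c + 1))) =
            (((2 * (6 * c + 1) + 1) * h : ℕ) : ZMod (2 * (6 * c + 1))) := by rw [hmr]
        rw [Nat.cast_mul, Nat.cast_add, hm3', Nat.cast_mul, Nat.cast_add, ZMod.natCast_self,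
          zero_add, Nat.cast_one, one_mul] at h1
        rw [← h1]; push_cast; ring
      have key : ∀ R : Multiset (ZMod (2 * (6 * c + 1))), R.card = r → (∀ x ∈ R, x ∈ B) →
          R.sum = (((9 + 3 * r) * ((2 * c + 1) * (8 * c + 1)) : ℕ) : ZMod (2 * (6 * c + 1))) →
          Ex m (2 * (6 * c + 1) * h) := by
        intro R h1 h2 h3
        apply weight (by omega) hh b2' hB hrh R h1 h2 0
        rw [b5, hhv, h3]; push_cast; ring
      have hr' : r = 1 ∨ r = 2 ∨ r = 3 := by omega
      rcases hr' with rfl | rfl | rfl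
      · have hc1 : c = 1 := by
          by_contra hne
          exact hex ⟨hpm, Or.inl ⟨rfl, by omega⟩⟩
        subst hc1
        apply key {((2 : ℕ) : ZMod (2 * (6 * 1 + 1)))} rfl (by
          intro x hx
          rw [Multiset.mem_singleton] at hx
          rw [hx]
          exact b3 2 (by norm_num) (by norm_num))
        rw [Multiset.sum_singleton]
        apply cast_mod
        norm_num
      · have hc2 : 2 ≤ c := by
          by_contra hlt
          exact hex ⟨hpm, Or.inr ⟨rfl, by omega⟩⟩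
        apply key {((6 * c + 1 + 0 : ℕ) : ZMod (2 * (6 * c + 1))),
          ((6 * c + 1 + (2 * c - 3) : ℕ) : ZMod (2 * (6 * c + 1)))} rfl (by
          intro x hx
          simp only [Multiset.insert_eq_cons, Multiset.mem_cons, Multiset.mem_singleton] at hx
          rcases hx with rfl | rfl
          · exact b4 0 (by omega)
          · exact b4 _ (by omega))
        rw [Multiset.insert_eq_cons, Multiset.sum_cons, Multiset.sum_singleton, ← Nat.cast_add]
        apply cast_mod
        obtain ⟨d, rfl⟩ : ∃ d, c = d + 2 := ⟨c - 2, by omega⟩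
        have e1 : 6 * (d + 2) + 1 + 0 + (6 * (d + 2) + 1 + (2 * (d + 2) - 3)) =
            (2 * d + 1) + 2 * (6 * (d + 2) + 1) * 1 := by omega
        have e2 : (9 + 3 * 2) * ((2 * (d + 2) + 1) * (8 * (d + 2) + 1)) =
            (2 * d + 1) + 2 * (6 * (d + 2) + 1) * (20 * d + 49) := by ring
        rw [e1, e2, Nat.add_mul_mod_self_left, Nat.add_mul_mod_self_left]
      · apply key (Multiset.replicate 3 ((6 * c + 1 + (2 * c - 1) : ℕ) : ZMod (2 * (6 * c + 1))))
          (Multiset.card_replicate _ _) (by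
          intro x hx
          rw [Multiset.eq_of_mem_replicate hx]
          exact b4 _ (by omega))
        rw [Multiset.sum_replicate, nsmul_eq_mul, ← Nat.cast_mul]
        apply cast_mod
        have e1 : 3 * (6 * c + 1 + (2 * c - 1)) = 24 * c := by omega
        have e2 : (9 + 3 * 3) * ((2 * c + 1) * (8 * c + 1)) =
            24 * c + 2 * (6 * c + 1) * (24 * c + 9) := by ring
        rw [e1, e2, Nat.add_mul_mod_self_left]
    · obtain ⟨B, b1, b2', b3, N, b4, b5⟩ := bint (b := b) (q := 2 * p) (by omega) hb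
      have hN : N = b * p := by
        have : 2 * N = 2 * (b * p) := by rw [b4]; ring
        omega
      obtain ⟨M, hM⟩ : ∃ M, m = 2 * M + 3 := ⟨(m - 3) / 2, by omega⟩
      have hbodd : b % 2 = 1 := by omega
      have hbp : (h * (b * p)) % 2 = h % 2 := by
        rw [Nat.mul_mod, Nat.mul_mod b p, hbodd, hp2]; omega
      have hrb : (r * b) % 2 = r % 2 := by
        rw [Nat.mul_mod, hbodd]; omega
      obtain ⟨K, hK⟩ : ∃ K : ℤ, ((r * b : ℕ) : ℤ) + 1 - ((h * (b * p) : ℕ) : ℤ) = 2 * K := by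
        refine ⟨(((r * b : ℕ) : ℤ) + 1 - ((h * (b * p) : ℕ) : ℤ)) / 2, ?_⟩
        omega
      have hcop : Int.gcd (M : ℤ) (p : ℤ) = 1 := by
        rw [Int.gcd_natCast_natCast]
        rw [← Nat.coprime_iff_gcd_eq_one, Nat.coprime_comm, Nat.Prime.coprime_iff_not_dvd hp]
        intro h
        apply hpm
        rw [hM, Nat.add_sub_cancel]
        exact Dvd.dvd.mul_left h 2
      obtain ⟨t, s, hts⟩ := lin_cong (a := (M : ℤ)) (n := (p : ℤ)) (N := K) (by
        rw [hcop]; simp)
      apply weight (by omega) hh b2' (by rw [b1]; exact hmr') hrh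
        (((b + 1 : ℕ) : ZMod (2 * p)) ::ₘ Multiset.replicate (r - 1) ((b : ℕ) : ZMod (2 * p)))
        (by rw [Multiset.card_cons, Multiset.card_replicate]; omega) (by
          intro x hx
          rw [Multiset.mem_cons] at hx
          rcases hx with rfl | hx
          · exact b3 _ (by omega) (by omega)
          · rw [Multiset.eq_of_mem_replicate hx]
            exact b3 _ le_rfl (by omega)) ((t : ℤ) : ZMod (2 * p))
      rw [Multiset.sum_cons, Multiset.sum_replicate, nsmul_eq_mul, b5, hN]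
      have e1 : (((b + 1 : ℕ) : ZMod (2 * p)) + ((r - 1 : ℕ) : ZMod (2 * p)) * ((b : ℕ) : ZMod (2 * p)))
          = (((r * b : ℕ) : ℤ) + 1 : ℤ) := by
        obtain ⟨r', rfl⟩ : ∃ r', r = r' + 1 := ⟨r - 1, by omega⟩
        rw [Nat.add_sub_cancel]; push_cast; ring
      rw [e1]
      have e2 : (m : ZMod (2 * p)) = ((2 * M + 3 : ℤ) : ZMod (2 * p)) := by
        rw [hM]; push_cast; ring
      have e3 : ((h : ZMod (2 * p)) * ((b * p : ℕ) : ZMod (2 * p))) =
          (((h * (b * p) : ℕ) : ℤ) : ZMod (2 * p)) := by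
        push_cast; ring
      rw [e2, e3]
      have e4 : ((2 * p : ℤ) : ZMod (2 * p)) = 0 := by
        have : ((2 * p : ℕ) : ZMod (2 * p)) = 0 := ZMod.natCast_self _
        exact_mod_cast this
      have e5 : (((r * b : ℕ) : ℤ) + 1 : ℤ) + 3 * t =
          ((h * (b * p) : ℕ) : ℤ) + (2 * M + 3) * t - (2 * p) * s := by
        linear_combination hK - 2 * hts
      have e6 := congrArg (fun z : ℤ => (z : ZMod (2 * p))) e5
      simp only [Int.cast_add, Int.cast_sub, Int.cast_mul, Int.cast_ofNat] at e6 ⊢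
      simp only [Int.cast_mul, Int.cast_ofNat] at e4
      rw [e4, zero_mul, sub_zero] at e6
      exact e6
  · exact ex_big (b := b) (by omega) (by omega) hmr' hr hrh

end Pool.Agent.LibWSF
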